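import Pool.Agent.H.MP_1611f1_gt.G.Ended
import Pool.Agent.H.MP_1611f1_gt.TauA

/-!
The opposite co-orientation, and scaling of the covectors.
-/

namespace Pool.Agent.H.MP_1611f1_gt.G

open Topology Set Filter

/-- reversal of the last coordinate -/
noncomputable def revH : ((ℝ × ℝ) × ℝ) ≃ₜ ((ℝ × ℝ) × ℝ) :=
  (Homeomorph.refl (ℝ × ℝ)).prodCongr (Homeomorph.neg ℝ)

section

variable {Y : Type*} [TopologicalSpace Y]

/-- the chart with the opposite co-orientation -/
noncomputable def revC (c : OpenPartialHomeomorph Y ((ℝ × ℝ) × ℝ)) :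
    OpenPartialHomeomorph Y ((ℝ × ℝ) × ℝ) := c.transHomeomorph revH

theorem revC_source (c : OpenPartialHomeomorph Y ((ℝ × ℝ) × ℝ)) :
    (revC c).source = c.source := rfl

theorem revC_snd (c : OpenPartialHomeomorph Y ((ℝ × ℝ) × ℝ)) (y : Y) :
    (revC c y).2 = -(c y).2 := rfl

/-- the foliation with the opposite co-orientation -/
noncomputable def revF (F : Foliation Y) : Foliation Y where
  charts := revC '' F.charts
  cover y := by
    obtain ⟨c, hc, hy⟩ := F.cover y
    exact ⟨revC c, mem_image_of_mem _ hc, hy⟩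
  compat := by
    rintro _ ⟨c, hc, rfl⟩ _ ⟨c', hc', rfl⟩ y hy hy'
    obtain ⟨N, hN, h⟩ := F.compat c hc c' hc' y hy hy'
    refine ⟨N, hN, fun z hz z' hz' => ?_⟩
    rw [revC_snd, revC_snd, revC_snd, revC_snd, neg_lt_neg_iff, neg_lt_neg_iff]
    exact h z' hz' z hz

variable {F : Foliation Y}

theorem revF_sameLeaf {y y' : Y} (h : F.SameLeaf y y') : (revF F).SameLeaf y y' := by
  obtain ⟨γ, hγ⟩ := h
  refine ⟨γ, ?_⟩
  rintro s _ ⟨c, hc, rfl⟩ hs
  filter_upwards [hγ s c hc hs] with s' hs'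
  rw [revC_snd, revC_snd, hs']

theorem revF_transversal {l : ℝ → Y} (h : F.ClosedTransversal l) :
    (revF F).ClosedTransversal fun s => l (-s) := by
  obtain ⟨h1, h2, h3⟩ := h
  refine ⟨h1.comp continuous_neg, fun s => ?_, ?_⟩
  · have e := h2 (-(s + 1))
    show l (-(s + 1)) = l (-s)
    rw [← e]
    congr 1
    ring
  · rintro s _ ⟨c, hc, rfl⟩ hs
    obtain ⟨ε, hε, hm⟩ := h3 (-s) c hc hs
    refine ⟨ε, hε, fun a ha b hb hab => ?_⟩
    show (revC c (l (-a))).2 < (revC c (l (-b))).2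
    rw [revC_snd, revC_snd, neg_lt_neg_iff]
    exact hm ⟨by linarith [hb.2], by linarith [hb.1]⟩ ⟨by linarith [ha.2], by linarith [ha.1]⟩
      (by linarith)

theorem revF_taut (h : F.Taut) : (revF F).Taut := by
  intro y
  obtain ⟨l, s, h1, h2⟩ := h y
  refine ⟨fun s => l (-s), -s, revF_transversal h1, ?_⟩
  show (revF F).SameLeaf y (l (- -s))
  rw [neg_neg]
  exact revF_sameLeaf h2

end

variable {M : Type*} [TopologicalSpace M] {J : Type*} {T : Ended M J} {x y : J → ℝ}

/-- the negative covectors are detected as well -/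
theorem Detected.rev (h : Detected T x y) : Detected T (fun j => -x j) (fun j => -y j) := by
  obtain ⟨F, hT, hL⟩ := h
  refine ⟨revF F, revF_taut hT, ?_⟩
  rintro j z hz _ ⟨c, hc, rfl⟩ hs
  obtain ⟨N, hN, h⟩ := hL j z hz c hc hs
  refine ⟨N, hN, fun w hw w' hw' => ?_⟩
  have h1 : (c (T.cov j w')).2 < (c (T.cov j w)).2 ↔
      x j * w'.1 + y j * w'.2.2 < x j * w.1 + y j * w.2.2 := h w' hw' w hw
  show (revC c (T.cov j w)).2 < (revC c (T.cov j w')).2 ↔
    -x j * w.1 + -y j * w.2.2 < -x j * w'.1 + -y j * w'.2.2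
  rw [revC_snd, revC_snd, neg_lt_neg_iff, h1]
  constructor
  · intro h2
    linarith
  · intro h2
    linarith

/-- the covectors matter only up to positive factors -/
theorem Detected.rescale (h : Detected T x y) (x' y' : J → ℝ)
    (hc : ∀ j, ∃ c : ℝ, 0 < c ∧ x' j = c * x j ∧ y' j = c * y j) : Detected T x' y' := by
  obtain ⟨F, hT, hL⟩ := h
  refine ⟨F, hT, fun j z hz c hc' hs => ?_⟩
  obtain ⟨k, hk, hx, hy⟩ := hc j
  refine OrdEq.trans (hL j z hz c hc' hs) (OrdEq.of_comp (fun v => k * v) (fun a b hab => ?_)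
    (Eventually.of_forall fun w => ?_))
  · exact mul_lt_mul_of_pos_left hab hk
  · show x' j * w.1 + y' j * w.2.2 = k * (x j * w.1 + y j * w.2.2)
    rw [hx, hy]
    ring

/-- reversal and scaling with one sign -/
theorem Detected.sign {ε : ℝ} (hε : ε = 1 ∨ ε = -1) (h : Detected T x y) (x' y' : J → ℝ)
    (hc : ∀ j, ∃ c : ℝ, 0 < ε * c ∧ x' j = c * x j ∧ y' j = c * y j) : Detected T x' y' := by
  rcases hε with rfl | rfl
  · exact h.rescale x' y' fun j => by
      obtain ⟨c, h1, h2⟩ := hc j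
      exact ⟨c, by linarith, h2⟩
  · refine h.rev.rescale x' y' fun j => ?_
    obtain ⟨c, h1, h2, h3⟩ := hc j
    exact ⟨-c, by linarith, by rw [h2]; ring, by rw [h3]; ring⟩

end Pool.Agent.H.MP_1611f1_gt.G
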