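import Pool.Agent.H.MP_1611f1_gt.G.Ended
import Pool.Agent.H.MP_1611f1_gt.TauA

/-!
Reversing the co-orientation, and positive scaling of the covectors at the ends.
-/

namespace Pool.Agent.H.MP_1611f1_gt

open Topology Set Filter

/-- the reflection `(x, s) ↦ (x, -s)` -/
def negH : ((ℝ × ℝ) × ℝ) ≃ₜ ((ℝ × ℝ) × ℝ) :=
  (Homeomorph.refl (ℝ × ℝ)).prodCongr (Homeomorph.neg ℝ)

theorem negH_apply (z : (ℝ × ℝ) × ℝ) : negH z = (z.1, -z.2) := rfl

namespace Foliation

variable {Y : Type*} [TopologicalSpace Y]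

/-- the foliation with the opposite co-orientation -/
def neg (F : Foliation Y) : Foliation Y where
  charts := (fun c => c.transHomeomorph negH) '' F.charts
  cover := by
    intro y
    obtain ⟨c, hc, hy⟩ := F.cover y
    exact ⟨_, ⟨c, hc, rfl⟩, hy⟩
  compat := by
    rintro _ ⟨c, hc, rfl⟩ _ ⟨c', hc', rfl⟩ y hy hy'
    obtain ⟨N, hN, h⟩ := F.compat c hc c' hc' y hy hy'
    refine ⟨N, hN, fun z hz z' hz' => ?_⟩
    show -(c z).2 < -(c z').2 ↔ -(c' z).2 < -(c' z').2
    rw [neg_lt_neg_iff, neg_lt_neg_iff]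
    exact h z' hz' z hz

theorem mem_neg {F : Foliation Y} {c : OpenPartialHomeomorph Y ((ℝ × ℝ) × ℝ)} :
    c ∈ F.neg.charts ↔ ∃ d ∈ F.charts, d.transHomeomorph negH = c := Iff.rfl

theorem LeafPath.neg {F : Foliation Y} {y y' : Y} {γ : Path y y'} (h : F.LeafPath γ) :
    F.neg.LeafPath γ := by
  rintro s _ ⟨c, hc, rfl⟩ hs
  have h1 := h s c hc hs
  filter_upwards [h1] with s' h2
  show -(c (γ s')).2 = -(c (γ s)).2
  rw [h2]

theorem SameLeaf.neg {F : Foliation Y} {y y' : Y} (h : F.SameLeaf y y') :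
    F.neg.SameLeaf y y' := by
  obtain ⟨γ, hγ⟩ := h
  exact ⟨γ, hγ.neg⟩

theorem ClosedTransversal.neg {F : Foliation Y} {l : ℝ → Y} (h : F.ClosedTransversal l) :
    F.neg.ClosedTransversal (fun s => l (-s)) := by
  obtain ⟨h1, h2, h3⟩ := h
  refine ⟨h1.comp continuous_neg, fun s => ?_, ?_⟩
  · show l (-(s + 1)) = l (-s)
    rw [← h2 (-(s + 1))]
    congr 1
    ring
  · rintro s _ ⟨c, hc, rfl⟩ hs
    obtain ⟨ε, hε, hm⟩ := h3 (-s) c hc hs
    refine ⟨ε, hε, fun a ha b hb hab => ?_⟩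
    show -(c (l (-a))).2 < -(c (l (-b))).2
    rw [neg_lt_neg_iff]
    exact hm ⟨by linarith [hb.2], by linarith [hb.1]⟩ ⟨by linarith [ha.2], by linarith [ha.1]⟩
      (by linarith)

theorem Taut.neg {F : Foliation Y} (h : F.Taut) : F.neg.Taut := by
  intro y
  obtain ⟨l, s, hl, hs⟩ := h y
  refine ⟨fun s => l (-s), -s, hl.neg, ?_⟩
  show F.neg.SameLeaf y (l (- -s))
  rw [neg_neg]
  exact hs.neg

end Foliation

/-- order germs and reversal -/
theorem OrdEq.neg {X : Type*} [TopologicalSpace X] {z₀ : X} {f g : X → ℝ} (h : OrdEq z₀ f g) :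
    OrdEq z₀ (fun z => -f z) (fun z => -g z) := by
  obtain ⟨N, hN, h⟩ := h
  refine ⟨N, hN, fun z hz z' hz' => ?_⟩
  rw [neg_lt_neg_iff, neg_lt_neg_iff]
  exact h z' hz' z hz

/-- order germs and positive scaling -/
theorem OrdEq.mul_left {X : Type*} [TopologicalSpace X] {z₀ : X} {f g : X → ℝ}
    (h : OrdEq z₀ f g) {k : ℝ} (hk : 0 < k) : OrdEq z₀ f (fun z => k * g z) :=
  h.trans (OrdEq.of_comp (fun s => k * s) (fun _ _ hab => mul_lt_mul_of_pos_left hab hk)
    (Eventually.of_forall fun _ => rfl))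

namespace G

variable {M : Type*} [TopologicalSpace M] {J : Type*} {T : Ended M J} {F : Foliation M}
  {x y : J → ℝ}

theorem Linear.neg (h : Linear T F x y) : Linear T F.neg (fun j => -x j) (fun j => -y j) := by
  rintro j z hz _ ⟨c, hc, rfl⟩ hs
  have h1 := (h j z hz c hc hs).neg
  refine h1.congr (Eventually.of_forall fun w => rfl) (Eventually.of_forall fun w => ?_)
  show -x j * w.1 + -y j * w.2.2 = -(x j * w.1 + y j * w.2.2)
  ring

theorem Linear.scale (h : Linear T F x y) {k : J → ℝ} (hk : ∀ j, 0 < k j) :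
    Linear T F (fun j => k j * x j) (fun j => k j * y j) := by
  intro j z hz c hc hs
  refine ((h j z hz c hc hs).mul_left (hk j)).congr (Eventually.of_forall fun w => rfl)
    (Eventually.of_forall fun w => ?_)
  show k j * x j * w.1 + k j * y j * w.2.2 = k j * (x j * w.1 + y j * w.2.2)
  ring

theorem Detected.neg (h : Detected T x y) : Detected T (fun j => -x j) (fun j => -y j) := by
  obtain ⟨F, hF, hL⟩ := h
  exact ⟨F.neg, hF.neg, hL.neg⟩

theorem Detected.scale (h : Detected T x y) {k : J → ℝ} (hk : ∀ j, 0 < k j) :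
    Detected T (fun j => k j * x j) (fun j => k j * y j) := by
  obtain ⟨F, hF, hL⟩ := h
  exact ⟨F, hF, hL.scale hk⟩

end G

end Pool.Agent.H.MP_1611f1_gt
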