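import Pool.Agent.H.MP_1611f1_gt.G.GlC

/-!
The gluing theorem.
-/

namespace Pool.Agent.H.MP_1611f1_gt.G

open Topology Set Filter

section

variable {V : Type*} {M : V → Type*} [∀ v, TopologicalSpace (M v)] {J : V → Type*}
  {T : ∀ v, Ended (M v) (J v)} {G : Pattern (Σ v, J v)} {Y : Type*} [TopologicalSpace Y]
  (U : Union T G Y) (F : ∀ v, Foliation (M v)) (κ : (Σ v, J v) → ℝ) (Fo : Foliation Y)
  (hFo : Fo.charts = AllCh U F κ)

include hFo in
theorem push_sameLeaf (v : V) {m m' : M v} (h : (F v).SameLeaf m m') :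
    Fo.SameLeaf (pv U v m) (pv U v m') := by
  obtain ⟨γ, hγ⟩ := h
  have h1 := Fo.sameLeaf_of (fun s => pv U v (γ s)) ((pv_cont U v).comp γ.continuous) ?_
  · simpa using h1
  · intro s
    obtain ⟨c, hc, hm⟩ := (F v).cover (γ s)
    obtain ⟨C, W, hA, hW, hmW, hsrc, hval⟩ := exists_A U F v (γ s) c hc hm
    refine ⟨C, ?_, ?_, ?_⟩
    · rw [hFo]
      exact Or.inl hA
    · rw [hsrc]
      exact ⟨γ s, hmW, rfl⟩
    · have h2 : ∀ᶠ s' in 𝓝 s, γ s' ∈ W := γ.continuous.continuousAt (hW.mem_nhds hmW)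
      filter_upwards [hγ s c hc hm, h2] with s' h3 h4
      rw [hval _ h4, hval _ hmW]
      exact h3

include hFo in
theorem push_transversal (v : V) {l : ℝ → M v} (h : (F v).ClosedTransversal l) :
    Fo.ClosedTransversal (fun s => pv U v (l s)) := by
  obtain ⟨hl, hper, hmono⟩ := h
  refine Fo.transversal_of _ ((pv_cont U v).comp hl) (fun s => by rw [hper s]) fun s => ?_
  obtain ⟨c, hc, hm⟩ := (F v).cover (l s)
  obtain ⟨C, W, hA, hW, hmW, hsrc, hval⟩ := exists_A U F v (l s) c hc hm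
  obtain ⟨ε, hε, hst⟩ := hmono s c hc hm
  obtain ⟨δ, hδ, hball⟩ := Metric.mem_nhds_iff.1 (hl.continuousAt (x := s) (hW.mem_nhds hmW))
  refine ⟨C, ?_, ?_, min ε δ, lt_min hε hδ, ?_⟩
  · rw [hFo]
    exact Or.inl hA
  · rw [hsrc]
    exact ⟨l s, hmW, rfl⟩
  · have key : ∀ t ∈ Ioo (s - min ε δ) (s + min ε δ), t ∈ Ioo (s - ε) (s + ε) ∧ l t ∈ W := by
      intro t ht
      have h1 : min ε δ ≤ ε := min_le_left _ _
      have h2 : min ε δ ≤ δ := min_le_right _ _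
      refine ⟨⟨by linarith [ht.1], by linarith [ht.2]⟩, ?_⟩
      have h3 : t ∈ Metric.ball s δ := by
        rw [Metric.mem_ball, Real.dist_eq, abs_lt]
        exact ⟨by linarith [ht.1], by linarith [ht.2]⟩
      exact hball h3
    intro a ha b hb hab
    obtain ⟨ha1, ha2⟩ := key a ha
    obtain ⟨hb1, hb2⟩ := key b hb
    show (C (pv U v (l a))).2 < (C (pv U v (l b))).2
    rw [hval _ ha2, hval _ hb2]
    exact hst ha1 hb1 hab

include hFo in
/-- leaf paths in the meridian discs -/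
theorem leaf_core (hκ : ∀ e, G.τ e = e → κ e ≠ 0) (e : {e : Σ v, J v // G.τ e = e})
    (w w' : Metric.ball (0 : ℂ) 2) (h : AddCircle (1 : ℝ)) (hw : ‖(w : ℂ)‖ < 4 / 3)
    (hw' : ‖(w' : ℂ)‖ < 4 / 3) : Fo.SameLeaf (U.q e (w, h)) (U.q e (w', h)) := by
  have hmem : ∀ s : unitInterval,
      ‖((1 - (s : ℝ)) • (w : ℂ) + (s : ℝ) • (w' : ℂ))‖ < 4 / 3 := by
    intro s
    have h1 : (w : ℂ) ∈ Metric.ball (0 : ℂ) (4 / 3) := mem_ball_zero_iff.2 hw
    have h2 : (w' : ℂ) ∈ Metric.ball (0 : ℂ) (4 / 3) := mem_ball_zero_iff.2 hw'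
    have h3 := (convex_ball (0 : ℂ) (4 / 3)) h1 h2 (sub_nonneg.2 s.2.2) s.2.1
      (sub_add_cancel 1 (s : ℝ))
    exact mem_ball_zero_iff.1 h3
  let c : unitInterval → Metric.ball (0 : ℂ) 2 := fun s =>
    ⟨(1 - (s : ℝ)) • (w : ℂ) + (s : ℝ) • (w' : ℂ),
      mem_ball_zero_iff.2 ((hmem s).trans (by norm_num))⟩
  have hc : Continuous c := by
    apply Continuous.subtype_mk
    fun_prop
  have hc0 : c 0 = w := by
    apply Subtype.ext
    simp [c]
  have hc1 : c 1 = w' := by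
    apply Subtype.ext
    simp [c]
  obtain ⟨u, rfl⟩ := QuotientAddGroup.mk_surjective h
  obtain ⟨ch, hIII, hsrc, hval⟩ := exists_B U κ e (hκ e.1 e.2) (u - 1 / 2)
  have hu : u ∈ Ioo (u - 1 / 2) (u - 1 / 2 + 1) := ⟨by linarith, by linarith⟩
  have key := Fo.sameLeaf_of (fun s => U.q e (c s, ((u : ℝ) : AddCircle (1 : ℝ))))
    ((U.q_emb e).continuous.comp (hc.prodMk continuous_const)) (fun s => by
      refine ⟨ch, ?_, ?_, Eventually.of_forall fun s' => ?_⟩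
      · rw [hFo]
        exact Or.inr hIII
      · rw [hsrc]
        exact ⟨(c s, ((u : ℝ) : AddCircle (1 : ℝ))), ⟨hmem s, u, hu, rfl⟩, rfl⟩
      · rw [hval (c s') u (hmem s') hu, hval (c s) u (hmem s) hu])
  rw [hc0, hc1] at key
  exact key

include hFo in
theorem glue_taut_aux (hκ : ∀ e, G.τ e = e → κ e ≠ 0) (hT : ∀ v, (F v).Taut) : Fo.Taut := by
  have hA : ∀ (v : V) (m : M v), ∃ l : ℝ → Y, ∃ s : ℝ, Fo.ClosedTransversal l ∧
      Fo.SameLeaf (pv U v m) (l s) := by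
    intro v m
    obtain ⟨l, s, h1, h2⟩ := hT v m
    exact ⟨_, s, push_transversal U F κ Fo hFo v h1, push_sameLeaf U F κ Fo hFo v h2⟩
  intro y
  rcases tri U y with ⟨e, z, rfl⟩ | ⟨v, m, rfl, -⟩ | ⟨e, w, h, rfl, hw⟩
  · exact hA _ _
  · exact hA _ _
  · have hn76 : ‖((7 / 6 : ℝ) : ℂ)‖ = 7 / 6 := by
      rw [Complex.norm_real, Real.norm_of_nonneg (by norm_num)]
    let w' : Metric.ball (0 : ℂ) 2 := ⟨((7 / 6 : ℝ) : ℂ), by
      rw [mem_ball_zero_iff, hn76]; norm_num⟩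
    have hw' : ‖(w' : ℂ)‖ = 7 / 6 := hn76
    have h1 := leaf_core U F κ Fo hFo hκ e w w' h (by linarith) (by rw [hw']; norm_num)
    obtain ⟨z, hz, -⟩ := exists_RR U e w' h (by rw [hw']; norm_num)
    obtain ⟨l, s, h2, h3⟩ := hA e.1.1 ((T e.1.1).cov e.1.2 z)
    refine ⟨l, s, h2, ?_⟩
    rw [hz] at h1
    exact Foliation.SameLeaf.trans Fo h1 h3

end

/-- **the gluing theorem** -/
theorem glue_taut {V : Type*} {M : V → Type*} [∀ v, TopologicalSpace (M v)] {J : V → Type*}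
    (T : ∀ v, Ended (M v) (J v)) (G : Pattern (Σ v, J v)) {Y : Type*} [TopologicalSpace Y]
    (U : Union T G Y) (x y : (Σ v, J v) → ℝ)
    (hdet : ∀ v, Detected (T v) (fun j => x ⟨v, j⟩) (fun j => y ⟨v, j⟩))
    (hglue : ∀ e, G.τ e ≠ e → x e = G.al e * x (G.τ e) + G.ga e * y (G.τ e) ∧
      y e = G.be e * x (G.τ e) + G.de e * y (G.τ e))
    (hfill : ∀ e, G.τ e = e → ∃ c : ℝ, c ≠ 0 ∧ x e = c * G.ga e ∧ y e = c * G.de e) :
    ∃ F : Foliation Y, F.Taut := by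
  choose F hF hlin using hdet
  choose c hc using hfill
  classical
  have hfill' : ∀ e, G.τ e = e → (fun e => if h : G.τ e = e then c e h else 1) e ≠ 0 ∧
      x e = (fun e => if h : G.τ e = e then c e h else 1) e * G.ga e ∧
      y e = (fun e => if h : G.τ e = e then c e h else 1) e * G.de e := by
    intro e he
    simp only [dif_pos he]
    exact hc e he
  obtain ⟨Fo, hFo⟩ := exists_fol U F (fun e => if h : G.τ e = e then c e h else 1) hlin hglue hfill'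
  exact ⟨Fo, glue_taut_aux U F _ Fo hFo (fun e he => (hfill' e he).1) hF⟩

end Pool.Agent.H.MP_1611f1_gt.G
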