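import Pool.Agent.H.MP_1611f1_gt.G.BLf
import Pool.Agent.H.MP_1611f1_gt.Chn

/-!
Mapping tori: the chain, and the free ends.
-/

namespace Pool.Agent.H.MP_1611f1_gt.G.B

open Topology Set Filter

variable {S : Type*} [TopologicalSpace S] {J K : Type*} {E : Surf S J} {col : J → K} {L : J → ℕ}

/-- the chain of homeomorphisms fixes the common fixed points of the factors -/
theorem exists_chain_fix {A : Arcs E col L} {n : ℕ} (hn : 0 < n) (Φ : Factors A n) :
    ∃ C : Chain A n Φ.phi, ∀ x, (∀ i, Φ.g i x = x ∧ Φ.h i x = x) → ∀ i, C.ψ i x = x := by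
  obtain ⟨ψ, h0, hper, hodd, heven⟩ := exists_psi n hn Φ.g Φ.h
  have hstep : ∀ x, (∀ i, Φ.g i x = x ∧ Φ.h i x = x) → ∀ i, (ψ i x = x ↔ ψ (i - 1) x = x) := by
    intro x hx i
    rcases Int.even_or_odd i with hi | hi
    · obtain ⟨k, hk⟩ := heven i hi
      rw [hk, Homeomorph.mul_apply]
      constructor
      · intro h
        have := h.trans (hx k).2.symm
        exact (Φ.h k).injective this
      · intro h
        rw [h, (hx k).2]
    · obtain ⟨k, hk⟩ := hodd i hi
      rw [hk, Homeomorph.mul_apply]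
      constructor
      · intro h
        have := h.trans (hx k).1.symm
        exact (Φ.g k).injective this
      · intro h
        rw [h, (hx k).1]
  have hfix : ∀ x, (∀ i, Φ.g i x = x ∧ Φ.h i x = x) → ∀ i, ψ i x = x := by
    intro x hx i
    induction i using Int.induction_on with
    | zero => rw [h0]; rfl
    | succ i ih =>
      rw [hstep x hx]
      simpa using ih
    | pred i ih => exact (hstep x hx _).1 ih
  refine ⟨⟨ψ, hper, fun i j z => hfix _ (fun i => ⟨Φ.g_collar i j z, Φ.h_collar i j z⟩) i,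
    fun i hi j x => ?_, fun i hi j x => ?_⟩, hfix⟩
  · obtain ⟨k, hk⟩ := hodd i hi
    rw [hk, Homeomorph.mul_apply, Φ.g_a]
  · obtain ⟨k, hk⟩ := heven i hi
    rw [hk, Homeomorph.mul_apply, Φ.h_b]

variable {phi : S ≃ₜ S} {Y : Type*} [TopologicalSpace Y]
  (Fl : MTB E phi Y) {n : ℕ} (A : Arcs E col L) {σ : K → ℝ}
  (H : ∀ k, Hol (σ k)) (C : Chain A n phi)

/-- at the points which are far from the strips at all times the charts order by the time -/
theorem free_all [Finite J] [Finite K] (hn : 0 < n) {c : OpenPartialHomeomorph Y ((ℝ × ℝ) × ℝ)}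
    (hc : c ∈ AllCharts Fl A H C) {x : S} {t : ℝ} (hx : ∀ j w, x ≠ E.collar j w)
    (hψ : ∀ i, C.ψ i x = x) (hk : ∀ e, kap A e x = 0) (hy : PP Fl n (x, t) ∈ c.source) :
    OrdEq (x, t) (fun z => (c (PP Fl n z)).2) (fun z => z.2) := by
  obtain ⟨-, i, a, b, -, hD, -, h⟩ :=
    typeI_outer Fl A H C hn (CmpH_onlyI Fl A H C hn hc hx hy) hy
  obtain ⟨h1, h2⟩ := hD
  rw [hψ] at h1 h2
  have ha : a = none := by
    cases a with
    | none => rfl
    | some e => exact absurd (hk e) h1
  have hb : b = none := by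
    cases b with
    | none => rfl
    | some e => exact absurd (hk e) h2
  subst ha hb
  refine h.trans (OrdEq.of_comp id strictMono_id (Eventually.of_forall fun z => ?_))
  show z.2 = Fs A H C i none none z.1 z.2
  unfold Fs
  simp only [Fa, ite_self]

end Pool.Agent.H.MP_1611f1_gt.G.B
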