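import Pool.Agent.H.MP_1611f1_gt.G.MT
import Pool.Agent.H.MP_1611f1_gt.G.BChn
import Pool.Agent.H.MP_1611f1_gt.G.Neg
import Pool.Agent.H.MP_1611f1_gt.OneD

/-!
Taut foliations with linear ends in mapping tori.
-/

namespace Pool.Agent.H.MP_1611f1_gt.G

open Topology Set Filter

section

variable {S : Type*} [TopologicalSpace S] {J : Type*} {M : Type*} [TopologicalSpace M]
  {T : Ended M J} {E : Surf S J} {phi : S ≃ₜ S} (Mt : MTorus E phi T)

/-- the mapping torus, without its ends -/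
def bun_MTB (P : J → Prop) : B.MTB (E.sub P) phi M where
  p := Mt.p
  p_loc := Mt.p_loc
  p_eq := Mt.p_eq
  p_surj := Mt.p_surj

theorem bun_cov (P : J → Prop) {n : ℕ} (hn : 0 < n) (j : J) (w : ℝ × Ioo (1 : ℝ) 2 × ℝ) :
    T.cov j w = B.PP (bun_MTB Mt P) n
      (E.collar j ((w.1 : AddCircle (1 : ℝ)), w.2.1), 4 * n * w.2.2) := by
  have hn' : (4 * (n : ℝ)) ≠ 0 := by
    have : (n : ℝ) ≠ 0 := by exact_mod_cast hn.ne'
    positivity
  have h1 : 4 * (n : ℝ) * w.2.2 / (4 * n) = w.2.2 := by field_simp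
  show T.tor j (_, w.2.1, _) = Mt.p (_, 4 * (n : ℝ) * w.2.2 / (4 * n))
  rw [h1, Mt.tor]

end

/-- reversal and scaling with one sign -/
theorem Detected.sign {M : Type*} [TopologicalSpace M] {J : Type*} {T : Ended M J} {x y : J → ℝ}
    {ε : ℝ} (hε : ε = 1 ∨ ε = -1) (h : Detected T x y) (x' y' : J → ℝ)
    (hc : ∀ j, ∃ c : ℝ, 0 < ε * c ∧ x' j = c * x j ∧ y' j = c * y j) : Detected T x' y' := by
  choose c h1 h2 h3 using hc
  rcases hε with rfl | rfl
  · have h4 := h.scale (k := c) fun j => by linarith [h1 j]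
    rwa [show (fun j => c j * x j) = x' from funext fun j => (h2 j).symm,
      show (fun j => c j * y j) = y' from funext fun j => (h3 j).symm] at h4
  · have h4 := h.neg.scale (k := fun j => -c j) fun j => by linarith [h1 j]
    rwa [show (fun j => -c j * -x j) = x' from funext fun j => by rw [h2]; ring,
      show (fun j => -c j * -y j) = y' from funext fun j => by rw [h3]; ring] at h4

/-- mapping tori of pieces detect the covectors of the box -/
theorem detected_bundle {S : Type*} [TopologicalSpace S] [ConnectedSpace S] {J K : Type*}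
    [Finite J] [Nonempty J] [Finite K] (P : Piece S J K) {M : Type*} [TopologicalSpace M]
    {T : Ended M J}
    (Mt : MTorus P.E P.Φ.phi T) (σ : K → ℝ) (hσ : ∀ k, |σ k| < 1) (ε : ℝ)
    (hε : ε = 1 ∨ ε = -1) (x y : J → ℝ) (hy : ∀ j, 0 < ε * y j)
    (hx : ∀ j (h : 0 < P.L j), P.n * x j = σ (P.col ⟨j, h⟩) * P.L j * y j)
    (hx0 : ∀ j, P.L j = 0 → x j = 0) : Detected T x y := by
  classical
  have hn := P.n_pos
  have hn' : (0 : ℝ) < P.n := by exact_mod_cast hn
  have hL : ∀ j : {j // 0 < P.L j}, 0 < P.L j.1 := fun j => j.2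
  have H : ∀ k, Hol (-σ k) := fun k =>
    Classical.choice (exists_hol (-σ k) (by rw [abs_neg]; exact hσ k))
  obtain ⟨C, hC⟩ := B.exists_chain_fix hn P.Φ
  have hfree : ∀ j w, P.L j = 0 → (∀ i, C.ψ i (P.E.collar j w) = P.E.collar j w) ∧
      ∀ e, kap P.A e (P.E.collar j w) = 0 := by
    intro j w hj
    refine ⟨hC _ fun i => P.fix i j w, fun e => ?_⟩
    obtain ⟨h1, h2⟩ := P.free j hj e.2 w
    unfold kap
    split_ifs
    · exact h2
    · exact h1
  have hne : Nonempty {j // 0 < P.L j} := by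
    obtain ⟨j⟩ := ‹Nonempty J›
    by_cases hj : 0 < P.L j
    · exact ⟨⟨j, hj⟩⟩
    · have hj0 : P.L j = 0 := by omega
      have w : AddCircle (1 : ℝ) × Ioo (1 : ℝ) 2 := (0, ⟨3 / 2, by norm_num, by norm_num⟩)
      have h0 : P.E.collar j w ∈ VV P.A none := by
        intro e
        rw [(hfree j w hj0).2, norm_zero]
        norm_num
      obtain ⟨j', -⟩ := B.none_reach P.A h0
      exact ⟨j'⟩
  let Fl := bun_MTB Mt fun j => 0 < P.L j
  obtain ⟨F, hF⟩ := B.exists_foliation Fl P.A H C hn hL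
  have hT : F.Taut := B.taut Fl P.A H C F hn hL hF
  have hlin : Linear T F (fun j => if h : 0 < P.L j then 4 * P.L j * σ (P.col ⟨j, h⟩) else 0)
      (fun _ => 4 * P.n) := by
    intro j z hz c hc hs
    rw [hF] at hc
    have hcov : ∀ w, T.cov j w = B.PP Fl P.n
      (P.E.collar j ((w.1 : AddCircle (1 : ℝ)), w.2.1), 4 * P.n * w.2.2) :=
      fun w => bun_cov Mt (fun j => 0 < P.L j) hn j w
    by_cases hj : 0 < P.L j
    · have hL' : (0 : ℝ) < P.L j := by exact_mod_cast hj
      let R : ℝ × Ioo (1 : ℝ) 2 × ℝ → ℝ × Ioo (1 : ℝ) 2 × ℝ := fun w =>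
        (4 * P.L j * w.1, w.2.1, 4 * P.n * w.2.2)
      have hR : Continuous R := by
        show Continuous fun w : ℝ × Ioo (1 : ℝ) 2 × ℝ =>
          (4 * (P.L j : ℝ) * w.1, w.2.1, 4 * (P.n : ℝ) * w.2.2)
        fun_prop
      have hQ : ∀ w, T.cov j w = B.QQ Fl (fun j => P.L j.1) P.n ⟨j, hj⟩ (R w) := by
        intro w
        rw [hcov]
        show _ = B.PP Fl P.n (P.E.collar j
          (((4 * (P.L j : ℝ) * w.1 / (4 * P.L j) : ℝ) : AddCircle (1 : ℝ)), w.2.1),
            4 * P.n * w.2.2)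
        have h1 : 4 * (P.L j : ℝ) * w.1 / (4 * P.L j) = w.1 := by field_simp
        rw [h1]
      rw [hQ] at hs
      have h2 := B.collar_all Fl P.A H C hn hL hc ⟨j, hj⟩ hs
      have h3 := OrdEq.comp_cont (R := R) (z₀ := z) hR.continuousAt h2
      have hev : ∀ᶠ w : ℝ × Ioo (1 : ℝ) 2 × ℝ in 𝓝 z, (w.2.1 : ℝ) < 4 / 3 := by
        have h4 : Continuous fun w : ℝ × Ioo (1 : ℝ) 2 × ℝ => (w.2.1 : ℝ) := by fun_prop
        exact h4.continuousAt.eventually_lt_const hz
      refine h3.congr (Eventually.of_forall fun w => ?_) (hev.mono fun w hw => ?_)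
      · show (c (T.cov j w)).2 = (c (B.QQ Fl (fun j => P.L j.1) P.n ⟨j, hj⟩ (R w))).2
        rw [hQ]
      · show (if h : 0 < P.L j then 4 * P.L j * σ (P.col ⟨j, h⟩) else 0) * w.1 +
          4 * P.n * w.2.2 = MR (H (P.col ⟨j, hj⟩)) (4 * P.L j * w.1) w.2.1 (4 * P.n * w.2.2)
        rw [MR_inner _ _ _ hw.le, dif_pos hj]
        ring
    · have hj0 : P.L j = 0 := by omega
      obtain ⟨u, r, t⟩ := z
      have hx' : ∀ j' w', P.E.collar j ((u : AddCircle (1 : ℝ)), r) ≠
          (P.E.sub fun j => 0 < P.L j).collar j' w' := by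
        intro j' w' h
        have h1 : j = j'.1 := P.E.disj _ _ _ _ h
        have h2 := j'.2
        rw [← h1] at h2
        exact hj h2
      rw [hcov] at hs
      obtain ⟨h1, h2⟩ := hfree j ((u : AddCircle (1 : ℝ)), r) hj0
      have h3 := B.free_all Fl P.A H C hn hc hx' h1 h2 hs
      let R : ℝ × Ioo (1 : ℝ) 2 × ℝ → S × ℝ := fun w =>
        (P.E.collar j ((w.1 : AddCircle (1 : ℝ)), w.2.1), 4 * P.n * w.2.2)
      have hR : Continuous R := by
        refine Continuous.prodMk ((P.E.emb j).continuous.comp (Continuous.prodMk ?_ ?_)) ?_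
        · exact (AddCircle.continuous_mk' (1 : ℝ)).comp continuous_fst
        · fun_prop
        · fun_prop
      have h4 := OrdEq.comp_cont (R := R) (z₀ := (u, r, t)) hR.continuousAt h3
      refine h4.congr (Eventually.of_forall fun w => ?_) (Eventually.of_forall fun w => ?_)
      · show (c (T.cov j w)).2 = (c (B.PP Fl P.n (R w))).2
        rw [hcov]
      · show (if h : 0 < P.L j then 4 * P.L j * σ (P.col ⟨j, h⟩) else 0) * w.1 +
          4 * P.n * w.2.2 = 4 * P.n * w.2.2
        rw [dif_neg hj]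
        ring
  refine Detected.sign hε ⟨F, hT, hlin⟩ x y fun j => ⟨y j / (4 * P.n), ?_, ?_, ?_⟩
  · have h1 : ε * (y j / (4 * P.n)) = ε * y j / (4 * P.n) := by ring
    rw [h1]
    exact div_pos (hy j) (by positivity)
  · by_cases hj : 0 < P.L j
    · simp only [dif_pos hj]
      have h1 := hx j hj
      field_simp
      linarith
    · simp only [dif_neg hj, mul_zero]
      exact hx0 j (by omega)
  · field_simp

end Pool.Agent.H.MP_1611f1_gt.G
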