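import Pool.Agent.H.MP_1611f1_gt.G.Ended

/-!
Foliations and homeomorphisms.
-/

namespace Pool.Agent.H.MP_1611f1_gt

open Topology Set Filter

namespace Foliation

variable {Y Y' : Type*} [TopologicalSpace Y] [TopologicalSpace Y']

/-- the foliation of `Y` given by a foliation of a homeomorphic space -/
def pull (h : Y ≃ₜ Y') (F : Foliation Y') : Foliation Y where
  charts := (fun c => h.transOpenPartialHomeomorph c) '' F.charts
  cover := by
    intro y
    obtain ⟨c, hc, hy⟩ := F.cover (h y)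
    exact ⟨_, ⟨c, hc, rfl⟩, hy⟩
  compat := by
    rintro _ ⟨c, hc, rfl⟩ _ ⟨c', hc', rfl⟩ y hy hy'
    obtain ⟨N, hN, hh⟩ := F.compat c hc c' hc' (h y) hy hy'
    exact ⟨h ⁻¹' N, h.continuous.continuousAt hN, fun z hz z' hz' => hh (h z) hz (h z') hz'⟩

theorem SameLeaf.pull (h : Y ≃ₜ Y') {F : Foliation Y'} {y y' : Y'} (hs : F.SameLeaf y y') :
    (F.pull h).SameLeaf (h.symm y) (h.symm y') := by
  obtain ⟨γ, hγ⟩ := hs
  refine ⟨γ.map h.symm.continuous, ?_⟩
  rintro s _ ⟨c, hc, rfl⟩ hsr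
  have h1 : h ((γ.map h.symm.continuous) s) = γ s := h.apply_symm_apply _
  have h2 : γ s ∈ c.source := by
    have h3 : h ((γ.map h.symm.continuous) s) ∈ c.source := hsr
    rwa [h1] at h3
  filter_upwards [hγ s c hc h2] with s' h3
  show (c (h (h.symm (γ s')))).2 = (c (h (h.symm (γ s)))).2
  rw [h.apply_symm_apply, h.apply_symm_apply]
  exact h3

theorem ClosedTransversal.pull (h : Y ≃ₜ Y') {F : Foliation Y'} {l : ℝ → Y'}
    (hl : F.ClosedTransversal l) : (F.pull h).ClosedTransversal (fun s => h.symm (l s)) := by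
  obtain ⟨h1, h2, h3⟩ := hl
  refine ⟨h.symm.continuous.comp h1, fun s => congrArg h.symm (h2 s), ?_⟩
  rintro s _ ⟨c, hc, rfl⟩ hs
  have h4 : l s ∈ c.source := by
    have h5 : h (h.symm (l s)) ∈ c.source := hs
    rwa [h.apply_symm_apply] at h5
  obtain ⟨ε, hε, hm⟩ := h3 s c hc h4
  refine ⟨ε, hε, fun a ha b hb hab => ?_⟩
  show (c (h (h.symm (l a)))).2 < (c (h (h.symm (l b)))).2
  rw [h.apply_symm_apply, h.apply_symm_apply]
  exact hm ha hb hab

theorem Taut.pull (h : Y ≃ₜ Y') {F : Foliation Y'} (hT : F.Taut) : (F.pull h).Taut := by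
  intro y
  obtain ⟨l, s, hl, hs⟩ := hT (h y)
  refine ⟨fun s => h.symm (l s), s, hl.pull h, ?_⟩
  have h1 := hs.pull h
  rwa [h.symm_apply_apply] at h1

end Foliation

namespace G

/-- detected covectors of homeomorphic manifolds with toral ends -/
theorem Detected.pull {M M' : Type*} [TopologicalSpace M] [TopologicalSpace M'] {J J' : Type*}
    {T : Ended M J} {T' : Ended M' J'} (h : M ≃ₜ M') (ι : J' ≃ J)
    (hT : ∀ j z, h (T.tor (ι j) z) = T'.tor j z) {x y : J → ℝ}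
    (hd : Detected T' (fun j => x (ι j)) (fun j => y (ι j))) : Detected T x y := by
  obtain ⟨F, hF, hlin⟩ := hd
  refine ⟨F.pull h, hF.pull h, ?_⟩
  rintro j z hz _ ⟨c, hc, rfl⟩ hs
  obtain ⟨j', rfl⟩ := ι.surjective j
  have h1 : ∀ w, h (T.cov (ι j') w) = T'.cov j' w := fun w => hT j' _
  have h2 : T'.cov j' z ∈ c.source := by
    have h3 : h (T.cov (ι j') z) ∈ c.source := hs
    rwa [h1] at h3
  obtain ⟨N, hN, h3⟩ := hlin j' z hz c hc h2
  refine ⟨N, hN, fun w hw w' hw' => ?_⟩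
  show (c (h (T.cov (ι j') w))).2 < (c (h (T.cov (ι j') w'))).2 ↔ _
  rw [h1, h1]
  exact h3 w hw w' hw'

end G

end Pool.Agent.H.MP_1611f1_gt
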