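import Pool.Agent.H.MP_1611f1_gt.G.Ended
import Pool.Agent.H.MP_1611f1_gt.Defs

/-!
Mapping tori as manifolds with toral ends, and the pieces of the gluing theorem.
-/

namespace Pool.Agent.H.MP_1611f1_gt

open Topology Set Filter

/-- the same surface, where only the ends with the property `P` are considered -/
def Surf.sub {S : Type*} [TopologicalSpace S] {J : Type*} (E : Surf S J) (P : J → Prop) :
    Surf S {j // P j} where
  flat := E.flat
  collar j := E.collar j.1
  emb j := E.emb j.1
  disj _ _ _ _ h := Subtype.ext (E.disj _ _ _ _ h)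
  closed j := E.closed j.1

namespace G

/-- `M` is the mapping torus of the homeomorphism `phi` of the surface `S` (which is the identity
on the collars), with its toral ends. -/
structure MTorus {S : Type*} [TopologicalSpace S] {J : Type*} (E : Surf S J) (phi : S ≃ₜ S)
    {M : Type*} [TopologicalSpace M] (T : Ended M J) where
  p : S × ℝ → M
  p_loc : IsLocalHomeomorph p
  p_eq : ∀ x t x' t', p (x, t) = p (x', t') ↔ ∃ k : ℤ, t' = t + k ∧ x = (phi ^ k) x'
  p_surj : Function.Surjective p
  tor : ∀ (j : J) (θ : AddCircle (1 : ℝ)) (r : Ioo (1 : ℝ) 2) (t : ℝ),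
    T.tor j (θ, r, (t : AddCircle (1 : ℝ))) = p (E.collar j (θ, r), t)

/-- A piece: a surface `S` with ends `j ∈ J`, numbers `L j ≥ 0` (the number of handles at the end
`j`), coloured arc systems at the ends with `L j > 0` (see `Arcs`), whose strips do not meet the
collars of the ends with `L j = 0`, and `4 n` homeomorphisms which preserve alternately the arc
systems `a` and `b` and are the identity on all collars. The monodromy of the piece is `Φ.phi`,
the product of these homeomorphisms. -/
structure Piece (S : Type*) [TopologicalSpace S] (J K : Type*) where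
  E : Surf S J
  L : J → ℕ
  col : {j // 0 < L j} → K
  A : Arcs (E.sub fun j => 0 < L j) col (fun j => L j.1)
  free : ∀ j, L j = 0 → ∀ k z, A.a k (E.collar j z) = 0 ∧ A.b k (E.collar j z) = 0
  n : ℕ
  n_pos : 0 < n
  Φ : Factors A n
  fix : ∀ i j z, Φ.g i (E.collar j z) = E.collar j z ∧ Φ.h i (E.collar j z) = E.collar j z

end G

end Pool.Agent.H.MP_1611f1_gt
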