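import Pool.Agent.H.MP_1611f1_gt.G.GlA
import Pool.Agent.H.MP_1611f1_gt.G.MT
import Pool.Agent.H.MP_1611f1_gt.TypA

/-!
Non-vacuity: existence of the mapping tori with their toral ends.
-/

namespace Pool.Agent.H.MP_1611f1_gt.G

open Topology Set Filter

universe u

section

variable {S : Type*} [TopologicalSpace S] {J : Type*} (E : Surf S J) (phi : S ≃ₜ S)

/-- the relation of the mapping torus -/
def mtS : Setoid (S × ℝ) where
  r z z' := ∃ k : ℤ, z'.2 = z.2 + k ∧ z.1 = (phi ^ k) z'.1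
  iseqv := by
    refine ⟨fun z => ⟨0, by simp, by simp⟩, ?_, ?_⟩
    · rintro z z' ⟨k, h1, h2⟩
      refine ⟨-k, by rw [h1]; push_cast; ring, ?_⟩
      rw [h2, ← Homeomorph.mul_apply, ← zpow_add, neg_add_cancel, zpow_zero,
        Homeomorph.one_apply]
    · rintro z z' z'' ⟨k, h1, h2⟩ ⟨l, h3, h4⟩
      refine ⟨k + l, by rw [h3, h1]; push_cast; ring, ?_⟩
      rw [h2, h4, zpow_add, Homeomorph.mul_apply]

/-- the mapping torus -/
abbrev MT0 : Type _ := Quotient (mtS phi)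

/-- the projection -/
def mtp (z : S × ℝ) : MT0 phi := Quotient.mk (mtS phi) z

theorem mtp_eq (x : S) (t : ℝ) (x' : S) (t' : ℝ) : mtp phi (x, t) = mtp phi (x', t') ↔
    ∃ k : ℤ, t' = t + k ∧ x = (phi ^ k) x' := by
  show (Quotient.mk (mtS phi) (x, t) = Quotient.mk (mtS phi) (x', t')) ↔ _
  rw [Quotient.eq]
  exact Iff.rfl

theorem mtp_cont : Continuous (mtp phi) := continuous_quotient_mk'

theorem mtp_open : IsOpenMap (mtp phi) := by
  intro O hO
  show IsOpen (mtp phi ⁻¹' (mtp phi '' O))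
  have h : mtp phi ⁻¹' (mtp phi '' O) =
      ⋃ k : ℤ, (fun z : S × ℝ => ((phi ^ k) z.1, z.2 - k)) ⁻¹' O := by
    ext ⟨x, t⟩
    rw [mem_iUnion]
    constructor
    · rintro ⟨⟨x', t'⟩, hz, he⟩
      obtain ⟨k, h1, h2⟩ := (mtp_eq phi x' t' x t).1 he
      refine ⟨k, ?_⟩
      show ((phi ^ k) x, t - k) ∈ O
      rw [← h2, h1, add_sub_cancel_right]
      exact hz
    · rintro ⟨k, hk⟩
      exact ⟨_, hk, (mtp_eq phi _ _ x t).2 ⟨k, by ring, rfl⟩⟩
  rw [h]
  refine isOpen_iUnion fun k => hO.preimage ?_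
  exact ((phi ^ k).continuous.comp continuous_fst).prodMk (continuous_snd.sub continuous_const)

theorem mtp_surj : Function.Surjective (mtp phi) := Quotient.mk_surjective

theorem mtp_loc : IsLocalHomeomorph (mtp phi) := by
  refine GlA_loc (mtp_cont phi) (mtp_open phi) ?_
  rintro ⟨x, t⟩
  refine ⟨univ ×ˢ Ioo (t - 1 / 2) (t + 1 / 2), ?_, isOpen_univ.prod isOpen_Ioo, ?_⟩
  · exact (isOpen_univ.prod isOpen_Ioo).mem_nhds ⟨mem_univ _, by simp, by simp⟩
  · rintro ⟨x1, t1⟩ ⟨-, h1⟩ ⟨x2, t2⟩ ⟨-, h2⟩ h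
    obtain ⟨k, h3, h4⟩ := (mtp_eq phi x1 t1 x2 t2).1 h
    have hk : k = 0 := by
      have h5 : |(k : ℝ)| < 1 := by
        rw [abs_lt]
        constructor <;> linarith [h1.1, h1.2, h2.1, h2.2]
      have h6 : |k| < 1 := by exact_mod_cast h5
      exact Int.abs_lt_one_iff.1 h6
    subst hk
    rw [zpow_zero, Homeomorph.one_apply] at h4
    rw [Int.cast_zero, add_zero] at h3
    rw [h3, h4]

theorem mt_zpow (hphi : ∀ j z, phi (E.collar j z) = E.collar j z) (k : ℤ) (j : J)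
    (z : AddCircle (1 : ℝ) × Ioo (1 : ℝ) 2) : (phi ^ k) (E.collar j z) = E.collar j z := by
  have hinv : (phi⁻¹ : S ≃ₜ S) (E.collar j z) = E.collar j z := by
    have h : phi.symm (E.collar j z) = E.collar j z := by
      rw [Homeomorph.symm_apply_eq]
      exact (hphi j z).symm
    exact h
  induction k using Int.induction_on with
  | zero => simp
  | succ i ih =>
    rw [zpow_add_one, Homeomorph.mul_apply, hphi, ih]
  | pred i ih =>
    rw [zpow_sub_one, Homeomorph.mul_apply, hinv, ih]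

/-- the toral ends -/
noncomputable def mtT (j : J) (w : AddCircle (1 : ℝ) × Ioo (1 : ℝ) 2 × AddCircle (1 : ℝ)) :
    MT0 phi := mtp phi (E.collar j (w.1, w.2.1), lft w.2.2)

theorem mtT_coe (hphi : ∀ j z, phi (E.collar j z) = E.collar j z) (j : J)
    (θ : AddCircle (1 : ℝ)) (r : Ioo (1 : ℝ) 2) (t : ℝ) :
    mtT E phi j (θ, r, (t : AddCircle (1 : ℝ))) = mtp phi (E.collar j (θ, r), t) := by
  have h1 : ((t - lft (t : AddCircle (1 : ℝ)) : ℝ) : AddCircle (1 : ℝ)) = 0 := by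
    rw [AddCircle.coe_sub, coe_lft, sub_self]
  obtain ⟨k, hk⟩ := (AddCircle.coe_eq_zero_iff (1 : ℝ)).1 h1
  rw [zsmul_eq_mul, mul_one] at hk
  exact (mtp_eq phi _ _ _ _).2 ⟨k, by rw [hk]; ring, (mt_zpow E phi hphi k j _).symm⟩

theorem mtT_inj (hphi : ∀ j z, phi (E.collar j z) = E.collar j z) {i j : J}
    {w w' : AddCircle (1 : ℝ) × Ioo (1 : ℝ) 2 × AddCircle (1 : ℝ)}
    (h : mtT E phi i w = mtT E phi j w') : i = j ∧ w = w' := by
  obtain ⟨θ, r, s⟩ := w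
  obtain ⟨θ', r', s'⟩ := w'
  obtain ⟨k, h1, h2⟩ := (mtp_eq phi _ _ _ _).1 h
  rw [mt_zpow E phi hphi] at h2
  have hij : i = j := E.disj _ _ _ _ h2
  subst hij
  have h3 := (E.emb i).injective h2
  simp only [Prod.mk.injEq] at h3
  obtain ⟨rfl, rfl⟩ := h3
  refine ⟨rfl, ?_⟩
  have h4 : s' = s := by
    rw [← coe_lft s', ← coe_lft s]
    simp only at h1
    rw [h1, AddCircle.coe_add]
    have h5 : ((k : ℝ) : AddCircle (1 : ℝ)) = 0 :=
      (AddCircle.coe_eq_zero_iff (1 : ℝ)).2 ⟨k, by rw [zsmul_eq_mul, mul_one]⟩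
    rw [h5, add_zero]
  rw [h4]

theorem mtT_quot : IsOpenQuotientMap (fun w : AddCircle (1 : ℝ) × Ioo (1 : ℝ) 2 × ℝ =>
    ((w.1, w.2.1, (w.2.2 : AddCircle (1 : ℝ))) :
      AddCircle (1 : ℝ) × Ioo (1 : ℝ) 2 × AddCircle (1 : ℝ))) :=
  IsOpenQuotientMap.id.prodMap (IsOpenQuotientMap.id.prodMap
    (QuotientAddGroup.isOpenQuotientMap_mk (N := AddSubgroup.zmultiples (1 : ℝ))))

theorem mtT_emb (hphi : ∀ j z, phi (E.collar j z) = E.collar j z) (j : J) :
    IsOpenEmbedding (mtT E phi j) := by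
  have h0 : mtT E phi j ∘ (fun w : AddCircle (1 : ℝ) × Ioo (1 : ℝ) 2 × ℝ =>
      ((w.1, w.2.1, (w.2.2 : AddCircle (1 : ℝ))) :
        AddCircle (1 : ℝ) × Ioo (1 : ℝ) 2 × AddCircle (1 : ℝ))) =
      mtp phi ∘ (Prod.map (E.collar j) id) ∘
        (Homeomorph.prodAssoc (AddCircle (1 : ℝ)) (Ioo (1 : ℝ) 2) ℝ).symm := by
    funext w
    exact mtT_coe E phi hphi j w.1 w.2.1 w.2.2
  have hc : Continuous (mtT E phi j) := by
    rw [← mtT_quot.continuous_comp_iff, h0]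
    exact (mtp_cont phi).comp (((E.emb j).continuous.prodMap continuous_id).comp
      (Homeomorph.continuous _))
  have ho : IsOpenMap (mtT E phi j) := by
    rw [mtT_quot.isOpenMap_iff, h0]
    exact (mtp_open phi).comp (((E.emb j).isOpenMap.prodMap IsOpenMap.id).comp
      (Homeomorph.isOpenMap _))
  exact IsOpenEmbedding.of_continuous_injective_isOpenMap hc
    (fun w w' h => (mtT_inj E phi hphi h).2) ho

/-- the mapping torus with its ends -/
noncomputable def mtE (hphi : ∀ j z, phi (E.collar j z) = E.collar j z) : Ended (MT0 phi) J where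
  tor := mtT E phi
  emb := mtT_emb E phi hphi
  disj _ _ _ _ h := (mtT_inj E phi hphi h).1

/-- the mapping torus with its ends is a mapping torus -/
noncomputable def mtM (hphi : ∀ j z, phi (E.collar j z) = E.collar j z) :
    MTorus E phi (mtE E phi hphi) where
  p := mtp phi
  p_loc := mtp_loc phi
  p_eq := mtp_eq phi
  p_surj := mtp_surj phi
  tor := mtT_coe E phi hphi

theorem mt_t2 [T2Space S] : T2Space (MT0 phi) := by
  have hq : IsOpenQuotientMap (mtp phi) := ⟨mtp_surj phi, mtp_cont phi, mtp_open phi⟩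
  rw [t2Space_iff_of_isOpenQuotientMap hq, ← isOpen_compl_iff, isOpen_iff_mem_nhds]
  rintro ⟨⟨x, t⟩, ⟨x', t'⟩⟩ hxy
  let k : ℤ := round (t' - t)
  have hcl : IsClosed {z : (S × ℝ) × (S × ℝ) | z.2.2 = z.1.2 + k ∧ z.1.1 = (phi ^ k) z.2.1} := by
    refine (isClosed_eq ?_ ?_).inter (isClosed_eq ?_ ?_)
    · fun_prop
    · fun_prop
    · fun_prop
    · exact (phi ^ k).continuous.comp (continuous_fst.comp continuous_snd)
  have h1 : ∀ᶠ z : (S × ℝ) × (S × ℝ) in 𝓝 ((x, t), (x', t')),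
      ¬ (z.2.2 = z.1.2 + k ∧ z.1.1 = (phi ^ k) z.2.1) := by
    refine hcl.isOpen_compl.mem_nhds ?_
    rintro ⟨h2, h3⟩
    exact hxy ((mtp_eq phi _ _ _ _).2 ⟨k, h2, h3⟩)
  have hc : Continuous fun z : (S × ℝ) × (S × ℝ) => z.2.2 - z.1.2 := by fun_prop
  have h4 : ∀ᶠ z : (S × ℝ) × (S × ℝ) in 𝓝 ((x, t), (x', t')),
      |(z.2.2 - z.1.2) - (t' - t)| < 1 / 2 := by
    have h5 : Continuous fun z : (S × ℝ) × (S × ℝ) => |(z.2.2 - z.1.2) - (t' - t)| := by
      fun_prop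
    refine h5.continuousAt.eventually_lt_const ?_
    show |(t' - t) - (t' - t)| < 1 / 2
    rw [sub_self, abs_zero]
    norm_num
  filter_upwards [h1, h4] with z hz1 hz2 hz3
  obtain ⟨⟨y, s⟩, ⟨y', s'⟩⟩ := z
  obtain ⟨l, h5, h6⟩ := (mtp_eq phi y s y' s').1 hz3
  simp only at hz1 hz2
  have h7 : l = k := by
    have h8 := abs_sub_round (t' - t)
    have h9 : |((l : ℝ) - k)| < 1 := by
      have h10 : (l : ℝ) - k = ((s' - s) - (t' - t)) + ((t' - t) - (round (t' - t) : ℤ)) := by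
        rw [h5]
        ring
      rw [h10]
      exact (abs_add_le _ _).trans_lt (by linarith)
    have h11 : |l - k| < 1 := by exact_mod_cast h9
    have h12 := Int.abs_lt_one_iff.1 h11
    omega
  rw [h7] at h5 h6
  exact hz1 ⟨h5, h6⟩

theorem mt_closed (hphi : ∀ j z, phi (E.collar j z) = E.collar j z) (j : J) (ρ : ℝ)
    (hρ : ρ < 2) : IsClosed ((mtE E phi hphi).tor j '' {w | (w.2.1 : ℝ) ≤ ρ}) := by
  have hq : IsOpenQuotientMap (mtp phi) := ⟨mtp_surj phi, mtp_cont phi, mtp_open phi⟩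
  rw [← hq.isQuotientMap.isClosed_preimage]
  have h0 : mtp phi ⁻¹' ((mtE E phi hphi).tor j '' {w | (w.2.1 : ℝ) ≤ ρ}) =
      (E.collar j '' {z | (z.2 : ℝ) ≤ ρ}) ×ˢ univ := by
    ext ⟨x, t⟩
    constructor
    · rintro ⟨⟨θ, r, s⟩, hw, h⟩
      obtain ⟨k, h1, h2⟩ := (mtp_eq phi _ _ x t).1 h
      refine ⟨⟨(θ, r), hw, ?_⟩, mem_univ _⟩
      have h3 : (phi ^ k) (E.collar j (θ, r)) = (phi ^ k) x :=
        (mt_zpow E phi hphi k j _).trans h2
      exact (phi ^ k).injective h3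
    · rintro ⟨⟨⟨θ, r⟩, hw, rfl⟩, -⟩
      exact ⟨(θ, r, (t : AddCircle (1 : ℝ))), hw, mtT_coe E phi hphi j θ r t⟩
  rw [h0]
  exact (E.closed j ρ hρ).prod isClosed_univ

end

/-- **Existence of the mapping tori.** -/
theorem exists_mtorus {S : Type u} [TopologicalSpace S] [T2Space S] {J : Type*} (E : Surf S J)
    (phi : S ≃ₜ S) (hphi : ∀ j z, phi (E.collar j z) = E.collar j z) :
    ∃ (M : Type u) (_ : TopologicalSpace M) (_ : T2Space M) (T : Ended M J),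
      Nonempty (MTorus E phi T) ∧
      ∀ j (ρ : ℝ), ρ < 2 → IsClosed (T.tor j '' {w | (w.2.1 : ℝ) ≤ ρ}) :=
  ⟨MT0 phi, inferInstance, mt_t2 phi, mtE E phi hphi, ⟨mtM E phi hphi⟩, mt_closed E phi hphi⟩

end Pool.Agent.H.MP_1611f1_gt.G
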