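import Pool.Agent.H.MP_1611f1_gt.G.ExC
import Pool.Agent.H.MP_1611f1_gt.G.ExD

/-!
Non-vacuity: the mapping tori and the glued and filled manifolds of the gluing theorem exist and
are Hausdorff.
-/

namespace Pool.Agent.H.MP_1611f1_gt.G

open Topology Set Filter

universe u1 u2 u3

/-- **Existence of the glued manifold**, as a Hausdorff space. -/
theorem exists_union_t2 {V : Type u1} {M : V → Type u2} [∀ v, TopologicalSpace (M v)]
    {J : V → Type u3} [∀ v, T2Space (M v)] [∀ v, Finite (J v)] (T : ∀ v, Ended (M v) (J v))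
    (G : Pattern (Σ v, J v))
    (hcl : ∀ v j (ρ : ℝ), ρ < 2 → IsClosed ((T v).tor j '' {w | (w.2.1 : ℝ) ≤ ρ})) :
    ∃ (Y : Type (max u1 u2 u3)) (_ : TopologicalSpace Y) (_ : T2Space Y),
      Nonempty (Union T G Y) := by
  obtain ⟨Y, hY, ⟨U⟩⟩ := exists_union T G
  exact ⟨Y, hY, U.t2 hcl, ⟨U⟩⟩

/-- In particular the mapping tori of homeomorphisms `phi v` of Hausdorff surfaces, which are the
identity on the collars, can be glued and filled along their toral ends by every pattern. -/
theorem exists_graph {V : Type u1} {S : V → Type u2} [∀ v, TopologicalSpace (S v)]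
    [∀ v, T2Space (S v)] {J : V → Type u3} [∀ v, Finite (J v)] (E : ∀ v, Surf (S v) (J v))
    (phi : ∀ v, S v ≃ₜ S v) (hphi : ∀ v j z, phi v ((E v).collar j z) = (E v).collar j z)
    (G : Pattern (Σ v, J v)) :
    ∃ (M : V → Type u2) (_ : ∀ v, TopologicalSpace (M v)) (T : ∀ v, Ended (M v) (J v))
      (Y : Type (max u1 u2 u3)) (_ : TopologicalSpace Y) (_ : T2Space Y),
      (∀ v, Nonempty (MTorus (E v) (phi v) (T v))) ∧ Nonempty (Union T G Y) := by
  choose M hM hM2 T hT hcl using fun v => exists_mtorus (E v) (phi v) (hphi v)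
  obtain ⟨Y, hY, hY2, hU⟩ := exists_union_t2 T G hcl
  exact ⟨M, hM, T, Y, hY, hY2, hT, hU⟩

end Pool.Agent.H.MP_1611f1_gt.G
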