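import Pool.Agent.H.MP_1611f1_gt.G.BChD
import Pool.Agent.H.MP_1611f1_gt.SlD
import Pool.Agent.H.MP_1611f1_gt.ColE

/-!
Mapping tori: compatibility of the charts.
-/

namespace Pool.Agent.H.MP_1611f1_gt.G.B

open Topology Set Filter

variable {S : Type*} [TopologicalSpace S] {J K : Type*} {E : Surf S J} {col : J → K} {L : J → ℕ}
  {phi : S ≃ₜ S} {Y : Type*} [TopologicalSpace Y]
  (Fl : MTB E phi Y) {n : ℕ} (A : Arcs E col L) {σ : K → ℝ}
  (H : ∀ k, Hol (σ k)) (C : Chain A n phi)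

include C in
/-- powers of the monodromy fix the collars -/
theorem CmpA_phi_col (k : ℤ) (j : J) (z) : (phi ^ k) (E.collar j z) = E.collar j z := by
  have h1 : C.ψ (0 + 4 * n * k) (E.collar j z) = (C.ψ 0 * phi ^ k) (E.collar j z) := by
    rw [C.per_k]
  rw [C.col] at h1
  apply (C.ψ 0).injective
  rw [C.col]
  exact h1.symm

/-- a chart of type I, pulled back to a point over the outer part -/
theorem typeI_outer [Finite J] [Finite K] (hn : 0 < n) {c : OpenPartialHomeomorph Y ((ℝ × ℝ) × ℝ)}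
    (hc : IsI Fl A H C c) {x : S} {t : ℝ} (hy : PP Fl n (x, t) ∈ c.source) :
    x ∈ Out E ∧ ∃ (i : ℤ) (a b : Option (Bool × K)), Adm i a b ∧ x ∈ DD A C i a b ∧
      t ∈ Ioo ((i : ℝ) - 1) (i + 1) ∧
      OrdEq (x, t) (fun z => (c (PP Fl n z)).2) (fun z => Fs A H C i a b z.1 z.2) := by
  obtain ⟨i, a, b, ξ, hA, hsrc, hval⟩ := hc
  rw [hsrc] at hy
  obtain ⟨⟨x₁, t₁⟩, ⟨⟨⟨hx1, hx2⟩, hx3⟩, ht1⟩, he⟩ := hy
  obtain ⟨k, hk1, hk2⟩ := (PP_eq Fl hn x₁ t₁ x t).1 he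
  have hcast : ((i + 4 * n * k : ℤ) : ℝ) = (i : ℝ) + 4 * n * k := by push_cast; ring
  refine ⟨?_, i + 4 * n * k, a, b, hA.shift k, ?_, ?_, ?_⟩
  · intro j w hw
    refine hx2 j w ?_
    rw [hk2, hw, CmpA_phi_col A C]
  · rw [DD_shift, ← hk2]
    exact hx3
  · rw [hcast, hk1]
    obtain ⟨h1, h2⟩ := ht1
    constructor
    · linarith
    · linarith
  · have hcont : Continuous fun z : S × ℝ => ((phi ^ k) z.1, z.2 - 4 * n * k) :=
      ((phi ^ k).continuous.comp continuous_fst).prodMk (continuous_snd.sub continuous_const)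
    have hWo : IsOpen ((ξ.source ∩ Out E ∩ DD A C i a b) ×ˢ Ioo ((i : ℝ) - 1) (i + 1)) :=
      ((ξ.open_source.inter Out_open).inter (DD_open A C i a b)).prod isOpen_Ioo
    have hmem : ∀ᶠ z : S × ℝ in 𝓝 (x, t), ((phi ^ k) z.1, z.2 - 4 * n * k) ∈
        (ξ.source ∩ Out E ∩ DD A C i a b) ×ˢ Ioo ((i : ℝ) - 1) (i + 1) := by
      refine hcont.continuousAt.eventually_mem (hWo.mem_nhds ?_)
      have ht : t - 4 * n * k = t₁ := by rw [hk1]; ring
      show ((phi ^ k) x, t - 4 * n * k) ∈ _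
      rw [← hk2, ht]
      exact ⟨⟨⟨hx1, hx2⟩, hx3⟩, ht1⟩
    refine OrdEq.of_comp (fun s => s + 4 * n * k) (fun u v huv => by simpa using huv)
      (hmem.mono fun z hz => ?_)
    have hPP : PP Fl n z = PP Fl n ((phi ^ k) z.1, z.2 - 4 * n * k) := by
      refine ((PP_eq Fl hn ((phi ^ k) z.1) (z.2 - 4 * n * k) z.1 z.2).2 ⟨k, by ring, rfl⟩).symm
    have h1 := hval _ hz
    have h2 := Fs_shift A H C i k a b z.1 (z.2 - 4 * n * k)
    rw [sub_add_cancel] at h2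
    show Fs A H C (i + 4 * n * k) a b z.1 z.2 = (c (PP Fl n z)).2 + 4 * n * k
    rw [hPP, h1, h2]

/-- compatibility of two charts of type I -/
theorem compat_outer [Finite J] [Finite K] (hn : 0 < n) {c c' : OpenPartialHomeomorph Y ((ℝ × ℝ) × ℝ)}
    (hc : IsI Fl A H C c) (hc' : IsI Fl A H C c') {x : S} {t : ℝ}
    (hy : PP Fl n (x, t) ∈ c.source) (hy' : PP Fl n (x, t) ∈ c'.source) :
    OrdEq (PP Fl n (x, t)) (fun z => (c z).2) (fun z => (c' z).2) := by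
  obtain ⟨-, i, a, b, hA, hx, ht, h1⟩ := typeI_outer Fl A H C hn hc hy
  obtain ⟨-, i', a', b', hA', hx', ht', h2⟩ := typeI_outer Fl A H C hn hc' hy'
  exact OrdEq.of_openMap (PP_open Fl hn)
    ((h1.trans (Fs_equiv A H C hA hA' hx hx' ht ht')).trans h2.symm)

/-- gluing two increasing functions at a common value -/
theorem CmpB_glue {Ga Gb : ℝ → ℝ} (ha : StrictMono Ga) (hb : StrictMono Gb) {m : ℝ}
    (h : Ga m = Gb m) : StrictMono fun v => if v ≤ m then Ga v else Gb v := by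
  intro v w hvw
  by_cases hv : v ≤ m
  · by_cases hw : w ≤ m
    · simp only [if_pos hv, if_pos hw]
      exact ha hvw
    · simp only [if_pos hv, if_neg hw]
      calc Ga v ≤ Ga m := ha.monotone hv
        _ = Gb m := h
        _ < Gb w := hb (not_le.mp hw)
  · have hw : ¬ w ≤ m := fun hw => hv (hvw.le.trans hw)
    simp only [if_neg hv, if_neg hw]
    exact hb hvw

/-- charts of type I over the collars -/
theorem collar_I [Finite J] [Finite K] (hn : 0 < n) (hL : ∀ j, 0 < L j) {c : OpenPartialHomeomorph Y ((ℝ × ℝ) × ℝ)}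
    (hc : IsI Fl A H C c) (j : J) {z : ℝ × Ioo (1 : ℝ) 2 × ℝ}
    (hy : QQ Fl L n j z ∈ c.source) :
    OrdEq z (fun z => (c (QQ Fl L n j z)).2) (fun z => MR (H (col j)) z.1 z.2.1 z.2.2) := by
  obtain ⟨y, r, t⟩ := z
  -- the map to `S × ℝ`
  let K : ℝ × Ioo (1 : ℝ) 2 × ℝ → S × ℝ := fun z =>
    (E.collar j (((z.1 / (4 * L j) : ℝ) : AddCircle (1 : ℝ)), z.2.1), z.2.2)
  have hK : Continuous K := by
    refine Continuous.prodMk ((E.emb j).continuous.comp (Continuous.prodMk ?_ ?_)) ?_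
    · exact (AddCircle.continuous_mk' (1 : ℝ)).comp (by fun_prop)
    · fun_prop
    · fun_prop
  obtain ⟨hOut, i, a, b, hadm, hDD, ht, hord⟩ := typeI_outer Fl A H C hn hc hy
  have h1 : OrdEq (y, r, t) (fun z => (c (QQ Fl L n j z)).2)
      (fun z => Fs A H C i a b (K z).1 (K z).2) :=
    OrdEq.comp_cont (R := K) (z₀ := (y, r, t)) hK.continuousAt hord
  refine h1.trans ?_
  have hr : (5 : ℝ) / 3 < r := hOut j _ rfl
  have hr' : ∀ᶠ z : ℝ × Ioo (1 : ℝ) 2 × ℝ in 𝓝 (y, r, t), (5 : ℝ) / 3 < z.2.1 := by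
    have h2 : Continuous fun z : ℝ × Ioo (1 : ℝ) 2 × ℝ => (z.2.1 : ℝ) := by fun_prop
    exact h2.continuousAt.eventually_const_lt hr
  have hca : E.collar j (((y / (4 * L j) : ℝ) : AddCircle (1 : ℝ)), r) ∈ VV A a := by
    have := hDD.1
    rwa [C.col] at this
  have hcb : E.collar j (((y / (4 * L j) : ℝ) : AddCircle (1 : ℝ)), r) ∈ VV A b := by
    have := hDD.2
    rwa [C.col] at this
  obtain ⟨Ga, hGa, hGa'⟩ := MM_rel A H j (hL j) a y r hca
  obtain ⟨Gb, hGb, hGb'⟩ := MM_rel A H j (hL j) b y r hcb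
  have hproj : Tendsto (fun z : ℝ × Ioo (1 : ℝ) 2 × ℝ => (z.1, z.2.1)) (𝓝 (y, r, t))
      (𝓝 (y, r)) := by
    have h2 : Continuous fun z : ℝ × Ioo (1 : ℝ) 2 × ℝ => (z.1, z.2.1) := by fun_prop
    exact h2.continuousAt (x := (y, r, t))
  have hGa2 : ∀ᶠ z : ℝ × Ioo (1 : ℝ) 2 × ℝ in 𝓝 (y, r, t), ∀ t, MM (H (col j)) z.1 t =
        Ga (Fa A H a (E.collar j (((z.1 / (4 * L j) : ℝ) : AddCircle (1 : ℝ)), z.2.1)) t) :=
    hproj.eventually hGa'
  have hGb2 : ∀ᶠ z : ℝ × Ioo (1 : ℝ) 2 × ℝ in 𝓝 (y, r, t), ∀ t, MM (H (col j)) z.1 t =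
        Gb (Fa A H b (E.collar j (((z.1 / (4 * L j) : ℝ) : AddCircle (1 : ℝ)), z.2.1)) t) :=
    hproj.eventually hGb'
  have hsnd : Continuous fun z : ℝ × Ioo (1 : ℝ) 2 × ℝ => z.2.2 := by fun_prop
  -- the two values of `Fs`
  have hFl : ∀ z : ℝ × Ioo (1 : ℝ) 2 × ℝ, z.2.2 ≤ i → Fs A H C i a b (K z).1 (K z).2 =
      Fa A H a (E.collar j (((z.1 / (4 * L j) : ℝ) : AddCircle (1 : ℝ)), z.2.1)) z.2.2 := by
    intro z hz
    have : Fs A H C i a b (K z).1 (K z).2 = Fa A H a (C.ψ (i - 1) (K z).1) z.2.2 := if_pos hz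
    rw [this, C.col]
  have hFg : ∀ z : ℝ × Ioo (1 : ℝ) 2 × ℝ, ¬ z.2.2 ≤ i → Fs A H C i a b (K z).1 (K z).2 =
      Fa A H b (E.collar j (((z.1 / (4 * L j) : ℝ) : AddCircle (1 : ℝ)), z.2.1)) z.2.2 := by
    intro z hz
    have : Fs A H C i a b (K z).1 (K z).2 = Fa A H b (C.ψ i (K z).1) z.2.2 := if_neg hz
    rw [this, C.col]
  rcases lt_trichotomy t i with hti | hti | hti
  · apply OrdEq.of_comp Ga hGa
    filter_upwards [hr', hGa2, hsnd.continuousAt.eventually_lt_const (u := (i : ℝ)) hti]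
      with z hz1 hz2 hz3
    rw [MR_outer (H (col j)) _ _ hz1.le, hz2, hFl z hz3.le]
  · rcases hadm with ⟨ha, hb⟩ | ⟨e, he, rfl, rfl⟩
    · have hab : Ga i = Gb i := by
        have h3 := hGa2.self_of_nhds i
        have h4 := hGb2.self_of_nhds i
        rw [Fa_fix A H ha] at h3
        rw [Fa_fix A H hb] at h4
        exact h3.symm.trans h4
      apply OrdEq.of_comp _ (CmpB_glue hGa hGb hab)
      filter_upwards [hr', hGa2, hGb2] with z hz1 hz2 hz3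
      rw [MR_outer (H (col j)) _ _ hz1.le]
      by_cases hz : z.2.2 ≤ i
      · rw [hFl z hz]
        have h5 : Fa A H a (E.collar j (((z.1 / (4 * L j) : ℝ) : AddCircle (1 : ℝ)), z.2.1))
            z.2.2 ≤ i := by
          have h6 := (Fa_mono A H a (E.collar j (((z.1 / (4 * L j) : ℝ) : AddCircle (1 : ℝ)),
            z.2.1))).monotone hz
          rwa [Fa_fix A H ha] at h6
        simp only [if_pos h5]
        exact hz2 _
      · rw [hFg z hz]
        have h5 : ¬ Fa A H b (E.collar j (((z.1 / (4 * L j) : ℝ) : AddCircle (1 : ℝ)), z.2.1))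
            z.2.2 ≤ i := by
          have h6 := (Fa_mono A H b (E.collar j (((z.1 / (4 * L j) : ℝ) : AddCircle (1 : ℝ)),
            z.2.1))) (not_le.mp hz)
          rw [Fa_fix A H hb] at h6
          exact not_le.mpr h6
        simp only [if_neg h5]
        exact hz3 _
    · apply OrdEq.of_comp Ga hGa
      filter_upwards [hr', hGa2] with z hz1 hz2
      rw [MR_outer (H (col j)) _ _ hz1.le, hz2]
      by_cases hz : z.2.2 ≤ i
      · rw [hFl z hz]
      · rw [hFg z hz]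
  · apply OrdEq.of_comp Gb hGb
    filter_upwards [hr', hGb2, hsnd.continuousAt.eventually_const_lt (u := (i : ℝ)) hti]
      with z hz1 hz2 hz3
    rw [MR_outer (H (col j)) _ _ hz1.le, hz2, hFg z (not_le.mpr hz3)]

/-- charts of type II over the collars -/
theorem collar_II (hn : 0 < n) (hL : ∀ j, 0 < L j)
    (hcol : ∀ j z, phi (E.collar j z) = E.collar j z)
    {c : OpenPartialHomeomorph Y ((ℝ × ℝ) × ℝ)}
    (hc : IsII (L := L) (n := n) (col := col) Fl H c) (j : J) {z : ℝ × Ioo (1 : ℝ) 2 × ℝ}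
    (hy : QQ Fl L n j z ∈ c.source) :
    OrdEq z (fun z => (c (QQ Fl L n j z)).2) (fun z => MR (H (col j)) z.1 z.2.1 z.2.2) := by
  obtain ⟨j', y₀, t₀, hs, hv⟩ := hc
  rw [hs] at hy
  obtain ⟨z', hz', heq⟩ := hy
  obtain ⟨hj, hr, k, m, h1, h2⟩ := QQ_eq Fl hn hcol j j' (hL j) z z' heq.symm
  subst hj
  set S : ℝ × Ioo (1 : ℝ) 2 × ℝ → ℝ × Ioo (1 : ℝ) 2 × ℝ :=
    fun w => (w.1 + 4 * L j * m, w.2.1, w.2.2 + 4 * n * k) with hS
  have hScont : Continuous S := by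
    rw [hS]
    fun_prop
  have hSz : S z = z' := by
    rw [hS]
    ext
    · exact h1.symm
    · exact congrArg Subtype.val hr
    · exact h2.symm
  have hopen : IsOpen (Ioo y₀ (y₀ + 1) ×ˢ ((univ : Set (Ioo (1 : ℝ) 2)) ×ˢ Ioo t₀ (t₀ + 1))) :=
    isOpen_Ioo.prod (isOpen_univ.prod isOpen_Ioo)
  have hev : ∀ᶠ w in 𝓝 z,
      S w ∈ Ioo y₀ (y₀ + 1) ×ˢ ((univ : Set (Ioo (1 : ℝ) 2)) ×ˢ Ioo t₀ (t₀ + 1)) := by
    apply hScont.continuousAt.eventually
    rw [hSz]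
    exact hopen.mem_nhds hz'
  refine OrdEq.of_comp (fun v => v + (4 * σ (col j) * (L j * m) - 4 * (n * k))) ?_ ?_
  · intro a b hab
    show a + _ < b + _
    linarith
  · filter_upwards [hev] with w hw
    have e1 : QQ Fl L n j (S w) = QQ Fl L n j w :=
      QQ_per Fl hn hcol j (hL j) w.1 w.2.1 w.2.2 k m
    have e2 := hv (S w) hw
    rw [e1] at e2
    have e3 : MR (H (col j)) (S w).1 (S w).2.1 (S w).2.2 =
        MR (H (col j)) w.1 w.2.1 w.2.2 - 4 * σ (col j) * (L j * m) + 4 * (n * k) := by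
      show MR (H (col j)) (w.1 + 4 * L j * m) w.2.1 (w.2.2 + 4 * n * k) = _
      have c1 : w.1 + 4 * (L j : ℝ) * m = w.1 + 4 * (((L j : ℤ) * m : ℤ) : ℝ) := by
        push_cast
        ring
      have c2 : w.2.2 + 4 * (n : ℝ) * k = w.2.2 + 4 * (((n : ℤ) * k : ℤ) : ℝ) := by
        push_cast
        ring
      rw [c1, c2, MR_y, MR_t]
      push_cast
      ring
    show MR (H (col j)) w.1 w.2.1 w.2.2 =
      (c (QQ Fl L n j w)).2 + (4 * σ (col j) * (L j * m) - 4 * (n * k))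
    rw [e2, e3]
    ring

/-- all charts -/
def AllCharts : Set (OpenPartialHomeomorph Y ((ℝ × ℝ) × ℝ)) :=
  {c | IsI Fl A H C c ∨ IsII (L := L) (n := n) (col := col) Fl H c}

include C in
theorem CmpF_phi_col (j : J) (z : AddCircle (1 : ℝ) × Ioo (1 : ℝ) 2) :
    phi (E.collar j z) = E.collar j z := by
  have h1 := C.per 0
  have h2 : (C.ψ (0 + 4 * n)) (E.collar j z) = (C.ψ 0 * phi) (E.collar j z) := by rw [h1]
  rw [C.col] at h2
  have h3 : (C.ψ 0 * phi) (E.collar j z) = C.ψ 0 (phi (E.collar j z)) := rfl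
  rw [h3] at h2
  have h4 : C.ψ 0 (E.collar j z) = C.ψ 0 (phi (E.collar j z)) := by rw [C.col]; exact h2
  exact ((C.ψ 0).injective h4).symm

theorem CmpF_QQ (hn : 0 < n) (hL : ∀ j, 0 < L j) (j : J) (z : ℝ × Ioo (1 : ℝ) 2 × ℝ) :
    ∃ c ∈ AllCharts Fl A H C, QQ Fl L n j z ∈ c.source := by
  obtain ⟨c, h1, h2, -⟩ := exII Fl H hn hL (fun j z => CmpF_phi_col A C j z) j
    (z.1 - 1 / 2) (z.2.2 - 1 / 2)
  refine ⟨c, Or.inr h1, ?_⟩
  rw [h2]
  refine ⟨z, ⟨⟨by linarith, by linarith⟩, mem_univ _, ⟨by linarith, by linarith⟩⟩, rfl⟩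

theorem CmpF_PP [Finite J] [Finite K] (hn : 0 < n) (hL : ∀ j, 0 < L j) (x : S) (t : ℝ) :
    ∃ c ∈ AllCharts Fl A H C, PP Fl n (x, t) ∈ c.source := by
  by_cases hx : x ∈ Out E
  · obtain ⟨ξ, hξ⟩ := E.flat x
    obtain ⟨a, b, hab, hD⟩ := DD_cover A C ⌊t⌋ x
    obtain ⟨c, h1, h2, -⟩ := exI Fl A H C hn ⌊t⌋ a b hab ξ
    refine ⟨c, Or.inl h1, ?_⟩
    rw [h2]
    have h3 := Int.floor_le t
    have h4 := Int.lt_floor_add_one t
    exact ⟨(x, t), ⟨⟨⟨hξ, hx⟩, hD⟩, ⟨by linarith, by linarith⟩⟩, rfl⟩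
  · have hx' : ∃ j w, x = E.collar j w := by
      by_contra hcon
      push Not at hcon
      exact hx fun j w hw => absurd hw (hcon j w)
    obtain ⟨j, w, rfl⟩ := hx'
    obtain ⟨y, hy, -⟩ := exists_QQ Fl (L := L) (n := n) j (hL j) w t
    rw [hy]
    exact CmpF_QQ Fl A H C hn hL j _

theorem charts_cover [Finite J] [Finite K] (hn : 0 < n) (hL : ∀ j, 0 < L j) (y : Y) :
    ∃ c ∈ AllCharts Fl A H C, y ∈ c.source := by
  obtain ⟨⟨x, t⟩, rfl⟩ := Fl.p_surj y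
  have hn' : (4 * (n : ℝ)) ≠ 0 := by
    have : (n : ℝ) ≠ 0 := by exact_mod_cast hn.ne'
    positivity
  have h1 : Fl.p (x, t) = PP Fl n (x, 4 * n * t) := by
    rw [PP]
    congr 2
    field_simp
  rw [h1]
  exact CmpF_PP Fl A H C hn hL x _

theorem dichotomy (hn : 0 < n) (hL : ∀ j, 0 < L j) (y : Y) :
    (∃ (x : S) (t : ℝ), y = PP Fl n (x, t) ∧ ∀ j w, x ≠ E.collar j w) ∨
      ∃ (j : J) (z : ℝ × Ioo (1 : ℝ) 2 × ℝ), y = QQ Fl L n j z := by
  obtain ⟨⟨x, t⟩, rfl⟩ := Fl.p_surj y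
  have hn' : (4 * (n : ℝ)) ≠ 0 := by
    have : (n : ℝ) ≠ 0 := by exact_mod_cast hn.ne'
    positivity
  have h1 : Fl.p (x, t) = PP Fl n (x, 4 * n * t) := by
    rw [PP]
    congr 2
    field_simp
  by_cases hx : ∃ j w, x = E.collar j w
  · obtain ⟨j, w, rfl⟩ := hx
    obtain ⟨v, hv, -⟩ := exists_QQ Fl (L := L) (n := n) j (hL j) w (4 * n * t)
    exact Or.inr ⟨j, _, h1.trans hv⟩
  · push Not at hx
    exact Or.inl ⟨x, _, h1, hx⟩

theorem CmpH_srcII {c : OpenPartialHomeomorph Y ((ℝ × ℝ) × ℝ)}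
    (hc : IsII (L := L) (n := n) (col := col) Fl H c) {y : Y}
    (hy : y ∈ c.source) : ∃ j w t, y = PP Fl n (E.collar j w, t) := by
  obtain ⟨j, y₀, t₀, hs, -⟩ := hc
  rw [hs] at hy
  obtain ⟨z, -, hz⟩ := hy
  exact ⟨j, _, z.2.2, hz.symm⟩

include C in
/-- over the points outside the collars there are only charts of type I -/
theorem CmpH_onlyI (hn : 0 < n) {c : OpenPartialHomeomorph Y ((ℝ × ℝ) × ℝ)}
    (hc : c ∈ AllCharts Fl A H C) {x : S} {t : ℝ} (hx : ∀ j w, x ≠ E.collar j w)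
    (hy : PP Fl n (x, t) ∈ c.source) : IsI Fl A H C c := by
  rcases hc with hc | hc
  · exact hc
  · obtain ⟨j, w, t', h⟩ := CmpH_srcII Fl H hc hy
    obtain ⟨k, -, hk⟩ := (PP_eq Fl hn _ _ _ _).1 h
    rw [C.phi_zpow_col] at hk
    exact absurd hk (hx _ _)

/-- all charts over the collars -/
theorem collar_all [Finite J] [Finite K] (hn : 0 < n) (hL : ∀ j, 0 < L j)
    {c : OpenPartialHomeomorph Y ((ℝ × ℝ) × ℝ)} (hc : c ∈ AllCharts Fl A H C) (j : J)
    {z : ℝ × Ioo (1 : ℝ) 2 × ℝ} (hy : QQ Fl L n j z ∈ c.source) :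
    OrdEq z (fun z => (c (QQ Fl L n j z)).2) (fun z => MR (H (col j)) z.1 z.2.1 z.2.2) := by
  rcases hc with hc | hc
  · exact collar_I Fl A H C hn hL hc j hy
  · exact collar_II Fl H hn hL C.phi_col hc j hy

theorem charts_compat [Finite J] [Finite K] (hn : 0 < n) (hL : ∀ j, 0 < L j) (c)
    (hc : c ∈ AllCharts Fl A H C) (c') (hc' : c' ∈ AllCharts Fl A H C) (y : Y)
    (hy : y ∈ c.source) (hy' : y ∈ c'.source) :
    OrdEq y (fun z => (c z).2) (fun z => (c' z).2) := by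
  rcases dichotomy Fl hn hL y with ⟨x, t, rfl, hx⟩ | ⟨j, z, rfl⟩
  · exact compat_outer Fl A H C hn (CmpH_onlyI Fl A H C hn hc hx hy)
      (CmpH_onlyI Fl A H C hn hc' hx hy') hy hy'
  · exact OrdEq.of_openMap (QQ_open Fl hn j (hL j))
      ((collar_all Fl A H C hn hL hc j hy).trans (collar_all Fl A H C hn hL hc' j hy').symm)

/-- the foliation -/
theorem exists_foliation [Finite J] [Finite K] (hn : 0 < n) (hL : ∀ j, 0 < L j) :
    ∃ F : Foliation Y, F.charts = AllCharts Fl A H C :=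
  ⟨{ charts := AllCharts Fl A H C
     cover := charts_cover Fl A H C hn hL
     compat := fun c hc c' hc' y hy hy' =>
      charts_compat Fl A H C hn hL c hc c' hc' y hy hy' }, rfl⟩

end Pool.Agent.H.MP_1611f1_gt.G.B
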