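import Pool.Agent.H.MP_1611f1_gt.G.BCmp
import Pool.Agent.H.MP_1611f1_gt.TauA
import Pool.Agent.H.MP_1611f1_gt.TauC

/-!
Mapping tori: leaf paths and tautness.
-/

namespace Pool.Agent.H.MP_1611f1_gt.G.B

open Topology Set Filter

variable {S : Type*} [TopologicalSpace S] {J K : Type*} {E : Surf S J} {col : J → K} {L : J → ℕ}
  {phi : S ≃ₜ S} {Y : Type*} [TopologicalSpace Y]
  (Fl : MTB E phi Y) {n : ℕ} (A : Arcs E col L) {σ : K → ℝ}
  (H : ∀ k, Hol (σ k)) (C : Chain A n phi) (F : Foliation Y)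

/-- horizontal leaf paths -/
theorem leaf_horizontal [Finite J] [Finite K] (hn : 0 < n) (hF : F.charts = AllCharts Fl A H C) (i : ℤ)
    {t : ℝ} (ht : t ∈ Ico (i : ℝ) (i + 1)) (γ : unitInterval → S) (hγ : Continuous γ)
    (hγ' : ∀ s, γ s ∈ Out E ∧ C.ψ i (γ s) ∈ VV A none) :
    F.SameLeaf (PP Fl n (γ 0, t)) (PP Fl n (γ 1, t)) := by
  refine F.sameLeaf_of (fun s => PP Fl n (γ s, t))
    ((PP_cont Fl hn).comp (hγ.prodMk continuous_const)) fun s => ?_
  obtain ⟨hout, hV⟩ := hγ' s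
  obtain ⟨a, ha, hD⟩ := DD_cover_none A C i (γ s) hV
  have hadm : Adm i a none := Or.inl ⟨ha, trivial⟩
  obtain ⟨ξ, hξ⟩ := E.flat (γ s)
  obtain ⟨c, hc, hsrc, hval⟩ := exI Fl A H C hn i a none hadm ξ
  have htI : t ∈ Ioo ((i : ℝ) - 1) (i + 1) := ⟨by linarith [ht.1], ht.2⟩
  have hU : IsOpen (ξ.source ∩ Out E ∩ DD A C i a none) :=
    (ξ.open_source.inter Out_open).inter (DD_open A C i a none)
  have hmem : γ s ∈ ξ.source ∩ Out E ∩ DD A C i a none := ⟨⟨hξ, hout⟩, hD⟩
  have hev : ∀ᶠ s' in 𝓝 s, γ s' ∈ ξ.source ∩ Out E ∩ DD A C i a none :=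
    hγ.continuousAt (hU.mem_nhds hmem)
  have key : ∀ x ∈ ξ.source ∩ Out E ∩ DD A C i a none, (c (PP Fl n (x, t))).2 = t := by
    intro x hx
    rw [hval (x, t) ⟨hx, htI⟩]
    exact Fs_ge A H C hadm hx.2 ht.1
  refine ⟨c, ?_, ?_, ?_⟩
  · rw [hF]
    exact Or.inl hc
  · rw [hsrc]
    exact ⟨(γ s, t), ⟨hmem, htI⟩, rfl⟩
  · filter_upwards [hev] with s' hs'
    exact (key _ hs').trans (key _ hmem).symm

theorem LfE_excl {i : ℤ} {e : Bool × K} (h : ina i e) (h' : act i e) : False := by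
  rcases h with ⟨h1, h2⟩ | ⟨h1, h2⟩ <;> rcases h' with ⟨h3, h4⟩ | ⟨h3, h4⟩
  · rw [h2] at h4
    exact absurd h4 (by simp)
  · exact (Int.not_even_iff_odd.2 h3) h1
  · exact (Int.not_even_iff_odd.2 h1) h3
  · rw [h2] at h4
    exact absurd h4 (by simp)

theorem LfE_next {i : ℤ} {e : Bool × K} (h : ina i e) : act (i + 1) e := by
  rcases h with ⟨h1, h2⟩ | ⟨h1, h2⟩
  · exact Or.inr ⟨h1.add_one, h2⟩
  · exact Or.inl ⟨h1.add_one, h2⟩

theorem LfE_prev {i : ℤ} {e : Bool × K} (h : act i e) : ina (i - 1) e := by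
  rcases h with ⟨h1, h2⟩ | ⟨h1, h2⟩
  · exact Or.inr ⟨h1.sub_odd odd_one, h2⟩
  · exact Or.inl ⟨h1.sub_odd odd_one, h2⟩

theorem LfE_two {i : ℤ} {e : Bool × K} (h : ina i e) : ina (i + 2) e := by
  rcases h with ⟨h1, h2⟩ | ⟨h1, h2⟩
  · exact Or.inl ⟨h1.add even_two, h2⟩
  · exact Or.inr ⟨h1.add_even even_two, h2⟩

/-- the levels of the blending -/
theorem LfE_solve (B : ℝ ≃o ℝ) {X : Type*} [TopologicalSpace X] {k : X → ℝ}
    (hk : Continuous k) (c : ℝ) :
    ∃ τ : X → ℝ, Continuous τ ∧ ∀ x, Fe B (k x) (τ x) = c := by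
  have hsurj : ∀ u, ∃ t, Fe B u t = c := by
    intro u
    have h0 := chi_nonneg u
    have h1 := chi_le_one u
    have h2 : Fe B u (min c (B c)) ≤ c := by
      have h3 : B.symm (min c (B c)) ≤ c := by
        have h4 := B.symm.monotone (min_le_right c (B c))
        rwa [OrderIso.symm_apply_apply] at h4
      have h4 := min_le_left c (B c)
      unfold Fe
      nlinarith
    have h3 : c ≤ Fe B u (max c (B c)) := by
      have h3 : c ≤ B.symm (max c (B c)) := by
        have h4 := B.symm.monotone (le_max_right c (B c))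
        rwa [OrderIso.symm_apply_apply] at h4
      have h4 := le_max_left c (B c)
      unfold Fe
      nlinarith
    have hle : min c (B c) ≤ max c (B c) := min_le_max
    have hcont : Continuous fun t => Fe B u t :=
      (Fe_cont B).comp (continuous_const.prodMk continuous_id)
    obtain ⟨t, -, ht⟩ := intermediate_value_Icc hle hcont.continuousOn ⟨h2, h3⟩
    exact ⟨t, ht⟩
  choose τ hτ using fun x => hsurj (k x)
  refine ⟨τ, ?_, hτ⟩
  have hlev : ∀ a, Continuous fun x => Fe B (k x) a := fun a =>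
    (Fe_cont B).comp (hk.prodMk continuous_const)
  rw [continuous_iff_continuousAt]
  intro x
  refine tendsto_order.2 ⟨fun a ha => ?_, fun a ha => ?_⟩
  · have h1 : Fe B (k x) a < c := by
      rw [← hτ x]
      exact Fe_mono B _ ha
    have h2 : ∀ᶠ y in 𝓝 x, Fe B (k y) a < c :=
      (hlev a).continuousAt.eventually (gt_mem_nhds h1)
    filter_upwards [h2] with y hy
    rw [← hτ y] at hy
    exact (Fe_mono B (k y)).lt_iff_lt.1 hy
  · have h1 : c < Fe B (k x) a := by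
      rw [← hτ x]
      exact Fe_mono B _ ha
    have h2 : ∀ᶠ y in 𝓝 x, c < Fe B (k y) a :=
      (hlev a).continuousAt.eventually (lt_mem_nhds h1)
    filter_upwards [h2] with y hy
    rw [← hτ y] at hy
    exact (Fe_mono B (k y)).lt_iff_lt.1 hy

theorem LfE_Fs {i : ℤ} {e : Bool × K} (h : act i e) (x : S) (t : ℝ) :
    Fs A H C i (some e) (some e) x t = Fe (iso H e) (lft (kap A e (C.ψ (i - 1) x))) t := by
  unfold Fs Fa
  simp only
  rw [C.step A h x, ite_self]

/-- near the slice of an inactive strip -/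
theorem LfE_cover {i : ℤ} {e : Bool × K} (h : ina i e) {x : S} (hx : kap A e (C.ψ i x) ≠ 0) :
    ∃ a, inaO i a ∧ x ∈ DD A C i a (some e) := by
  rcases VV_cover A (C.ψ (i - 1) x) with h1 | ⟨e', h1⟩
  · exact ⟨none, trivial, h1, hx⟩
  · rcases ina_or_act i e' with h2 | h2
    · exact ⟨some e', h2, h1, hx⟩
    · exfalso
      have hne : e ≠ e' := by
        rintro rfl
        exact LfE_excl h h2
      rcases kap_disj A hne (C.ψ i x) with h3 | h3
      · exact hx h3
      · rw [C.step A h2 x] at h3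
        exact h1 h3

theorem LfE_main [Finite J] [Finite K] (hn : 0 < n) (hF : F.charts = AllCharts Fl A H C) (i : ℤ)
    (e : Bool × K) (hi : ina i e)
    {t : ℝ} (ht : t ∈ Ico (i : ℝ) (i + 2)) (γ : unitInterval → S)
    (hγ : Continuous γ) (hγ' : ∀ s, γ s ∈ Out E ∧ kap A e (C.ψ i (γ s)) ≠ 0) :
    ∃ t' ∈ Ico (i : ℝ) (i + 2), F.SameLeaf (PP Fl n (γ 0, t)) (PP Fl n (γ 1, t')) := by
  have hact : act (i + 1) e := LfE_next hi
  have hfix : ∀ u, Fe (iso H e) u (i : ℝ) = i := fun u => Fe_fix _ (iso_fix H hi) u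
  have hfix2 : ∀ u, Fe (iso H e) u ((i : ℝ) + 2) = (i : ℝ) + 2 := by
    intro u
    have h1 : iso H e (((i + 2 : ℤ)) : ℝ) = ((i + 2 : ℤ) : ℝ) := iso_fix H (LfE_two hi)
    have h2 := Fe_fix _ h1 u
    push_cast at h2
    exact h2
  have hk : Continuous fun s => lft (kap A e (C.ψ i (γ s))) := by
    rw [continuous_iff_continuousAt]
    intro s
    exact ContinuousAt.comp (g := lft) (f := fun s => kap A e (C.ψ i (γ s)))
      (lft_contAt (hγ' s).2)
      (((kap_cont A e).comp ((C.ψ i).continuous.comp hγ)).continuousAt)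
  obtain ⟨τ, hτc, hτ⟩ := LfE_solve (iso H e) hk (Fe (iso H e) (lft (kap A e (C.ψ i (γ 0)))) t)
  set c : ℝ := Fe (iso H e) (lft (kap A e (C.ψ i (γ 0)))) t with hc
  have hτ0 : τ 0 = t := (Fe_mono _ _).injective (hτ 0)
  have hc1 : (i : ℝ) ≤ c := by
    rw [hc, ← hfix (lft (kap A e (C.ψ i (γ 0))))]
    exact (Fe_mono _ _).monotone ht.1
  have hc2 : c < (i : ℝ) + 2 := by
    rw [hc, ← hfix2 (lft (kap A e (C.ψ i (γ 0))))]
    exact Fe_mono _ _ ht.2
  have hτ1 : ∀ s, (i : ℝ) ≤ τ s := by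
    intro s
    refine (Fe_mono (iso H e) (lft (kap A e (C.ψ i (γ s))))).le_iff_le.1 ?_
    rw [hτ s, hfix]
    exact hc1
  have hτ2 : ∀ s, τ s < (i : ℝ) + 2 := by
    intro s
    refine (Fe_mono (iso H e) (lft (kap A e (C.ψ i (γ s))))).lt_iff_lt.1 ?_
    rw [hτ s, hfix2]
    exact hc2
  have hg : Continuous fun s => PP Fl n (γ s, τ s) := (PP_cont Fl hn).comp (hγ.prodMk hτc)
  have hleaf : F.SameLeaf (PP Fl n (γ 0, τ 0)) (PP Fl n (γ 1, τ 1)) := by
    refine F.sameLeaf_of (fun s => PP Fl n (γ s, τ s)) hg fun s => ?_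
    obtain ⟨hout, hV⟩ := hγ' s
    obtain ⟨ξ, hξ⟩ := E.flat (γ s)
    rcases hc1.eq_or_lt with hci | hci
    · -- the slice
      have hτi : ∀ s, τ s = (i : ℝ) := by
        intro s
        refine (Fe_mono (iso H e) (lft (kap A e (C.ψ i (γ s))))).injective ?_
        rw [hτ s, hfix]
        exact hci.symm
      obtain ⟨a, ha, hD⟩ := LfE_cover A C hi hV
      have hadm : Adm i a (some e) := Or.inl ⟨ha, hi⟩
      obtain ⟨c', hc', hsrc, hval⟩ := exI Fl A H C hn i a (some e) hadm ξ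
      have hU : IsOpen (ξ.source ∩ Out E ∩ DD A C i a (some e)) :=
        (ξ.open_source.inter Out_open).inter (DD_open A C i a (some e))
      have hmem : γ s ∈ ξ.source ∩ Out E ∩ DD A C i a (some e) := ⟨⟨hξ, hout⟩, hD⟩
      have hev : ∀ᶠ s' in 𝓝 s, γ s' ∈ ξ.source ∩ Out E ∩ DD A C i a (some e) :=
        hγ.continuousAt (hU.mem_nhds hmem)
      have hI : ∀ s', τ s' ∈ Ioo ((i : ℝ) - 1) (i + 1) := by
        intro s'
        rw [hτi s']
        exact ⟨by linarith, by linarith⟩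
      have key : ∀ s', γ s' ∈ ξ.source ∩ Out E ∩ DD A C i a (some e) →
          (c' (PP Fl n (γ s', τ s'))).2 = (i : ℝ) := by
        intro s' hs'
        rw [hval (γ s', τ s') ⟨hs', hI s'⟩]
        show Fs A H C i a (some e) (γ s') (τ s') = (i : ℝ)
        rw [hτi s']
        exact Fs_slice A H C ha _
      refine ⟨c', ?_, ?_, ?_⟩
      · rw [hF]
        exact Or.inl hc'
      · rw [hsrc]
        exact ⟨(γ s, τ s), ⟨hmem, hI s⟩, rfl⟩
      · filter_upwards [hev] with s' hs'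
        exact (key _ hs').trans (key _ hmem).symm
    · -- above the slice
      have hτi : ∀ s, (i : ℝ) < τ s := by
        intro s
        refine (Fe_mono (iso H e) (lft (kap A e (C.ψ i (γ s))))).lt_iff_lt.1 ?_
        rw [hτ s, hfix]
        exact hci
      have hadm : Adm (i + 1) (some e) (some e) := Or.inr ⟨e, hact, rfl, rfl⟩
      obtain ⟨c', hc', hsrc, hval⟩ := exI Fl A H C hn (i + 1) (some e) (some e) hadm ξ
      have hU : IsOpen (ξ.source ∩ Out E ∩ DD A C (i + 1) (some e) (some e)) :=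
        (ξ.open_source.inter Out_open).inter (DD_open A C (i + 1) (some e) (some e))
      have hi1 : i + 1 - 1 = i := by ring
      have hD : γ s ∈ DD A C (i + 1) (some e) (some e) := by
        constructor
        · show kap A e (C.ψ (i + 1 - 1) (γ s)) ≠ 0
          rw [hi1]
          exact hV
        · show kap A e (C.ψ (i + 1) (γ s)) ≠ 0
          rw [C.step A hact, hi1]
          exact hV
      have hmem : γ s ∈ ξ.source ∩ Out E ∩ DD A C (i + 1) (some e) (some e) := ⟨⟨hξ, hout⟩, hD⟩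
      have hev : ∀ᶠ s' in 𝓝 s, γ s' ∈ ξ.source ∩ Out E ∩ DD A C (i + 1) (some e) (some e) :=
        hγ.continuousAt (hU.mem_nhds hmem)
      have hI : ∀ s', τ s' ∈ Ioo (((i + 1 : ℤ) : ℝ) - 1) (((i + 1 : ℤ) : ℝ) + 1) := by
        intro s'
        have h1 := hτi s'
        have h2 := hτ2 s'
        push_cast
        exact ⟨by linarith, by linarith⟩
      have key : ∀ s', γ s' ∈ ξ.source ∩ Out E ∩ DD A C (i + 1) (some e) (some e) →
          (c' (PP Fl n (γ s', τ s'))).2 = c := by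
        intro s' hs'
        rw [hval (γ s', τ s') ⟨hs', hI s'⟩]
        show Fs A H C (i + 1) (some e) (some e) (γ s') (τ s') = c
        rw [LfE_Fs A H C hact, hi1]
        exact hτ s'
      refine ⟨c', ?_, ?_, ?_⟩
      · rw [hF]
        exact Or.inl hc'
      · rw [hsrc]
        exact ⟨(γ s, τ s), ⟨hmem, hI s⟩, rfl⟩
      · filter_upwards [hev] with s' hs'
        exact (key _ hs').trans (key _ hmem).symm
  refine ⟨τ 1, ⟨hτ1 1, hτ2 1⟩, ?_⟩
  rw [hτ0] at hleaf
  exact hleaf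

/-- leaf paths in the strips -/
theorem leaf_strip [Finite J] [Finite K] (hn : 0 < n) (hF : F.charts = AllCharts Fl A H C) (i : ℤ)
    {t : ℝ} (ht : t ∈ Ico (i : ℝ) (i + 1)) (e : Bool × K) (γ : unitInterval → S)
    (hγ : Continuous γ) (hγ' : ∀ s, γ s ∈ Out E ∧ kap A e (C.ψ i (γ s)) ≠ 0) :
    ∃ (i' : ℤ) (t' : ℝ), t' ∈ Ico (i' : ℝ) (i' + 1) ∧
      (∀ x, kap A e (C.ψ i' x) = kap A e (C.ψ i x)) ∧
      F.SameLeaf (PP Fl n (γ 0, t)) (PP Fl n (γ 1, t')) := by
  obtain ⟨i₀, hi₀, heq, ht₀⟩ : ∃ i₀ : ℤ, ina i₀ e ∧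
      (∀ x, kap A e (C.ψ i₀ x) = kap A e (C.ψ i x)) ∧ t ∈ Ico (i₀ : ℝ) (i₀ + 2) := by
    rcases ina_or_act i e with h | h
    · exact ⟨i, h, fun x => rfl, ht.1, by linarith [ht.2]⟩
    · refine ⟨i - 1, LfE_prev h, fun x => (C.step A h x).symm, ?_, ?_⟩
      · push_cast
        linarith [ht.1]
      · push_cast
        linarith [ht.2]
  obtain ⟨t', ht', hleaf⟩ := LfE_main Fl A H C F hn hF i₀ e hi₀ ht₀ γ hγ
    (fun s => ⟨(hγ' s).1, by rw [heq]; exact (hγ' s).2⟩)
  rcases lt_or_ge t' ((i₀ : ℝ) + 1) with h1 | h1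
  · exact ⟨i₀, t', ⟨ht'.1, h1⟩, heq, hleaf⟩
  · refine ⟨i₀ + 1, t', ⟨?_, ?_⟩, fun x => ?_, hleaf⟩
    · push_cast
      exact h1
    · push_cast
      linarith [ht'.2]
    · have h2 := C.step A (LfE_next hi₀) x
      have hi1 : i₀ + 1 - 1 = i₀ := by ring
      rw [hi1] at h2
      exact h2.trans (heq x)

/-- a strip is not everything: every point of a strip can be joined inside the strip to a point
near its side -/
theorem strip_path [ConnectedSpace S] [Nonempty J] (hL : ∀ j, 0 < L j) (e : Bool × K) (x : S)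
    (hx : kap A e x ≠ 0) :
    ∃ x' : S, JoinedIn {z | kap A e z ≠ 0} x x' ∧ ‖kap A e x'‖ < 1 / 4 := by
  have hloc := E.locPath
  by_contra hno
  push Not at hno
  have hW : IsOpen {z | kap A e z ≠ 0} := (kap_cont A e).isOpen_preimage _ isOpen_ne
  have hCo : IsOpen (pathComponentIn {z | kap A e z ≠ 0} x) := hW.pathComponentIn x
  have hCl : IsClosed (pathComponentIn {z | kap A e z ≠ 0} x) := by
    refine isClosed_of_closure_subset fun z hz => ?_
    have hclosed : IsClosed {z | 1 / 4 ≤ ‖kap A e z‖} :=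
      isClosed_le continuous_const (kap_cont A e).norm
    have h1 : closure (pathComponentIn {z | kap A e z ≠ 0} x) ⊆ {z | 1 / 4 ≤ ‖kap A e z‖} :=
      closure_minimal (fun y hy => hno y hy) hclosed
    have hzW : z ∈ {z | kap A e z ≠ 0} := by
      intro h0
      have h2 : 1 / 4 ≤ ‖kap A e z‖ := h1 hz
      rw [h0, norm_zero] at h2
      norm_num at h2
    have hzC : IsOpen (pathComponentIn {z | kap A e z ≠ 0} z) := hW.pathComponentIn z
    have hmem : z ∈ pathComponentIn {z | kap A e z ≠ 0} z := JoinedIn.refl hzW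
    obtain ⟨y, hy1, hy2⟩ := mem_closure_iff.1 hz _ hzC hmem
    exact JoinedIn.trans hy2 (JoinedIn.symm hy1)
  have huniv := IsClopen.eq_univ ⟨hCl, hCo⟩ ⟨x, JoinedIn.refl hx⟩
  obtain ⟨j⟩ := ‹Nonempty J›
  have hmem : E.collar j ((((0 : ℤ) + (0 : ℝ)) / (4 * L j) : ℝ), ⟨3 / 2, by norm_num, by norm_num⟩) ∈
      pathComponentIn {z | kap A e z ≠ 0} x := by
    rw [huniv]
    exact mem_univ _
  have h3 : kap A e (E.collar j ((((0 : ℤ) + (0 : ℝ)) / (4 * L j) : ℝ),
      ⟨3 / 2, by norm_num, by norm_num⟩)) ≠ 0 := JoinedIn.target_mem hmem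
  apply h3
  by_cases hej : e.2 = col j
  · obtain ⟨bb, k⟩ := e
    obtain rfl : k = col j := hej
    rw [kap_collar A bb j (hL j) 0 0 ⟨le_refl _, zero_le_one⟩]
    cases bb <;> simp
  · exact kap_collar_ne A hej _

/-- a point of the complement of the strips can be joined to an end -/
theorem none_reach {x : S} (hx : x ∈ VV A none) :
    ∃ j z, JoinedIn (VV A none) x (E.collar j z) := by
  have h : VV A none = {x : S | ∀ k, ‖A.a k x‖ < 1 / 4 ∧ ‖A.b k x‖ < 1 / 4} := by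
    ext y
    constructor
    · intro hy k
      exact ⟨hy (false, k), hy (true, k)⟩
    · rintro hy ⟨b, k⟩
      cases b
      · exact (hy k).1
      · exact (hy k).2
  rw [h] at hx ⊢
  exact A.reach x hx

/-- closed transversals over the collars -/
theorem transversal [Finite J] [Finite K] (hn : 0 < n) (hL : ∀ j, 0 < L j)
    (hF : F.charts = AllCharts Fl A H C) (j : J) (w : AddCircle (1 : ℝ) × Ioo (1 : ℝ) 2) :
    F.ClosedTransversal (fun s => PP Fl n (E.collar j w, 4 * n * s)) := by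
  have hnr : (0 : ℝ) < n := by exact_mod_cast hn
  obtain ⟨y, -, hy⟩ := exists_QQ Fl (L := L) (n := n) j (hL j) w 0
  have hPQ : ∀ t, PP Fl n (E.collar j w, t) = QQ Fl L n j (y, w.2, t) := by
    intro t
    unfold QQ
    rw [← hy]
  refine F.transversal_of _ ?_ ?_ ?_
  · exact (PP_cont Fl hn).comp (continuous_const.prodMk (by fun_prop))
  · intro s
    refine (PP_eq Fl hn _ _ _ _).2 ⟨-1, ?_, ?_⟩
    · push_cast
      ring
    · exact (C.phi_zpow_col A (-1) j _).symm
  · intro s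
    obtain ⟨c, hc, hsrc, hval⟩ := exII Fl H hn hL (C.phi_col A) j (y - 1 / 2) (4 * n * s - 1 / 2)
    refine ⟨c, ?_, ?_, 1 / (8 * n), by positivity, ?_⟩
    · rw [hF]
      exact Or.inr hc
    · rw [hsrc, hPQ]
      exact ⟨(y, w.2, 4 * n * s), ⟨⟨by simp only; linarith, by simp only; linarith⟩,
        mem_univ _, ⟨by simp only; linarith, by simp only; linarith⟩⟩, rfl⟩
    · have key : ∀ a ∈ Ioo (s - 1 / (8 * n)) (s + 1 / (8 * n)),
          (c (PP Fl n (E.collar j w, 4 * n * a))).2 = MR (H (col j)) y w.2 (4 * n * a) := by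
        intro a ha
        have h1 : 4 * (n : ℝ) * (1 / (8 * n)) = 1 / 2 := by
          field_simp
          norm_num
        have h2 : 4 * (n : ℝ) * (s - 1 / (8 * n)) < 4 * n * a :=
          mul_lt_mul_of_pos_left ha.1 (by positivity)
        have h3 : 4 * (n : ℝ) * a < 4 * n * (s + 1 / (8 * n)) :=
          mul_lt_mul_of_pos_left ha.2 (by positivity)
        rw [mul_sub, h1] at h2
        rw [mul_add, h1] at h3
        rw [hPQ]
        exact hval (y, w.2, 4 * n * a) ⟨⟨by simp only; linarith, by simp only; linarith⟩,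
          mem_univ _, ⟨h2, by simp only; linarith⟩⟩
      intro a ha b hb hab
      simp only [key a ha, key b hb]
      exact MR_mono (H (col j)) y w.2 (mul_lt_mul_of_pos_left hab (by positivity))

include C in
/-- the retraction, with its effect on the collapse maps -/
theorem LfF_ret [Finite J] [Finite K] (hL : ∀ j, 0 < L j) : ∃ r : S → S, Continuous r ∧
    (∀ x, (∀ j w, x = E.collar j w → 11 / 6 ≤ (w.2 : ℝ)) → r x = x) ∧
    (∀ z j w, r z = E.collar j w → 11 / 6 ≤ (w.2 : ℝ)) ∧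
    (∀ z (i : ℤ) (e : Bool × K), kap A e (C.ψ i (r z)) = kap A e (C.ψ i z)) ∧
    ∀ j w, ∃ w', r (E.collar j w) = E.collar j w' := by
  obtain ⟨r, hr, h1, h2, h3⟩ := E.exists_retract
  refine ⟨r, hr, h1, ?_, ?_, fun j w => ?_⟩
  · intro z j w hz
    by_cases hc : ∃ j w, z = E.collar j w
    · obtain ⟨j', w', rfl⟩ := hc
      obtain ⟨w'', h4, -, h5⟩ := h3 j' w'
      rw [h4] at hz
      obtain rfl := E.disj _ _ _ _ hz
      rw [← (E.emb j').injective hz]
      exact h5
    · push Not at hc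
      rw [h2 z hc] at hz
      exact absurd hz (hc j w)
  · intro z i e
    by_cases hc : ∃ j w, z = E.collar j w
    · obtain ⟨j', w', rfl⟩ := hc
      obtain ⟨w'', h4, h5, -⟩ := h3 j' w'
      rw [h4, C.col, C.col]
      obtain ⟨θ, ρ⟩ := w'
      obtain ⟨θ', ρ'⟩ := w''
      simp only at h5
      subst h5
      exact kap_radius A e hL j' θ' ρ' ρ
    · push Not at hc
      rw [h2 z hc]
  · obtain ⟨w', h4, -, -⟩ := h3 j w
    exact ⟨w', h4⟩

theorem LfF_out {x : S} (hx : ∀ j w, x = E.collar j w → 11 / 6 ≤ (w.2 : ℝ)) : x ∈ Out E := by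
  intro j w h
  have := hx j w h
  norm_num at this ⊢
  linarith

theorem LfF_A [Finite J] [Finite K] (hn : 0 < n) (hL : ∀ j, 0 < L j)
    (hF : F.charts = AllCharts Fl A H C) (x : S) (i : ℤ) (t : ℝ)
    (ht : t ∈ Ico (i : ℝ) (i + 1))
    (hx : ∀ j w, x = E.collar j w → 11 / 6 ≤ (w.2 : ℝ)) (hV : C.ψ i x ∈ VV A none) :
    ∃ j w, F.SameLeaf (PP Fl n (x, t)) (PP Fl n (E.collar j w, t)) := by
  obtain ⟨r, hr, h1, h2, h3, h6⟩ := LfF_ret A C hL
  obtain ⟨j, z, δ, hδ⟩ := none_reach A hV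
  obtain ⟨w', hw'⟩ := h6 j z
  refine ⟨j, w', ?_⟩
  have h4 := leaf_horizontal Fl A H C F hn hF i ht (fun s => r ((C.ψ i).symm (δ s)))
    (hr.comp ((C.ψ i).symm.continuous.comp δ.continuous)) (fun s => ⟨LfF_out (h2 _), by
      intro e
      rw [h3]
      have := hδ s e
      simpa using this⟩)
  simp only [Path.source, Path.target, Homeomorph.symm_apply_apply] at h4
  rw [h1 x hx] at h4
  have h5 : (C.ψ i).symm (E.collar j z) = E.collar j z := by
    rw [Homeomorph.symm_apply_eq, C.col]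
  rw [h5, hw'] at h4
  exact h4

/-- from the outer part (outside the collars or at radius `≥ 11/6`) to a collar -/
theorem leaf_outer [Finite J] [Finite K] [Nonempty J] [ConnectedSpace S] (hn : 0 < n)
    (hL : ∀ j, 0 < L j) (hF : F.charts = AllCharts Fl A H C) (x : S) (t : ℝ)
    (hx : ∀ j w, x = E.collar j w → 11 / 6 ≤ (w.2 : ℝ)) :
    ∃ j w t', F.SameLeaf (PP Fl n (x, t)) (PP Fl n (E.collar j w, t')) := by
  have ht : t ∈ Ico ((⌊t⌋ : ℤ) : ℝ) ((⌊t⌋ : ℤ) + 1) := ⟨Int.floor_le t, Int.lt_floor_add_one t⟩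
  rcases VV_cover A (C.ψ ⌊t⌋ x) with hV | ⟨e, he⟩
  · obtain ⟨j, w, h⟩ := LfF_A Fl A H C F hn hL hF x ⌊t⌋ t ht hx hV
    exact ⟨j, w, t, h⟩
  · obtain ⟨r, hr, h1, h2, h3, -⟩ := LfF_ret A C hL
    obtain ⟨x', ⟨δ, hδ⟩, hx'⟩ := strip_path A hL e _ he
    obtain ⟨i', t', ht', hk, hs⟩ := leaf_strip Fl A H C F hn hF ⌊t⌋ ht e
      (fun s => r ((C.ψ ⌊t⌋).symm (δ s)))
      (hr.comp ((C.ψ ⌊t⌋).symm.continuous.comp δ.continuous)) (fun s => ⟨LfF_out (h2 _), by
        rw [h3]
        have := hδ s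
        simpa using this⟩)
    simp only [Path.source, Path.target, Homeomorph.symm_apply_apply] at hs
    rw [h1 x hx] at hs
    have h5 : kap A e (C.ψ i' (r ((C.ψ ⌊t⌋).symm x'))) = kap A e x' := by
      rw [hk, h3, Homeomorph.apply_symm_apply]
    have h6 : kap A e x' ≠ 0 := by
      have := hδ 1
      simpa using this
    obtain ⟨j, w, h⟩ := LfF_A Fl A H C F hn hL hF _ i' t' ht' (h2 _) (by
      intro e'
      by_cases hee : e' = e
      · subst hee
        rw [h5]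
        exact hx'
      · rcases kap_disj A hee (C.ψ i' (r ((C.ψ ⌊t⌋).symm x'))) with h7 | h7
        · rw [h7, norm_zero]
          norm_num
        · rw [h5] at h7
          exact absurd h7 h6)
    exact ⟨j, w, t', Foliation.SameLeaf.trans F hs h⟩

/-- tautness -/
theorem taut [Finite J] [Finite K] [Nonempty J] [ConnectedSpace S] (hn : 0 < n)
    (hL : ∀ j, 0 < L j) (hF : F.charts = AllCharts Fl A H C) : F.Taut := by
  have hn' : (4 * (n : ℝ)) ≠ 0 := by
    have : (0 : ℝ) < n := by exact_mod_cast hn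
    positivity
  have key : ∀ y j w t', F.SameLeaf y (PP Fl n (E.collar j w, t')) →
      ∃ l : ℝ → Y, ∃ s : ℝ, F.ClosedTransversal l ∧ F.SameLeaf y (l s) := by
    intro y j w t' h
    refine ⟨fun s => PP Fl n (E.collar j w, 4 * n * s), t' / (4 * n),
      transversal Fl A H C F hn hL hF j w, ?_⟩
    have e : 4 * (n : ℝ) * (t' / (4 * n)) = t' := by field_simp
    show F.SameLeaf y (PP Fl n (E.collar j w, 4 * n * (t' / (4 * n))))
    rw [e]
    exact h
  intro y
  rcases dichotomy Fl hn hL y with ⟨x, t, rfl, hx⟩ | ⟨j, z, rfl⟩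
  · obtain ⟨j, w, t', h⟩ := leaf_outer Fl A H C F hn hL hF x t fun j w e => absurd e (hx j w)
    exact key _ j w t' h
  · exact key _ j _ z.2.2 (Foliation.SameLeaf.refl F _)

end Pool.Agent.H.MP_1611f1_gt.G.B
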