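import Pool.Agent.H.MP_1611f1_gt.G.Shear
import Pool.Agent.H.MP_1611f1_gt.G.Bun

/-!
Bundle pieces with boundary twists.
-/

namespace Pool.Agent.H.MP_1611f1_gt.G

open Topology Set Filter

/-- mapping tori of pieces, with the monodromy multiplied by boundary twists, detect the
covectors of the sheared box -/
theorem detected_bundle_twist {S : Type*} [TopologicalSpace S] [ConnectedSpace S] {J K : Type*}
    [Finite J] [Finite K] [Nonempty J] (P : Piece S J K) (κ : J → ℤ) {M : Type*} [TopologicalSpace M]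
    {T : Ended M J} (Mt : MTorus P.E.shrink (P.E.rot (fun j => (κ j : ℝ)) * P.Φ.phi) T)
    (σ : K → ℝ) (hσ : ∀ k, |σ k| < 1) (ε : ℝ)
    (hε : ε = 1 ∨ ε = -1) (x y : J → ℝ) (hy : ∀ j, 0 < ε * (y j - κ j * x j))
    (hx : ∀ j (h : 0 < P.L j), P.n * x j = σ (P.col ⟨j, h⟩) * P.L j * (y j - κ j * x j))
    (hx0 : ∀ j, P.L j = 0 → x j = 0) : Detected T x y := by
  have hy' : ∀ j, y j + ((-κ j : ℤ) : ℝ) * x j = y j - κ j * x j := by
    intro j
    push_cast
    ring
  refine detected_shear (fun j => -κ j) ?_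
  refine detected_bundle P.shrink
    (MTorus.reframe P.E P.Φ.phi P.phi_collar κ Mt) σ hσ ε hε x _ ?_ ?_ hx0
  · intro j
    simp only [hy']
    exact hy j
  · intro j h
    simp only [hy']
    exact hx j h

end Pool.Agent.H.MP_1611f1_gt.G
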