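import Pool.Agent.H.MP_1611f1_gt.Fib

/-!
Manifolds with toral ends, and manifolds obtained from them by gluing and filling ends.
-/

namespace Pool.Agent.H.MP_1611f1_gt.G

open Topology Set Filter

/-- A space `M` with toral ends: `tor j` is an open embedding of
(torus) × (interval), in the coordinates `(θ, r, t)`; the part near `r = 1` goes to the end. -/
structure Ended (M : Type*) [TopologicalSpace M] (J : Type*) where
  tor : J → AddCircle (1 : ℝ) × Ioo (1 : ℝ) 2 × AddCircle (1 : ℝ) → M
  emb : ∀ j, IsOpenEmbedding (tor j)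
  disj : ∀ i j z w, tor i z = tor j w → i = j

/-- the collar in real coordinates `(u, r, t)` -/
def Ended.cov {M : Type*} [TopologicalSpace M] {J : Type*} (T : Ended M J) (j : J)
    (z : ℝ × Ioo (1 : ℝ) 2 × ℝ) : M :=
  T.tor j ((z.1 : AddCircle (1 : ℝ)), z.2.1, (z.2.2 : AddCircle (1 : ℝ)))

/-- The foliation `F` is linear near the ends: over the part `r < 4/3` of the collar `j` it is
the foliation `x j * u + y j * t = const` (with the co-orientation given by this function). -/
def Linear {M : Type*} [TopologicalSpace M] {J : Type*} (T : Ended M J) (F : Foliation M)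
    (x y : J → ℝ) : Prop :=
  ∀ (j : J) (z : ℝ × Ioo (1 : ℝ) 2 × ℝ), (z.2.1 : ℝ) < 4 / 3 → ∀ c ∈ F.charts,
    T.cov j z ∈ c.source →
      OrdEq z (fun w => (c (T.cov j w)).2) (fun w => x j * w.1 + y j * w.2.2)

/-- there is a taut foliation which is linear near the ends -/
def Detected {M : Type*} [TopologicalSpace M] {J : Type*} (T : Ended M J) (x y : J → ℝ) : Prop :=
  ∃ F : Foliation M, F.Taut ∧ Linear T F x y

/-- A gluing pattern on a set `D` of ends: an involution `τ`. An end `e` with `τ e = e` is filled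
with a solid torus, an end `e` with `τ e ≠ e` is glued to the end `τ e`. The matrix
`(al e, be e; ga e, de e)` is the filling matrix (determinant `1`) or the gluing matrix
(determinant `-1`, because the radial directions are reversed), and the gluing matrix of `τ e` is
the inverse of the gluing matrix of `e`. -/
structure Pattern (D : Type*) where
  τ : D → D
  al : D → ℤ
  be : D → ℤ
  ga : D → ℤ
  de : D → ℤ
  invol : ∀ e, τ (τ e) = e
  det_fill : ∀ e, τ e = e → al e * de e - be e * ga e = 1
  det_glue : ∀ e, τ e ≠ e → al e * de e - be e * ga e = -1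
  mat : ∀ e, τ e ≠ e → al (τ e) = -de e ∧ be (τ e) = be e ∧ ga (τ e) = ga e ∧ de (τ e) = -al e

/-- `Y` is obtained from the pieces `M v` (together: `p`) by gluing the deep parts (radii in
`(1, 4/3)`) of the collars of the ends `e` and `τ e ≠ e`: the point `(θ, r, t)` over the collar
`e` is glued to the point `(al θ + be t, 7/3 - r, ga θ + de t)` over the collar `τ e`; and by
filling the ends `e` with `τ e = e` with solid tori (`q e`): the point `(θ, r, t)` over the
collar `e` is glued to the point with polar coordinates `(r, al θ + be t)` and height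
`ga θ + de t`; the meridian disc is `height = const`. -/
structure Union {V : Type*} {M : V → Type*} [∀ v, TopologicalSpace (M v)] {J : V → Type*}
    (T : ∀ v, Ended (M v) (J v)) (G : Pattern (Σ v, J v)) (Y : Type*) [TopologicalSpace Y] where
  p : (Σ v, M v) → Y
  q : {e : Σ v, J v // G.τ e = e} → Metric.ball (0 : ℂ) 2 × AddCircle (1 : ℝ) → Y
  p_loc : IsLocalHomeomorph p
  p_eq : ∀ z z', p z = p z' ↔ z = z' ∨
    ∃ (e : Σ v, J v) (θ t : AddCircle (1 : ℝ)) (r r' : Ioo (1 : ℝ) 2),
      G.τ e ≠ e ∧ (r : ℝ) + r' = 7 / 3 ∧ z = ⟨e.1, (T e.1).tor e.2 (θ, r, t)⟩ ∧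
      z' = ⟨(G.τ e).1, (T (G.τ e).1).tor (G.τ e).2
        (G.al e • θ + G.be e • t, r', G.ga e • θ + G.de e • t)⟩
  q_emb : ∀ e, IsOpenEmbedding (q e)
  q_disj : ∀ e e' z w, q e z = q e' w → e = e'
  glue : ∀ (e : {e : Σ v, J v // G.τ e = e}) (θ t : AddCircle (1 : ℝ)) (r : Ioo (1 : ℝ) 2),
    p ⟨e.1.1, (T e.1.1).tor e.1.2 (θ, r, t)⟩ =
      q e (polar r (G.al e.1 • θ + G.be e.1 • t), G.ga e.1 • θ + G.de e.1 • t)
  overlap : ∀ z e w, p z = q e w → ∃ w', z = ⟨e.1.1, (T e.1.1).tor e.1.2 w'⟩
  cover : ∀ y, (∃ z, p z = y) ∨ ∃ e z, q e z = y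

end Pool.Agent.H.MP_1611f1_gt.G
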