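import Pool.Agent.H.MP_1611f1_gt.G.GlA

/-!
Non-vacuity: preparations (polar coordinates, quotients).
-/

namespace Pool.Agent.H.MP_1611f1_gt.G

open Topology Set Filter

/-- a map with a continuous inverse near every point is open -/
theorem ExA_open {X Y : Type*} [TopologicalSpace X] [TopologicalSpace Y] {f : X → Y} (g : Y → X)
    (hg : ∀ x, ContinuousAt g (f x)) (h1 : ∀ x, g (f x) = x)
    (h2 : ∀ x, ∀ᶠ y in 𝓝 (f x), f (g y) = y) : IsOpenMap f := by
  rw [isOpenMap_iff_nhds_le]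
  intro x N hN
  have h3 : f ⁻¹' N ∈ 𝓝 (g (f x)) := by
    rw [h1]
    exact hN
  filter_upwards [hg x h3, h2 x] with y hy1 hy2
  rw [← hy2]
  exact hy1

/-- the radius, as a point of the interval -/
noncomputable def rI (b : Metric.ball (0 : ℂ) 2) : Ioo (1 : ℝ) 2 :=
  if h : 1 < ‖(b : ℂ)‖ then ⟨‖(b : ℂ)‖, h, mem_ball_zero_iff.1 b.2⟩
  else ⟨3 / 2, by norm_num, by norm_num⟩

theorem rI_val {b : Metric.ball (0 : ℂ) 2} (h : 1 < ‖(b : ℂ)‖) : (rI b : ℝ) = ‖(b : ℂ)‖ := by
  unfold rI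
  rw [dif_pos h]

/-- the angle -/
noncomputable def aI (b : Metric.ball (0 : ℂ) 2) : AddCircle (1 : ℝ) :=
  (AddCircle.homeomorphCircle (one_ne_zero (α := ℝ))).symm
    (Circle.exp (Complex.arg (b : ℂ)))

theorem ExA_norm (r : Ioo (1 : ℝ) 2) (ψ : AddCircle (1 : ℝ)) :
    ‖((polar r ψ : Metric.ball (0 : ℂ) 2) : ℂ)‖ = r := by
  have h1 := r.2.1
  rw [polar, norm_mul, Circle.norm_coe, mul_one, Complex.norm_real,
      Real.norm_of_nonneg (by linarith)]

theorem ExA_lt (r : Ioo (1 : ℝ) 2) (ψ : AddCircle (1 : ℝ)) :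
    1 < ‖((polar r ψ : Metric.ball (0 : ℂ) 2) : ℂ)‖ := by
  rw [ExA_norm]
  exact r.2.1

theorem rI_polar (r : Ioo (1 : ℝ) 2) (ψ : AddCircle (1 : ℝ)) : rI (polar r ψ) = r := by
  apply Subtype.ext
  rw [rI_val (ExA_lt r ψ), ExA_norm]

theorem polar_inv {b : Metric.ball (0 : ℂ) 2} (h : 1 < ‖(b : ℂ)‖) : polar (rI b) (aI b) = b := by
  apply Subtype.ext
  show ((rI b : ℝ) : ℂ) * (AddCircle.toCircle (aI b) : ℂ) = b
  rw [rI_val h, ← AddCircle.homeomorphCircle_apply (one_ne_zero (α := ℝ)), aI,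
    Homeomorph.apply_symm_apply, Circle.coe_exp]
  exact Complex.norm_mul_exp_arg_mul_I _

theorem aI_polar (r : Ioo (1 : ℝ) 2) (ψ : AddCircle (1 : ℝ)) : aI (polar r ψ) = ψ := by
  have h1 := congrArg Subtype.val (polar_inv (ExA_lt r ψ))
  rw [rI_polar] at h1
  have h2 : ((r : ℝ) : ℂ) * (AddCircle.toCircle (aI (polar r ψ)) : ℂ) =
      ((r : ℝ) : ℂ) * (AddCircle.toCircle ψ : ℂ) := h1
  have h3 : ((r : ℝ) : ℂ) ≠ 0 := by
    have := r.2.1
    exact Complex.ofReal_ne_zero.2 (by linarith)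
  have h4 := mul_left_cancel₀ h3 h2
  exact AddCircle.injective_toCircle (one_ne_zero (α := ℝ)) (Subtype.ext h4)

theorem ExA_circ : IsInducing (fun z : Circle => (z : ℂ)) := ⟨rfl⟩

theorem polar_cont : Continuous fun z : Ioo (1 : ℝ) 2 × AddCircle (1 : ℝ) => polar z.1 z.2 := by
  refine Continuous.subtype_mk ?_ _
  have h1 : Continuous fun z : Ioo (1 : ℝ) 2 × AddCircle (1 : ℝ) =>
      (AddCircle.toCircle z.2 : ℂ) :=
    ExA_circ.continuous.comp (AddCircle.continuous_toCircle.comp continuous_snd)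
  exact (Complex.continuous_ofReal.comp (continuous_subtype_val.comp continuous_fst)).mul h1

theorem rI_contAt {b : Metric.ball (0 : ℂ) 2} (h : 1 < ‖(b : ℂ)‖) : ContinuousAt rI b := by
  rw [IsInducing.subtypeVal.continuousAt_iff]
  have h1 : Continuous fun b : Metric.ball (0 : ℂ) 2 => ‖(b : ℂ)‖ := by fun_prop
  have h2 : ∀ᶠ b' : Metric.ball (0 : ℂ) 2 in 𝓝 b, 1 < ‖(b' : ℂ)‖ :=
    h1.continuousAt.eventually_const_lt h
  exact h1.continuousAt.congr (h2.mono fun b' hb' => (rI_val hb').symm)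

theorem aI_contAt {b : Metric.ball (0 : ℂ) 2} (h : 1 < ‖(b : ℂ)‖) : ContinuousAt aI b := by
  have h0 : (b : ℂ) ≠ 0 := by
    intro h0
    rw [h0, norm_zero] at h
    linarith
  have h1 : Continuous fun b : Metric.ball (0 : ℂ) 2 => (b : ℂ) := continuous_subtype_val
  refine (AddCircle.homeomorphCircle (one_ne_zero (α := ℝ))).symm.continuous.continuousAt.comp ?_
  rw [ExA_circ.continuousAt_iff]
  have h2 : ContinuousAt (fun b : Metric.ball (0 : ℂ) 2 => (b : ℂ) / ((‖(b : ℂ)‖ : ℝ) : ℂ)) b := by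
    refine ContinuousAt.div h1.continuousAt ?_ ?_
    · exact (Complex.continuous_ofReal.comp h1.norm).continuousAt
    · exact Complex.ofReal_ne_zero.2 (norm_ne_zero_iff.2 h0)
  refine h2.congr ?_
  have h3 : ∀ᶠ b' : Metric.ball (0 : ℂ) 2 in 𝓝 b, (b' : ℂ) ≠ 0 :=
    h1.continuousAt.eventually_ne h0
  filter_upwards [h3] with b' hb'
  show (b' : ℂ) / ((‖(b' : ℂ)‖ : ℝ) : ℂ) = (Circle.exp (Complex.arg (b' : ℂ)) : ℂ)
  rw [Circle.coe_exp, div_eq_iff (Complex.ofReal_ne_zero.2 (norm_ne_zero_iff.2 hb')), mul_comm]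
  exact (Complex.norm_mul_exp_arg_mul_I _).symm

/-- the map from the collar to the solid torus -/
noncomputable def psi (al be ga de : ℤ)
    (w : AddCircle (1 : ℝ) × Ioo (1 : ℝ) 2 × AddCircle (1 : ℝ)) :
    Metric.ball (0 : ℂ) 2 × AddCircle (1 : ℝ) :=
  (polar w.2.1 (al • w.1 + be • w.2.2), ga • w.1 + de • w.2.2)

theorem psi_emb {al be ga de : ℤ} (hd : al * de - be * ga = 1) :
    IsOpenEmbedding (psi al be ga de) := by
  have hcont : Continuous (psi al be ga de) := by
    refine (polar_cont.comp (f := fun w : AddCircle (1 : ℝ) × Ioo (1 : ℝ) 2 × AddCircle (1 : ℝ) =>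
      (w.2.1, al • w.1 + be • w.2.2)) ?_).prodMk ?_
    · fun_prop
    · fun_prop
  let g : Metric.ball (0 : ℂ) 2 × AddCircle (1 : ℝ) →
      AddCircle (1 : ℝ) × Ioo (1 : ℝ) 2 × AddCircle (1 : ℝ) := fun z =>
    (de • aI z.1 - be • z.2, rI z.1, al • z.2 - ga • aI z.1)
  have hg : ∀ w, g (psi al be ga de w) = w := by
    rintro ⟨θ, r, t⟩
    show (de • aI (polar r (al • θ + be • t)) - be • (ga • θ + de • t),
      rI (polar r (al • θ + be • t)),
      al • (ga • θ + de • t) - ga • aI (polar r (al • θ + be • t))) = (θ, r, t)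
    rw [aI_polar, rI_polar]
    have e1 : de • (al • θ + be • t) - be • (ga • θ + de • t) = (al * de - be * ga) • θ := by
      module
    have e2 : al • (ga • θ + de • t) - ga • (al • θ + be • t) = (al * de - be * ga) • t := by
      module
    rw [e1, e2, hd, one_smul, one_smul]
  have hpg : ∀ z : Metric.ball (0 : ℂ) 2 × AddCircle (1 : ℝ), 1 < ‖(z.1 : ℂ)‖ →
      psi al be ga de (g z) = z := by
    rintro ⟨b, h⟩ hb
    show (polar (rI b) (al • (de • aI b - be • h) + be • (al • h - ga • aI b)),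
      ga • (de • aI b - be • h) + de • (al • h - ga • aI b)) = (b, h)
    have e1 : al • (de • aI b - be • h) + be • (al • h - ga • aI b) =
        (al * de - be * ga) • aI b := by module
    have e2 : ga • (de • aI b - be • h) + de • (al • h - ga • aI b) =
        (al * de - be * ga) • h := by module
    rw [e1, e2, hd, one_smul, one_smul, polar_inv hb]
  refine IsOpenEmbedding.of_continuous_injective_isOpenMap hcont
    (Function.LeftInverse.injective hg) (ExA_open g ?_ hg ?_)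
  · intro w
    have h1 : 1 < ‖((psi al be ga de w).1 : ℂ)‖ := ExA_lt _ _
    have h2 : ContinuousAt (fun z : Metric.ball (0 : ℂ) 2 × AddCircle (1 : ℝ) => aI z.1)
        (psi al be ga de w) :=
      ContinuousAt.comp (g := aI) (f := Prod.fst) (aI_contAt h1) continuousAt_fst
    have h3 : ContinuousAt (fun z : Metric.ball (0 : ℂ) 2 × AddCircle (1 : ℝ) => rI z.1)
        (psi al be ga de w) :=
      ContinuousAt.comp (g := rI) (f := Prod.fst) (rI_contAt h1) continuousAt_fst
    have hz : ∀ (k : ℤ) (f : Metric.ball (0 : ℂ) 2 × AddCircle (1 : ℝ) → AddCircle (1 : ℝ)),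
        ContinuousAt f (psi al be ga de w) →
        ContinuousAt (fun z => k • f z) (psi al be ga de w) := by
      intro k f hf
      exact ContinuousAt.comp (g := fun x : AddCircle (1 : ℝ) => k • x)
        (continuous_zsmul k).continuousAt hf
    exact ((hz de _ h2).sub (hz be _ continuousAt_snd)).prodMk
      (h3.prodMk ((hz al _ continuousAt_snd).sub (hz ga _ h2)))
  · intro w
    have h1 : 1 < ‖((psi al be ga de w).1 : ℂ)‖ := ExA_lt _ _
    have h2 : Continuous fun z : Metric.ball (0 : ℂ) 2 × AddCircle (1 : ℝ) => ‖(z.1 : ℂ)‖ := by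
      fun_prop
    exact (h2.continuousAt.eventually_const_lt h1).mono fun z hz => hpg z hz

/-- a symmetric relation which is near every point the graph of a homeomorphism -/
structure PRel (X : Type*) [TopologicalSpace X] where
  N : X → X → Prop
  symm : ∀ x y, N x y → N y x
  func : ∀ x y z, N x y → N x z → y = z
  cont : ∀ x y, N x y → ∀ O ∈ 𝓝 y, ∀ᶠ x' in 𝓝 x, ∃ y' ∈ O, N x' y'

/-- the equivalence relation -/
def PRel.setoid {X : Type*} [TopologicalSpace X] (R : PRel X) : Setoid X where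
  r x y := x = y ∨ R.N x y
  iseqv := by
    refine ⟨fun x => Or.inl rfl, fun {x y} h => ?_, fun {x y z} h h' => ?_⟩
    · rcases h with h | h
      · exact Or.inl h.symm
      · exact Or.inr (R.symm _ _ h)
    · rcases h with rfl | h
      · exact h'
      · rcases h' with rfl | h'
        · exact Or.inr h
        · exact Or.inl (R.func _ _ _ (R.symm _ _ h) h')

theorem PRel.mk_eq {X : Type*} [TopologicalSpace X] (R : PRel X) (x y : X) :
    (Quotient.mk R.setoid x = Quotient.mk R.setoid y) ↔ x = y ∨ R.N x y := by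
  rw [Quotient.eq]
  exact Iff.rfl

theorem PRel.mk_open {X : Type*} [TopologicalSpace X] (R : PRel X) :
    IsOpenMap (Quotient.mk R.setoid) := by
  intro O hO
  show IsOpen (Quotient.mk R.setoid ⁻¹' (Quotient.mk R.setoid '' O))
  rw [isOpen_iff_mem_nhds]
  rintro x ⟨y, hy, hxy⟩
  rcases (R.mk_eq y x).1 hxy with rfl | h
  · filter_upwards [hO.mem_nhds hy] with z hz
    exact ⟨z, hz, rfl⟩
  · filter_upwards [R.cont _ _ (R.symm _ _ h) O (hO.mem_nhds hy)] with z hz
    obtain ⟨y', hy', hz'⟩ := hz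
    exact ⟨y', hy', (R.mk_eq _ _).2 (Or.inr (R.symm _ _ hz'))⟩

end Pool.Agent.H.MP_1611f1_gt.G
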