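import Pool.Agent.H.MP_1611f1_gt.G.ExA

/-!
Non-vacuity: existence of the glued manifold.
-/

namespace Pool.Agent.H.MP_1611f1_gt.G

open Topology Set Filter

universe u1 u2 u3

section

variable {V : Type u1} {M : V → Type u2} [∀ v, TopologicalSpace (M v)] {J : V → Type u3}
  (T : ∀ v, Ended (M v) (J v)) (G : Pattern (Σ v, J v))

/-- the collars in the disjoint union of the pieces -/
def cl (e : Σ v, J v) (w : AddCircle (1 : ℝ) × Ioo (1 : ℝ) 2 × AddCircle (1 : ℝ)) : Σ v, M v :=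
  ⟨e.1, (T e.1).tor e.2 w⟩

theorem cl_emb (e : Σ v, J v) : IsOpenEmbedding (cl T e) :=
  (IsOpenEmbedding.sigmaMk (i := e.1)).comp ((T e.1).emb e.2)

theorem cl_inj {e e' : Σ v, J v} {w w' : AddCircle (1 : ℝ) × Ioo (1 : ℝ) 2 × AddCircle (1 : ℝ)}
    (h : cl T e w = cl T e' w') : e = e' ∧ w = w' := tor_inj (T := T) h

/-- the disjoint union of the solid tori -/
abbrev Tori (G : Pattern (Σ v, J v)) : Type _ :=
  Σ _ : {e : Σ v, J v // G.τ e = e}, Metric.ball (0 : ℂ) 2 × AddCircle (1 : ℝ)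

/-- identification of points of the pieces -/
def NA (z z' : Σ v, M v) : Prop :=
  ∃ (e : Σ v, J v) (θ t : AddCircle (1 : ℝ)) (r r' : Ioo (1 : ℝ) 2),
    G.τ e ≠ e ∧ (r : ℝ) + r' = 7 / 3 ∧ z = ⟨e.1, (T e.1).tor e.2 (θ, r, t)⟩ ∧
    z' = ⟨(G.τ e).1, (T (G.τ e).1).tor (G.τ e).2
      (G.al e • θ + G.be e • t, r', G.ga e • θ + G.de e • t)⟩

/-- identification of points of the pieces with points of the solid tori -/
def NB (z : Σ v, M v) (b : Tori G) : Prop :=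
  ∃ w, z = cl T b.1.1 w ∧ b.2 = psi (G.al b.1.1) (G.be b.1.1) (G.ga b.1.1) (G.de b.1.1) w

/-- the identifications -/
def NN : (Σ v, M v) ⊕ Tori G → (Σ v, M v) ⊕ Tori G → Prop
  | Sum.inl z, Sum.inl z' => NA T G z z'
  | Sum.inl z, Sum.inr b => NB T G z b
  | Sum.inr b, Sum.inl z => NB T G z b
  | Sum.inr _, Sum.inr _ => False

theorem NA_symm {z z' : Σ v, M v} (h : NA T G z z') : NA T G z' z := by
  obtain ⟨e, θ, t, r, r', he, hr, rfl, rfl⟩ := h
  have he' : G.τ (G.τ e) ≠ G.τ e := by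
    rw [G.invol]
    exact Ne.symm he
  obtain ⟨m1, m2, m3, m4⟩ := G.mat e he
  have hd := G.det_glue e he
  refine ⟨G.τ e, _, _, r', r, he', by linarith, rfl, ?_⟩
  have e1 : G.al (G.τ e) • (G.al e • θ + G.be e • t) + G.be (G.τ e) • (G.ga e • θ + G.de e • t) =
      θ := by
    rw [m1, m2]
    have : -G.de e • (G.al e • θ + G.be e • t) + G.be e • (G.ga e • θ + G.de e • t) =
      (-(G.al e * G.de e - G.be e * G.ga e)) • θ := by module
    rw [this, hd, neg_neg, one_smul]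
  have e2 : G.ga (G.τ e) • (G.al e • θ + G.be e • t) + G.de (G.τ e) • (G.ga e • θ + G.de e • t) =
      t := by
    rw [m3, m4]
    have : G.ga e • (G.al e • θ + G.be e • t) + -G.al e • (G.ga e • θ + G.de e • t) =
      (-(G.al e * G.de e - G.be e * G.ga e)) • t := by module
    rw [this, hd, neg_neg, one_smul]
  rw [e1, e2]
  show cl T e (θ, r, t) = cl T (G.τ (G.τ e)) (θ, r, t)
  rw [G.invol]

theorem NA_func {z a b : Σ v, M v} (h : NA T G z a) (h' : NA T G z b) : a = b := by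
  obtain ⟨e, θ, t, r, r', he, hr, rfl, rfl⟩ := h
  obtain ⟨e1, θ1, t1, r1, r1', he1, hr1, hz, rfl⟩ := h'
  obtain ⟨rfl, hw⟩ := cl_inj T (e := e) (e' := e1) hz
  simp only [Prod.mk.injEq] at hw
  obtain ⟨rfl, rfl, rfl⟩ := hw
  have : r' = r1' := Subtype.ext (by linarith)
  rw [this]

theorem NB_func {z : Σ v, M v} {a b : Tori G} (h : NB T G z a) (h' : NB T G z b) : a = b := by
  obtain ⟨⟨e, he⟩, a⟩ := a
  obtain ⟨⟨e', he'⟩, b⟩ := b
  obtain ⟨w, hz, ha⟩ := h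
  obtain ⟨w', hz', hb⟩ := h'
  rw [hz] at hz'
  obtain ⟨h1, h2⟩ := cl_inj T hz'
  simp only at h1
  subst h1
  subst h2
  simp only at ha hb
  rw [ha, hb]

theorem NAB {z a : Σ v, M v} {b : Tori G} (h : NA T G z a) (h' : NB T G z b) : False := by
  obtain ⟨e, θ, t, r, r', he, hr, hz, -⟩ := h
  obtain ⟨w, hz', -⟩ := h'
  rw [hz] at hz'
  obtain ⟨h1, -⟩ := cl_inj T (e := e) hz'
  apply he
  rw [h1]
  exact b.1.2

theorem NB_func' {z z' : Σ v, M v} {b : Tori G} (h : NB T G z b) (h' : NB T G z' b) :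
    z = z' := by
  obtain ⟨w, rfl, hb⟩ := h
  obtain ⟨w', rfl, hb'⟩ := h'
  rw [hb] at hb'
  rw [(psi_emb (G.det_fill b.1.1 b.1.2)).injective hb']

/-- the complementary radius, cut off at `c` -/
noncomputable def cmp (c : Ioo (1 : ℝ) 2) (r : Ioo (1 : ℝ) 2) : Ioo (1 : ℝ) 2 :=
  ⟨max (7 / 3 - r) c, lt_of_lt_of_le c.2.1 (le_max_right _ _),
    max_lt (by linarith [r.2.1]) c.2.2⟩

theorem cmp_cont (c : Ioo (1 : ℝ) 2) : Continuous (cmp c) := by
  unfold cmp
  fun_prop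

theorem NN_cont (x y : (Σ v, M v) ⊕ Tori G) (h : NN T G x y)
    (O : Set ((Σ v, M v) ⊕ Tori G)) (hO : O ∈ 𝓝 y) :
    ∀ᶠ x' in 𝓝 x, ∃ y' ∈ O, NN T G x' y' := by
  rcases x with z | b <;> rcases y with z' | b'
  · obtain ⟨e, θ, t, r, r', he, hr, rfl, rfl⟩ := h
    let c : Ioo (1 : ℝ) 2 := ⟨(1 + r') / 2, by linarith [r'.2.1], by linarith [r'.2.2]⟩
    have hc : (c : ℝ) < r' := by
      show (1 + (r' : ℝ)) / 2 < r'
      linarith [r'.2.1]
    let f : AddCircle (1 : ℝ) × Ioo (1 : ℝ) 2 × AddCircle (1 : ℝ) →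
        AddCircle (1 : ℝ) × Ioo (1 : ℝ) 2 × AddCircle (1 : ℝ) := fun w =>
      (G.al e • w.1 + G.be e • w.2.2, cmp c w.2.1, G.ga e • w.1 + G.de e • w.2.2)
    have hf : Continuous f := by
      have h1 := cmp_cont c
      show Continuous fun w : AddCircle (1 : ℝ) × Ioo (1 : ℝ) 2 × AddCircle (1 : ℝ) =>
        (G.al e • w.1 + G.be e • w.2.2, cmp c w.2.1, G.ga e • w.1 + G.de e • w.2.2)
      fun_prop
    have hcr : ∀ s : Ioo (1 : ℝ) 2, (s : ℝ) < 7 / 3 - c → (s : ℝ) + cmp c s = 7 / 3 := by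
      intro s hs
      show (s : ℝ) + max ((7 : ℝ) / 3 - (s : ℝ)) (c : ℝ) = 7 / 3
      rw [max_eq_left (by linarith)]
      ring
    have hf0 : f (θ, r, t) = (G.al e • θ + G.be e • t, r', G.ga e • θ + G.de e • t) := by
      have h1 := hcr r (by linarith)
      have h2 : cmp c r = r' := Subtype.ext (by linarith)
      show (_, cmp c r, _) = _
      rw [h2]
    have h1 : Continuous fun w => (Sum.inl (cl T (G.τ e) (f w)) : (Σ v, M v) ⊕ Tori G) :=
      continuous_inl.comp ((cl_emb T (G.τ e)).continuous.comp hf)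
    have h2 : ∀ᶠ w in 𝓝 (θ, r, t), (Sum.inl (cl T (G.τ e) (f w)) : (Σ v, M v) ⊕ Tori G) ∈ O := by
      apply h1.continuousAt.eventually_mem
      rw [hf0]
      exact hO
    have h3 : ∀ᶠ w : AddCircle (1 : ℝ) × Ioo (1 : ℝ) 2 × AddCircle (1 : ℝ) in 𝓝 (θ, r, t),
        (w.2.1 : ℝ) < 7 / 3 - c := by
      have h4 : Continuous fun w : AddCircle (1 : ℝ) × Ioo (1 : ℝ) 2 × AddCircle (1 : ℝ) =>
        (w.2.1 : ℝ) := by fun_prop
      exact h4.continuousAt.eventually_lt_const (by show (r : ℝ) < _; linarith)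
    have h5 : 𝓝 (Sum.inl (cl T e (θ, r, t)) : (Σ v, M v) ⊕ Tori G) =
        map (Sum.inl ∘ cl T e) (𝓝 (θ, r, t)) :=
      ((IsOpenEmbedding.inl.comp (cl_emb T e)).map_nhds_eq _).symm
    show ∀ᶠ x' in 𝓝 (Sum.inl (cl T e (θ, r, t)) : (Σ v, M v) ⊕ Tori G), _
    rw [h5, eventually_map]
    filter_upwards [h2, h3] with w hw2 hw3
    exact ⟨_, hw2, e, w.1, w.2.2, w.2.1, cmp c w.2.1, he, hcr _ hw3, rfl, rfl⟩
  · obtain ⟨⟨e, he⟩, b'⟩ := b'
    obtain ⟨w, rfl, hb⟩ := h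
    simp only at hb
    subst hb
    have h1 : Continuous fun w => (Sum.inr ⟨⟨e, he⟩, psi (G.al e) (G.be e) (G.ga e) (G.de e) w⟩ :
        (Σ v, M v) ⊕ Tori G) :=
      continuous_inr.comp (continuous_sigmaMk.comp (psi_emb (G.det_fill e he)).continuous)
    have h2 : ∀ᶠ w in 𝓝 w, (Sum.inr ⟨⟨e, he⟩, psi (G.al e) (G.be e) (G.ga e) (G.de e) w⟩ :
        (Σ v, M v) ⊕ Tori G) ∈ O := h1.continuousAt.eventually_mem hO
    have h5 : 𝓝 (Sum.inl (cl T e w) : (Σ v, M v) ⊕ Tori G) =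
        map (Sum.inl ∘ cl T e) (𝓝 w) :=
      ((IsOpenEmbedding.inl.comp (cl_emb T e)).map_nhds_eq _).symm
    show ∀ᶠ x' in 𝓝 (Sum.inl (cl T e w) : (Σ v, M v) ⊕ Tori G), _
    rw [h5, eventually_map]
    filter_upwards [h2] with w' hw'
    exact ⟨_, hw', w', rfl, rfl⟩
  · obtain ⟨⟨e, he⟩, b⟩ := b
    obtain ⟨w, rfl, hb⟩ := h
    simp only at hb
    subst hb
    have h1 : Continuous fun w => (Sum.inl (cl T e w) : (Σ v, M v) ⊕ Tori G) :=
      continuous_inl.comp (cl_emb T e).continuous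
    have h2 : ∀ᶠ w in 𝓝 w, (Sum.inl (cl T e w) : (Σ v, M v) ⊕ Tori G) ∈ O :=
      h1.continuousAt.eventually_mem hO
    have h6 : IsOpenEmbedding fun w => (Sum.inr ⟨⟨e, he⟩,
        psi (G.al e) (G.be e) (G.ga e) (G.de e) w⟩ : (Σ v, M v) ⊕ Tori G) :=
      IsOpenEmbedding.inr.comp ((IsOpenEmbedding.sigmaMk (i := (⟨e, he⟩ :
        {e : Σ v, J v // G.τ e = e}))).comp (psi_emb (G.det_fill e he)))
    have h5 := (h6.map_nhds_eq w).symm
    show ∀ᶠ x' in 𝓝 (Sum.inr ⟨⟨e, he⟩, psi (G.al e) (G.be e) (G.ga e) (G.de e) w⟩ :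
      (Σ v, M v) ⊕ Tori G), _
    rw [h5, eventually_map]
    filter_upwards [h2] with w' hw'
    exact ⟨_, hw', w', rfl, rfl⟩
  · exact h.elim

/-- the identifications -/
def RR0 : PRel ((Σ v, M v) ⊕ Tori G) where
  N := NN T G
  symm x y h := by
    rcases x with z | b <;> rcases y with z' | b'
    · exact NA_symm T G h
    · exact h
    · exact h
    · exact h
  func x y z h h' := by
    rcases x with x | x <;> rcases y with y | y <;> rcases z with z | z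
    · exact congrArg _ (NA_func T G h h')
    · exact (NAB T G h h').elim
    · exact (NAB T G h' h).elim
    · exact congrArg _ (NB_func T G h h')
    · exact congrArg _ (NB_func' T G h h')
    · exact h'.elim
    · exact h.elim
    · exact h.elim
  cont := NN_cont T G

theorem ExB_sep [∀ v, T2Space (M v)] [∀ v, Finite (J v)] (z : Σ v, M v) :
    ∃ U ∈ 𝓝 z, IsOpen U ∧ ∀ a ∈ U, ∀ b ∈ U, ¬ NA T G a b := by
  by_cases hz : ∃ e w, z = cl T e w
  · obtain ⟨e, w, rfl⟩ := hz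
    refine ⟨range (cl T e), (cl_emb T e).isOpen_range.mem_nhds ⟨w, rfl⟩,
      (cl_emb T e).isOpen_range, ?_⟩
    rintro _ ⟨w1, rfl⟩ _ ⟨w2, rfl⟩ ⟨e', θ, t, r, r', he, -, h1, h2⟩
    obtain ⟨h3, -⟩ := cl_inj T (e' := e') h1
    obtain ⟨h4, -⟩ := cl_inj T (e' := G.τ e') h2
    exact he (h4.symm.trans h3)
  · obtain ⟨v, m⟩ := z
    let C : J v → Set (M v) := fun j => (T v).tor j ''
      {w | 7 / 6 ≤ (w.2.1 : ℝ) ∧ (w.2.1 : ℝ) ≤ 4 / 3}
    have hK : ∀ j, IsClosed (C j) := by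
      intro j
      have h0 : IsCompact {r : Ioo (1 : ℝ) 2 | 7 / 6 ≤ (r : ℝ) ∧ (r : ℝ) ≤ 4 / 3} := by
        rw [Subtype.isCompact_iff]
        have h1 : (Subtype.val '' {r : Ioo (1 : ℝ) 2 | 7 / 6 ≤ (r : ℝ) ∧ (r : ℝ) ≤ 4 / 3}) =
            Icc (7 / 6 : ℝ) (4 / 3) := by
          ext s
          constructor
          · rintro ⟨r, hr, rfl⟩
            exact hr
          · intro hs
            exact ⟨⟨s, by linarith [hs.1], by linarith [hs.2]⟩, hs, rfl⟩
        rw [h1]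
        exact isCompact_Icc
      have h2 : IsCompact {w : AddCircle (1 : ℝ) × Ioo (1 : ℝ) 2 × AddCircle (1 : ℝ) |
          7 / 6 ≤ (w.2.1 : ℝ) ∧ (w.2.1 : ℝ) ≤ 4 / 3} := by
        have h3 := (isCompact_univ (X := AddCircle (1 : ℝ))).prod
          (h0.prod (isCompact_univ (X := AddCircle (1 : ℝ))))
        refine h3.of_isClosed_subset ?_ ?_
        · have h4 : Continuous fun w : AddCircle (1 : ℝ) × Ioo (1 : ℝ) 2 × AddCircle (1 : ℝ) =>
            (w.2.1 : ℝ) := by fun_prop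
          exact (isClosed_le continuous_const h4).inter (isClosed_le h4 continuous_const)
        · intro w hw
          exact ⟨mem_univ _, hw, mem_univ _⟩
      exact (h2.image ((T v).emb j).continuous).isClosed
    have hU : IsOpen (⋃ j, C j)ᶜ := (isClosed_iUnion_of_finite hK).isOpen_compl
    refine ⟨Sigma.mk v '' (⋃ j, C j)ᶜ, ?_, isOpenMap_sigmaMk _ hU, ?_⟩
    · refine (isOpenMap_sigmaMk _ hU).mem_nhds ⟨m, ?_, rfl⟩
      intro hm
      obtain ⟨j, w, -, hw⟩ := mem_iUnion.1 hm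
      exact hz ⟨⟨v, j⟩, w, by rw [← hw]; rfl⟩
    · have key : ∀ a ∈ Sigma.mk v '' (⋃ j, C j)ᶜ, ∀ (e : Σ v, J v) (w),
          a = cl T e w → 7 / 6 ≤ (w.2.1 : ℝ) → (w.2.1 : ℝ) ≤ 4 / 3 → False := by
        rintro _ ⟨m', hm', rfl⟩ ⟨v', j'⟩ w h1 h2 h3
        have h4 : v = v' := congrArg Sigma.fst h1
        subst h4
        have h5 : m' = (T v).tor j' w := eq_of_heq (Sigma.mk.inj h1).2
        exact hm' (mem_iUnion.2 ⟨j', w, ⟨h2, h3⟩, h5.symm⟩)
      rintro a ha b hb ⟨e, θ, t, r, r', he, hr, h1, h2⟩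
      rcases le_total (7 / 6 : ℝ) r with h | h
      · exact key a ha e _ h1 h (by
          show (r : ℝ) ≤ 4 / 3
          linarith [r'.2.1])
      · exact key b hb (G.τ e) _ h2 (by show (7 / 6 : ℝ) ≤ r'; linarith) (by
          show (r' : ℝ) ≤ 4 / 3
          linarith [r.2.1])

/-- **Existence of the glued manifold.** -/
theorem exists_union [∀ v, T2Space (M v)] [∀ v, Finite (J v)] :
    ∃ (Y : Type (max u1 u2 u3)) (_ : TopologicalSpace Y), Nonempty (Union T G Y) := by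
  have hmk : Continuous (Quotient.mk (RR0 T G).setoid) := continuous_quotient_mk'
  have hop := (RR0 T G).mk_open
  refine ⟨Quotient (RR0 T G).setoid, inferInstance, ⟨⟨fun z => Quotient.mk _ (Sum.inl z),
    fun e w => Quotient.mk _ (Sum.inr ⟨e, w⟩), ?_, ?_, ?_, ?_, ?_, ?_, ?_⟩⟩⟩
  · refine GlA_loc (hmk.comp continuous_inl) (hop.comp isOpenMap_inl) fun z => ?_
    obtain ⟨U, hU, hUo, hsep⟩ := ExB_sep T G z
    refine ⟨U, hU, hUo, fun a ha b hb h => ?_⟩
    rcases ((RR0 T G).mk_eq _ _).1 h with h | h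
    · exact Sum.inl_injective h
    · exact (hsep a ha b hb h).elim
  · intro z z'
    rw [(RR0 T G).mk_eq, Sum.inl_injective.eq_iff]
    exact Iff.rfl
  · intro e
    refine IsOpenEmbedding.of_continuous_injective_isOpenMap
      (hmk.comp (continuous_inr.comp continuous_sigmaMk)) ?_
      (hop.comp (isOpenMap_inr.comp isOpenMap_sigmaMk))
    intro a b h
    rcases ((RR0 T G).mk_eq _ _).1 h with h | h
    · have h1 := Sum.inr_injective h
      exact eq_of_heq (Sigma.mk.inj h1).2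
    · exact h.elim
  · intro e e' z w h
    rcases ((RR0 T G).mk_eq _ _).1 h with h | h
    · have h1 := Sum.inr_injective h
      exact congrArg Sigma.fst h1
    · exact h.elim
  · intro e θ t r
    refine ((RR0 T G).mk_eq _ _).2 (Or.inr ?_)
    exact ⟨(θ, r, t), rfl, rfl⟩
  · intro z e w h
    rcases ((RR0 T G).mk_eq _ _).1 h with h | h
    · exact absurd h Sum.inl_ne_inr
    · obtain ⟨w', h1, -⟩ := h
      exact ⟨w', h1⟩
  · intro y
    obtain ⟨x, rfl⟩ := Quotient.mk_surjective y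
    rcases x with z | ⟨e, w⟩
    · exact Or.inl ⟨z, rfl⟩
    · exact Or.inr ⟨e, w, rfl⟩

end

end Pool.Agent.H.MP_1611f1_gt.G
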