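import Pool.Agent.H.MP_1611f1_gt.G.ExB

/-!
Non-vacuity: the glued manifold is a Hausdorff space.
-/

namespace Pool.Agent.H.MP_1611f1_gt.G

open Topology Set Filter

section

variable {V : Type*} {M : V → Type*} [∀ v, TopologicalSpace (M v)] {J : V → Type*}
  {T : ∀ v, Ended (M v) (J v)} {G : Pattern (Σ v, J v)} {Y : Type*} [TopologicalSpace Y]
  (U : Union T G Y)

/-- equality of points over collars, in coordinates -/
theorem ExC_cl (e e' : Σ v, J v) (w w' : AddCircle (1 : ℝ) × Ioo (1 : ℝ) 2 × AddCircle (1 : ℝ)) :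
    U.p (cl T e w) = U.p (cl T e' w') ↔ (e = e' ∧ w = w') ∨
      (G.τ e ≠ e ∧ e' = G.τ e ∧ (w.2.1 : ℝ) + w'.2.1 = 7 / 3 ∧
        w'.1 = G.al e • w.1 + G.be e • w.2.2 ∧ w'.2.2 = G.ga e • w.1 + G.de e • w.2.2) := by
  rw [U.p_eq]
  constructor
  · rintro (h | ⟨e1, θ, t, r, r', he, hr, h1, h2⟩)
    · exact Or.inl (cl_inj T h)
    · obtain ⟨rfl, rfl⟩ := cl_inj T (e' := e1) h1
      obtain ⟨rfl, rfl⟩ := cl_inj T (e' := G.τ e) h2
      exact Or.inr ⟨he, rfl, hr, rfl, rfl⟩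
  · rintro (⟨rfl, rfl⟩ | ⟨he, rfl, hr, h1, h2⟩)
    · exact Or.inl rfl
    · obtain ⟨θ, r, t⟩ := w
      obtain ⟨θ', r', t'⟩ := w'
      simp only at hr h1 h2
      subst h1 h2
      exact Or.inr ⟨e, θ, t, r, r', he, hr, rfl, rfl⟩

theorem ExC_closed (e e' : Σ v, J v) :
    IsClosed {z : (AddCircle (1 : ℝ) × Ioo (1 : ℝ) 2 × AddCircle (1 : ℝ)) ×
      (AddCircle (1 : ℝ) × Ioo (1 : ℝ) 2 × AddCircle (1 : ℝ)) |
      U.p (cl T e z.1) = U.p (cl T e' z.2)} := by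
  have h0 : {z : (AddCircle (1 : ℝ) × Ioo (1 : ℝ) 2 × AddCircle (1 : ℝ)) ×
      (AddCircle (1 : ℝ) × Ioo (1 : ℝ) 2 × AddCircle (1 : ℝ)) |
      U.p (cl T e z.1) = U.p (cl T e' z.2)} =
      ({z | e = e'} ∩ {z | z.1 = z.2}) ∪
      ({z | G.τ e ≠ e ∧ e' = G.τ e} ∩ ({z | (z.1.2.1 : ℝ) + z.2.2.1 = 7 / 3} ∩
        ({z | z.2.1 = G.al e • z.1.1 + G.be e • z.1.2.2} ∩
          {z | z.2.2.2 = G.ga e • z.1.1 + G.de e • z.1.2.2}))) := by
    ext ⟨w, w'⟩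
    show U.p (cl T e w) = U.p (cl T e' w') ↔ _
    rw [ExC_cl]
    constructor
    · rintro (h | ⟨h1, h2, h3⟩)
      · exact Or.inl h
      · exact Or.inr ⟨⟨h1, h2⟩, h3⟩
    · rintro (h | ⟨⟨h1, h2⟩, h3⟩)
      · exact Or.inl h
      · exact Or.inr ⟨h1, h2, h3⟩
  rw [h0]
  refine (isClosed_const.inter (isClosed_eq continuous_fst continuous_snd)).union
    (isClosed_const.inter ((isClosed_eq ?_ ?_).inter ((isClosed_eq ?_ ?_).inter
      (isClosed_eq ?_ ?_)))) <;> fun_prop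

/-- two points of the pieces -/
theorem ExC_AA [∀ v, T2Space (M v)] [∀ v, Finite (J v)]
    (hcl : ∀ v j (ρ : ℝ), ρ < 2 → IsClosed ((T v).tor j '' {w | (w.2.1 : ℝ) ≤ ρ}))
    (a b : Σ v, M v) (h : U.p a ≠ U.p b) :
    ∀ᶠ z in 𝓝 (a, b), U.p z.1 ≠ U.p z.2 := by
  -- the deep parts
  let D : Set (Σ v, M v) := {a | ∃ j, ∃ w : AddCircle (1 : ℝ) × Ioo (1 : ℝ) 2 × AddCircle (1 : ℝ),
    (w.2.1 : ℝ) ≤ 4 / 3 ∧ a.2 = (T a.1).tor j w}
  have hD : IsClosed D := by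
    rw [isClosed_sigma_iff]
    intro v
    have h1 : Sigma.mk v ⁻¹' D = ⋃ j, (T v).tor j '' {w | (w.2.1 : ℝ) ≤ 4 / 3} := by
      ext m
      simp only [mem_preimage, mem_iUnion, mem_image]
      constructor
      · rintro ⟨j, w, hw, h⟩
        exact ⟨j, w, hw, h.symm⟩
      · rintro ⟨j, w, hw, h⟩
        exact ⟨j, w, hw, h.symm⟩
    rw [h1]
    exact isClosed_iUnion_of_finite fun j => hcl v j (4 / 3) (by norm_num)
  have hpair : ∀ z z' : Σ v, M v, U.p z = U.p z' → z ≠ z' → z ∈ D ∧ z' ∈ D := by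
    intro z z' hzz hne
    rcases (U.p_eq z z').1 hzz with h1 | ⟨e, θ, t, r, r', he, hr, rfl, rfl⟩
    · exact absurd h1 hne
    · exact ⟨⟨e.2, _, by show (r : ℝ) ≤ 4 / 3; linarith [r'.2.1], rfl⟩,
        ⟨(G.τ e).2, _, by show (r' : ℝ) ≤ 4 / 3; linarith [r.2.1], rfl⟩⟩
  have hab : a ≠ b := fun h' => h (by rw [h'])
  have hne : ∀ᶠ z in 𝓝 (a, b), z.1 ≠ z.2 :=
    (isOpen_ne_fun continuous_fst continuous_snd).mem_nhds hab
  by_cases ha : a ∈ D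
  · by_cases hb : b ∈ D
    · have hDcl : ∀ a ∈ D, ∃ e w, a = cl T e w := by
        rintro ⟨v, m⟩ ⟨j, w, -, h⟩
        exact ⟨⟨v, j⟩, w, Sigma.ext rfl (heq_of_eq h)⟩
      obtain ⟨ea, wa, rfl⟩ := hDcl a ha
      obtain ⟨eb, wb, rfl⟩ := hDcl b hb
      have h1 : 𝓝 ((cl T ea wa, cl T eb wb) : (Σ v, M v) × (Σ v, M v)) =
          map (Prod.map (cl T ea) (cl T eb)) (𝓝 (wa, wb)) :=
        (((cl_emb T ea).prodMap (cl_emb T eb)).map_nhds_eq (wa, wb)).symm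
      rw [h1, eventually_map]
      exact (ExC_closed U ea eb).isOpen_compl.mem_nhds h
    · have h2 : ∀ᶠ z in 𝓝 (a, b), z.2 ∉ D :=
        (hD.isOpen_compl.preimage continuous_snd).mem_nhds hb
      filter_upwards [hne, h2] with z h3 h4 h5
      exact h4 (hpair _ _ h5 h3).2
  · have h2 : ∀ᶠ z in 𝓝 (a, b), z.1 ∉ D :=
      (hD.isOpen_compl.preimage continuous_fst).mem_nhds ha
    filter_upwards [hne, h2] with z h3 h4 h5
    exact h4 (hpair _ _ h5 h3).1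

/-- a point of a piece and a point of a solid torus -/
theorem ExC_pq (z : Σ v, M v) (e : {e : Σ v, J v // G.τ e = e})
    (w : Metric.ball (0 : ℂ) 2 × AddCircle (1 : ℝ)) :
    U.p z = U.q e w ↔ ∃ w', z = cl T e.1 w' ∧
      w = psi (G.al e.1) (G.be e.1) (G.ga e.1) (G.de e.1) w' := by
  constructor
  · intro h
    obtain ⟨⟨θ, r, t⟩, rfl⟩ := U.overlap z e w h
    rw [U.glue] at h
    exact ⟨(θ, r, t), rfl, ((U.q_emb e).injective h).symm⟩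
  · rintro ⟨⟨θ, r, t⟩, rfl, rfl⟩
    exact U.glue e θ t r

theorem ExC_AB [∀ v, T2Space (M v)]
    (hcl : ∀ v j (ρ : ℝ), ρ < 2 → IsClosed ((T v).tor j '' {w | (w.2.1 : ℝ) ≤ ρ}))
    (a : Σ v, M v) (b : Tori G) (h : U.p a ≠ U.q b.1 b.2) :
    ∀ᶠ z : (Σ v, M v) × Tori G in 𝓝 (a, b), U.p z.1 ≠ U.q z.2.1 z.2.2 := by
  obtain ⟨e, b⟩ := b
  have hb : 𝓝 ((a, ⟨e, b⟩) : (Σ v, M v) × Tori G) = 𝓝 a ×ˢ map (Sigma.mk e) (𝓝 b) := by
    rw [nhds_prod_eq]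
    have h0 : 𝓝 (⟨e, b⟩ : Tori G) = map (Sigma.mk e) (𝓝 b) := Sigma.nhds_mk _ _
    rw [h0]
  by_cases ha : ∃ w, a = cl T e.1 w
  · obtain ⟨w, rfl⟩ := ha
    have h1 : psi (G.al e.1) (G.be e.1) (G.ga e.1) (G.de e.1) w ≠ b := by
      intro h1
      exact h ((ExC_pq U _ _ _).2 ⟨w, rfl, h1.symm⟩)
    have h2 : ∀ᶠ z : (AddCircle (1 : ℝ) × Ioo (1 : ℝ) 2 × AddCircle (1 : ℝ)) ×
        (Metric.ball (0 : ℂ) 2 × AddCircle (1 : ℝ)) in 𝓝 (w, b),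
        psi (G.al e.1) (G.be e.1) (G.ga e.1) (G.de e.1) z.1 ≠ z.2 :=
      (isOpen_ne_fun ((psi_emb (G.det_fill e.1 e.2)).continuous.comp continuous_fst)
        continuous_snd).mem_nhds h1
    rw [hb, ← (cl_emb T e.1).map_nhds_eq w, prod_map_map_eq, eventually_map, ← nhds_prod_eq]
    filter_upwards [h2] with z hz hz'
    obtain ⟨w', h3, h4⟩ := (ExC_pq U _ _ _).1 hz'
    obtain ⟨-, h5⟩ := cl_inj T h3
    rw [← h5] at h4
    exact hz h4.symm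
  · obtain ⟨ρ, h1, h2⟩ := exists_between (mem_ball_zero_iff.1 b.1.2)
    have h3 : IsClosed (cl T e.1 '' {w | (w.2.1 : ℝ) ≤ ρ}) := by
      have h4 : cl T e.1 '' {w | (w.2.1 : ℝ) ≤ ρ} =
          Sigma.mk e.1.1 '' ((T e.1.1).tor e.1.2 '' {w | (w.2.1 : ℝ) ≤ ρ}) := by
        rw [image_image]
        rfl
      rw [h4]
      exact IsClosedEmbedding.sigmaMk.isClosedMap _ (hcl _ _ ρ h2)
    have h5 : ∀ᶠ z in 𝓝 a, z ∉ cl T e.1 '' {w | (w.2.1 : ℝ) ≤ ρ} := by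
      refine h3.isOpen_compl.mem_nhds ?_
      rintro ⟨w, -, hw⟩
      exact ha ⟨w, hw.symm⟩
    have h6 : ∀ᶠ b' : Metric.ball (0 : ℂ) 2 × AddCircle (1 : ℝ) in 𝓝 b, ‖(b'.1 : ℂ)‖ < ρ := by
      have h7 : Continuous fun b' : Metric.ball (0 : ℂ) 2 × AddCircle (1 : ℝ) =>
        ‖(b'.1 : ℂ)‖ := by fun_prop
      exact h7.continuousAt.eventually_lt_const h1
    have h8 : ∀ᶠ z : (Σ v, M v) × (Metric.ball (0 : ℂ) 2 × AddCircle (1 : ℝ)) in 𝓝 a ×ˢ 𝓝 b,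
        U.p z.1 ≠ U.q e z.2 := by
      filter_upwards [h5.prod_inl (𝓝 b), h6.prod_inr (𝓝 a)] with z hz1 hz2 hz3
      obtain ⟨w, h9, h10⟩ := (ExC_pq U _ _ _).1 hz3
      refine hz1 ⟨w, ?_, h9.symm⟩
      rw [h10] at hz2
      have h11 : ‖((psi (G.al e.1) (G.be e.1) (G.ga e.1) (G.de e.1) w).1 : ℂ)‖ = w.2.1 :=
        ExA_norm _ _
      rw [h11] at hz2
      exact hz2.le
    rw [hb]
    have h12 : 𝓝 a ×ˢ map (Sigma.mk e) (𝓝 b) =
        map (Prod.map id (Sigma.mk (β := fun _ : {e : Σ v, J v // G.τ e = e} =>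
          Metric.ball (0 : ℂ) 2 × AddCircle (1 : ℝ)) e)) (𝓝 a ×ˢ 𝓝 b) := by
      have h13 := Filter.prod_map_map_eq' id (Sigma.mk (β := fun _ : {e : Σ v, J v // G.τ e = e} =>
          Metric.ball (0 : ℂ) 2 × AddCircle (1 : ℝ)) e) (𝓝 a) (𝓝 b)
      rw [map_id] at h13
      exact h13
    rw [h12, eventually_map]
    exact h8

theorem ExC_BB (b b' : Tori G) (h : U.q b.1 b.2 ≠ U.q b'.1 b'.2) :
    ∀ᶠ z : Tori G × Tori G in 𝓝 (b, b'), U.q z.1.1 z.1.2 ≠ U.q z.2.1 z.2.2 := by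
  have h1 : b ≠ b' := fun h' => h (by rw [h'])
  have h2 : ∀ᶠ z : Tori G × Tori G in 𝓝 (b, b'), z.1 ≠ z.2 :=
    (isOpen_ne_fun continuous_fst continuous_snd).mem_nhds h1
  filter_upwards [h2] with z hz hz'
  obtain ⟨⟨e, w⟩, ⟨e', w'⟩⟩ := z
  have h3 : e = e' := U.q_disj _ _ _ _ hz'
  subst h3
  have h4 : w = w' := (U.q_emb e).injective hz'
  exact hz (by rw [h4])

include U in
/-- **The glued manifold is Hausdorff** if the collars are closed. -/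
theorem Union.t2 [∀ v, T2Space (M v)] [∀ v, Finite (J v)]
    (hcl : ∀ v j (ρ : ℝ), ρ < 2 → IsClosed ((T v).tor j '' {w | (w.2.1 : ℝ) ≤ ρ})) :
    T2Space Y := by
  let π : (Σ v, M v) ⊕ Tori G → Y := Sum.elim U.p fun b => U.q b.1 b.2
  have hB : Continuous fun b : Tori G => U.q b.1 b.2 :=
    continuous_sigma fun e => (U.q_emb e).continuous
  have hBo : IsOpenMap fun b : Tori G => U.q b.1 b.2 :=
    isOpenMap_sigma.2 fun e => (U.q_emb e).isOpenMap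
  have hπ : IsOpenQuotientMap π := by
    refine ⟨fun y => ?_, U.p_loc.continuous.sumElim hB, U.p_loc.isOpenMap.sumElim hBo⟩
    rcases U.cover y with ⟨z, hz⟩ | ⟨e, z, hz⟩
    · exact ⟨Sum.inl z, hz⟩
    · exact ⟨Sum.inr ⟨e, z⟩, hz⟩
  rw [t2Space_iff_of_isOpenQuotientMap hπ, ← isOpen_compl_iff, isOpen_iff_mem_nhds]
  rintro ⟨x | x, y | y⟩ hxy
  · have h1 := ExC_AA U hcl x y hxy
    have h2 := (IsOpenEmbedding.inl (X := Σ v, M v) (Y := Tori G)).prodMap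
      (IsOpenEmbedding.inl (X := Σ v, M v) (Y := Tori G))
    have h3 := h2.map_nhds_eq (x, y)
    rw [← show Prod.map Sum.inl Sum.inl (x, y) = ((Sum.inl x : (Σ v, M v) ⊕ Tori G),
      (Sum.inl y : (Σ v, M v) ⊕ Tori G)) from rfl, ← h3]
    exact h1
  · have h1 := ExC_AB U hcl x y hxy
    have h2 := (IsOpenEmbedding.inl (X := Σ v, M v) (Y := Tori G)).prodMap
      (IsOpenEmbedding.inr (X := Σ v, M v) (Y := Tori G))
    have h3 := h2.map_nhds_eq (x, y)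
    rw [← show Prod.map Sum.inl Sum.inr (x, y) = ((Sum.inl x : (Σ v, M v) ⊕ Tori G),
      (Sum.inr y : (Σ v, M v) ⊕ Tori G)) from rfl, ← h3]
    exact h1
  · have h1 := ExC_AB U hcl y x (Ne.symm hxy)
    have h2 := (IsOpenEmbedding.inr (X := Σ v, M v) (Y := Tori G)).prodMap
      (IsOpenEmbedding.inl (X := Σ v, M v) (Y := Tori G))
    have h3 := h2.map_nhds_eq (x, y)
    rw [← show Prod.map Sum.inr Sum.inl (x, y) = ((Sum.inr x : (Σ v, M v) ⊕ Tori G),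
      (Sum.inl y : (Σ v, M v) ⊕ Tori G)) from rfl, ← h3]
    have h4 : Tendsto (Prod.swap : Tori G × (Σ v, M v) → _) (𝓝 (x, y)) (𝓝 (y, x)) :=
      continuous_swap.continuousAt
    exact (h4.eventually h1).mono fun z hz => Ne.symm hz
  · have h1 := ExC_BB U x y hxy
    have h2 := (IsOpenEmbedding.inr (X := Σ v, M v) (Y := Tori G)).prodMap
      (IsOpenEmbedding.inr (X := Σ v, M v) (Y := Tori G))
    have h3 := h2.map_nhds_eq (x, y)
    rw [← show Prod.map Sum.inr Sum.inr (x, y) = ((Sum.inr x : (Σ v, M v) ⊕ Tori G),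
      (Sum.inr y : (Σ v, M v) ⊕ Tori G)) from rfl, ← h3]
    exact h1

end

end Pool.Agent.H.MP_1611f1_gt.G
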