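import Pool.Agent.H.MP_1611f1_gt.G.Glue
import Pool.Agent.H.MP_1611f1_gt.G.Rev

/-!
Gluing along a forest: only the slopes have to agree, the co-orientations can be repaired.
-/

namespace Pool.Agent.H.MP_1611f1_gt.G

open Topology Set Filter

/-- The graph of a gluing pattern (the vertices are the pieces, the edges are the glued pairs of
ends) has no cycles: for some rank function the two pieces at a glued pair of ends have
different ranks, and every piece has at most one end glued to a piece of smaller rank. -/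
def Pattern.Forest {V : Type*} {J : V → Type*} (G : Pattern (Σ v, J v)) : Prop :=
  ∃ ρ : V → ℕ, (∀ e, G.τ e ≠ e → ρ (G.τ e).1 ≠ ρ e.1) ∧
    ∀ v (i j : J v), G.τ ⟨v, i⟩ ≠ ⟨v, i⟩ → G.τ ⟨v, j⟩ ≠ ⟨v, j⟩ →
      ρ (G.τ ⟨v, i⟩).1 < ρ v → ρ (G.τ ⟨v, j⟩).1 < ρ v → i = j

/-- on a forest every sign function on the glued pairs is a coboundary -/
theorem Pattern.Forest.signs {V : Type*} {J : V → Type*} {G : Pattern (Σ v, J v)}
    (hF : G.Forest) (χ : (Σ v, J v) → ℝ) (hχ : ∀ e, χ e = 1 ∨ χ e = -1)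
    (hs : ∀ e, χ (G.τ e) = χ e) :
    ∃ ε : V → ℝ, (∀ v, ε v = 1 ∨ ε v = -1) ∧
      ∀ e, G.τ e ≠ e → ε e.1 = χ e * ε (G.τ e).1 := by
  classical
  obtain ⟨ρ, h1, h2⟩ := hF
  let wf : WellFounded fun a b : V => ρ a < ρ b := InvImage.wf ρ wellFounded_lt
  let ε : V → ℝ := wf.fix fun v rec =>
    if h : ∃ j, G.τ ⟨v, j⟩ ≠ ⟨v, j⟩ ∧ ρ (G.τ ⟨v, j⟩).1 < ρ v then
      χ ⟨v, h.choose⟩ * rec (G.τ ⟨v, h.choose⟩).1 h.choose_spec.2 else 1
  have hε : ∀ v, ε v = if h : ∃ j, G.τ ⟨v, j⟩ ≠ ⟨v, j⟩ ∧ ρ (G.τ ⟨v, j⟩).1 < ρ v then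
      χ ⟨v, h.choose⟩ * ε (G.τ ⟨v, h.choose⟩).1 else 1 := fun v => wf.fix_eq _ v
  have key : ∀ e, G.τ e ≠ e → ρ (G.τ e).1 < ρ e.1 → ε e.1 = χ e * ε (G.τ e).1 := by
    rintro ⟨v, j⟩ he hr
    have h : ∃ j, G.τ ⟨v, j⟩ ≠ ⟨v, j⟩ ∧ ρ (G.τ ⟨v, j⟩).1 < ρ v := ⟨j, he, hr⟩
    have e1 := hε v
    rw [dif_pos h] at e1
    have e2 : h.choose = j := h2 v _ _ h.choose_spec.1 he h.choose_spec.2 hr
    rw [e2] at e1
    exact e1
  refine ⟨ε, fun v => ?_, fun e he => ?_⟩
  · induction v using wf.induction with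
    | _ v ih =>
      rw [hε v]
      by_cases h : ∃ j, G.τ ⟨v, j⟩ ≠ ⟨v, j⟩ ∧ ρ (G.τ ⟨v, j⟩).1 < ρ v
      · rw [dif_pos h]
        rcases hχ ⟨v, h.choose⟩ with h3 | h3 <;>
          rcases ih (G.τ ⟨v, h.choose⟩).1 h.choose_spec.2 with h4 | h4 <;> rw [h3, h4] <;> norm_num
      · rw [dif_neg h]
        exact Or.inl rfl
  · rcases lt_or_gt_of_ne (h1 e he) with hr | hr
    · exact key e he hr
    · have he' : G.τ (G.τ e) ≠ G.τ e := by
        rw [G.invol]
        exact fun h => he h.symm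
      have h3 := key (G.τ e) he' (by rw [G.invol]; exact hr)
      rw [G.invol, hs] at h3
      rw [h3, ← mul_assoc]
      rcases hχ e with h4 | h4 <;> rw [h4] <;> ring

/-- **Gluing along a forest.** The covectors have to agree only up to nonzero factors, and the
pieces are foliated with the covectors up to signs (which may be different at the ends of one
piece). -/
theorem glue_taut_forest {V : Type*} {M : V → Type*} [∀ v, TopologicalSpace (M v)] {J : V → Type*}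
    (T : ∀ v, Ended (M v) (J v)) (G : Pattern (Σ v, J v)) (hF : G.Forest)
    {Y : Type*} [TopologicalSpace Y] (U : Union T G Y) (x y : (Σ v, J v) → ℝ)
    (hne : ∀ e, x e ≠ 0 ∨ y e ≠ 0)
    (hdet : ∀ v, ∃ κ : J v → ℝ, (∀ j, κ j = 1 ∨ κ j = -1) ∧
      Detected (T v) (fun j => κ j * x ⟨v, j⟩) (fun j => κ j * y ⟨v, j⟩))
    (hglue : ∀ e, G.τ e ≠ e → ∃ m : ℝ, m ≠ 0 ∧
      m * x e = G.al e * x (G.τ e) + G.ga e * y (G.τ e) ∧
      m * y e = G.be e * x (G.τ e) + G.de e * y (G.τ e))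
    (hfill : ∀ e, G.τ e = e → ∃ c : ℝ, c ≠ 0 ∧ x e = c * G.ga e ∧ y e = c * G.de e) :
    ∃ F : Foliation Y, F.Taut := by
  classical
  choose κ hκ hdet using hdet
  have hm' : ∀ e, ∃ m : ℝ, m ≠ 0 ∧ (G.τ e = e → m = 1) ∧ (G.τ e ≠ e →
      m * x e = G.al e * x (G.τ e) + G.ga e * y (G.τ e) ∧
      m * y e = G.be e * x (G.τ e) + G.de e * y (G.τ e)) := by
    intro e
    by_cases he : G.τ e = e
    · exact ⟨1, one_ne_zero, fun _ => rfl, fun h => absurd he h⟩
    · obtain ⟨m, h1, h2⟩ := hglue e he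
      exact ⟨m, h1, fun h => absurd h he, fun _ => h2⟩
  choose m hm0 hm1 hm using hm'
  -- the factors of the two ends are inverse
  have hmm : ∀ e, m e * m (G.τ e) = 1 := by
    intro e
    by_cases he : G.τ e = e
    · rw [he, hm1 e he, mul_one]
    · have he' : G.τ (G.τ e) ≠ G.τ e := by
        rw [G.invol]
        exact fun h => he h.symm
      obtain ⟨a1, a2⟩ := hm e he
      obtain ⟨b1, b2⟩ := hm (G.τ e) he'
      obtain ⟨c1, c2, c3, c4⟩ := G.mat e he
      rw [G.invol, c1, c3] at b1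
      rw [G.invol, c2, c4] at b2
      push_cast at b1 b2
      have hd : (G.al e * G.de e - G.be e * G.ga e : ℝ) = -1 := by
        exact_mod_cast G.det_glue e he
      have d1 : m e * m (G.τ e) * x e = x e := by
        linear_combination (m (G.τ e)) * a1 + (G.al e : ℝ) * b1 + (G.ga e : ℝ) * b2 - x e * hd
      have d2 : m e * m (G.τ e) * y e = y e := by
        linear_combination (m (G.τ e)) * a2 + (G.be e : ℝ) * b1 + (G.de e : ℝ) * b2 - y e * hd
      rcases hne e with h | h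
      · exact mul_right_cancel₀ h (by rw [d1, one_mul])
      · exact mul_right_cancel₀ h (by rw [d2, one_mul])
  -- signs
  let sg : ℝ → ℝ := fun a => if 0 < a then 1 else -1
  have hsg : ∀ a, sg a = 1 ∨ sg a = -1 := by
    intro a
    by_cases h : 0 < a
    · exact Or.inl (if_pos h)
    · exact Or.inr (if_neg h)
  have hsg1 : ∀ a : ℝ, a ≠ 0 → a = sg a * |a| := by
    intro a ha
    by_cases h : 0 < a
    · simp only [sg, if_pos h, one_mul, abs_of_pos h]
    · have h1 : a < 0 := lt_of_le_of_ne (not_lt.1 h) ha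
      simp only [sg, if_neg h, abs_of_neg h1]
      ring
  have hsgm : ∀ e, sg (m (G.τ e)) = sg (m e) := by
    intro e
    have h := hmm e
    by_cases h1 : 0 < m e
    · have h2 : 0 < m (G.τ e) := by
        by_contra h3
        have := mul_nonpos_of_nonneg_of_nonpos h1.le (not_lt.1 h3)
        linarith
      simp only [sg, if_pos h1, if_pos h2]
    · have h2 : ¬ 0 < m (G.τ e) := by
        intro h3
        have := mul_nonpos_of_nonpos_of_nonneg (not_lt.1 h1) h3.le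
        linarith
      simp only [sg, if_neg h1, if_neg h2]
  have hpm : ∀ a b : ℝ, (a = 1 ∨ a = -1) → (b = 1 ∨ b = -1) → (a * b = 1 ∨ a * b = -1) := by
    rintro a b (rfl | rfl) (rfl | rfl) <;> norm_num
  obtain ⟨ε, hε, hεχ⟩ := hF.signs (fun e => κ e.1 e.2 * κ (G.τ e).1 (G.τ e).2 * sg (m e))
    (fun e => hpm _ _ (hpm _ _ (hκ _ _) (hκ _ _)) (hsg _))
    (fun e => by
      show κ (G.τ e).1 (G.τ e).2 * κ (G.τ (G.τ e)).1 (G.τ (G.τ e)).2 * sg (m (G.τ e)) = _
      rw [G.invol, hsgm]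
      ring)
  -- the covectors
  let l : (Σ v, J v) → ℝ := fun e => ε e.1 * κ e.1 e.2 * Real.sqrt |m e|
  have hsq : ∀ a : ℝ, (a = 1 ∨ a = -1) → a * a = 1 := by
    rintro a (rfl | rfl) <;> norm_num
  have hne0 : ∀ a : ℝ, (a = 1 ∨ a = -1) → a ≠ 0 := by
    rintro a (rfl | rfl) <;> norm_num
  have hl0 : ∀ e, l e ≠ 0 := fun e =>
    mul_ne_zero (mul_ne_zero (hne0 _ (hε _)) (hne0 _ (hκ _ _)))
      (Real.sqrt_ne_zero'.2 (abs_pos.2 (hm0 e)))
  have hl : ∀ e, G.τ e ≠ e → l e = l (G.τ e) * m e := by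
    intro e he
    have h1 := hεχ e he
    have h2 : Real.sqrt |m (G.τ e)| * |m e| = Real.sqrt |m e| := by
      have h3 : |m e| = Real.sqrt |m e| * Real.sqrt |m e| := (Real.mul_self_sqrt (abs_nonneg _)).symm
      have h4 : Real.sqrt |m e| * Real.sqrt |m (G.τ e)| = 1 := by
        rw [← Real.sqrt_mul (abs_nonneg _), ← abs_mul, hmm, abs_one, Real.sqrt_one]
      calc Real.sqrt |m (G.τ e)| * |m e|
          = (Real.sqrt |m e| * Real.sqrt |m (G.τ e)|) * Real.sqrt |m e| := by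
            rw [h3]; simp only [Real.sqrt_mul_self (Real.sqrt_nonneg _)]; ring
        _ = Real.sqrt |m e| := by rw [h4, one_mul]
    have h5 : κ e.1 e.2 * κ e.1 e.2 = 1 := hsq _ (hκ _ _)
    show ε e.1 * κ e.1 e.2 * Real.sqrt |m e| =
      ε (G.τ e).1 * κ (G.τ e).1 (G.τ e).2 * Real.sqrt |m (G.τ e)| * m e
    rw [h1]
    have h6 := hsg1 (m e) (hm0 e)
    calc κ e.1 e.2 * κ (G.τ e).1 (G.τ e).2 * sg (m e) * ε (G.τ e).1 * κ e.1 e.2 * Real.sqrt |m e|
        = (κ e.1 e.2 * κ e.1 e.2) * (ε (G.τ e).1 * κ (G.τ e).1 (G.τ e).2) * sg (m e) *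
            (Real.sqrt |m (G.τ e)| * |m e|) := by rw [h2]; ring
      _ = ε (G.τ e).1 * κ (G.τ e).1 (G.τ e).2 * Real.sqrt |m (G.τ e)| * (sg (m e) * |m e|) := by
          rw [h5]; ring
      _ = _ := by rw [← h6]
  refine glue_taut T G U (fun e => l e * x e) (fun e => l e * y e) (fun v => ?_) (fun e he => ?_)
    (fun e he => ?_)
  · refine (hdet v).sign (hε v) _ _ fun j => ⟨ε v * Real.sqrt |m ⟨v, j⟩|, ?_, ?_, ?_⟩
    · rw [← mul_assoc, hsq _ (hε v), one_mul]
      exact Real.sqrt_pos.2 (abs_pos.2 (hm0 _))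
    · show ε v * κ v j * Real.sqrt |m ⟨v, j⟩| * x ⟨v, j⟩ = _
      ring
    · show ε v * κ v j * Real.sqrt |m ⟨v, j⟩| * y ⟨v, j⟩ = _
      ring
  · obtain ⟨a1, a2⟩ := hm e he
    have h := hl e he
    constructor
    · show l e * x e = G.al e * (l (G.τ e) * x (G.τ e)) + G.ga e * (l (G.τ e) * y (G.τ e))
      rw [h]
      linear_combination (l (G.τ e)) * a1
    · show l e * y e = G.be e * (l (G.τ e) * x (G.τ e)) + G.de e * (l (G.τ e) * y (G.τ e))
      rw [h]
      linear_combination (l (G.τ e)) * a2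
  · obtain ⟨c, hc, h1, h2⟩ := hfill e he
    refine ⟨l e * c, mul_ne_zero (hl0 e) hc, ?_, ?_⟩
    · show l e * x e = _
      rw [h1]
      ring
    · show l e * y e = _
      rw [h2]
      ring

end Pool.Agent.H.MP_1611f1_gt.G
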