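import Pool.Agent.H.MP_1611f1_gt.G.Ended
import Pool.Agent.H.MP_1611f1_gt.TauA

/-!
The gluing theorem: charts.
-/

namespace Pool.Agent.H.MP_1611f1_gt.G

open Topology Set Filter

/-- pushing a chart forward by a local homeomorphism -/
theorem exists_push {X Y Z : Type*} [TopologicalSpace X] [TopologicalSpace Y] [TopologicalSpace Z]
    [Nonempty X] {P : X → Y} (hP : IsLocalHomeomorph P) (c : OpenPartialHomeomorph X Z)
    {W : Set X} (hW : IsOpen W) (hWc : W ⊆ c.source) (hinj : InjOn P W) :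
    ∃ C : OpenPartialHomeomorph Y Z, C.source = P '' W ∧ ∀ z ∈ W, C (P z) = c z := by
  let e1 : OpenPartialHomeomorph X Y :=
    OpenPartialHomeomorph.ofContinuousOpen (hinj.toPartialEquiv P W)
      hP.continuous.continuousOn hP.isOpenMap hW
  have he1 : ∀ z, e1 z = P z := fun z => rfl
  have he1s : e1.source = W := rfl
  have he1t : e1.target = P '' W := rfl
  refine ⟨e1.symm.trans c, ?_, ?_⟩
  · rw [OpenPartialHomeomorph.trans_source, OpenPartialHomeomorph.symm_source, he1t]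
    apply inter_eq_left.mpr
    intro y hy
    rw [mem_preimage]
    exact hWc (he1s ▸ e1.map_target (he1t ▸ hy))
  · intro z hz
    rw [OpenPartialHomeomorph.coe_trans, Function.comp_apply, ← he1 z,
      e1.left_inv (he1s ▸ hz)]

section

variable {V : Type*} {M : V → Type*} [∀ v, TopologicalSpace (M v)] {J : V → Type*}
  {T : ∀ v, Ended (M v) (J v)} {G : Pattern (Σ v, J v)} {Y : Type*} [TopologicalSpace Y]
  (U : Union T G Y)

/-- the map of one piece -/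
def pv (v : V) (m : M v) : Y := U.p ⟨v, m⟩

theorem pv_loc (v : V) : IsLocalHomeomorph (pv U v) :=
  U.p_loc.comp (IsOpenEmbedding.sigmaMk (i := v)).isLocalHomeomorph

theorem pv_cont (v : V) : Continuous (pv U v) := (pv_loc U v).continuous

theorem pv_open (v : V) : IsOpenMap (pv U v) := (pv_loc U v).isOpenMap

/-- the collars in `Y` in real coordinates -/
def RR (e : Σ v, J v) (z : ℝ × Ioo (1 : ℝ) 2 × ℝ) : Y := pv U e.1 ((T e.1).cov e.2 z)

theorem cov_cont {M : Type*} [TopologicalSpace M] {J : Type*} (T : Ended M J) (j : J) :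
    Continuous (T.cov j) := by
  refine (T.emb j).continuous.comp ?_
  exact ((AddCircle.continuous_mk' (1 : ℝ)).comp continuous_fst).prodMk
    ((continuous_fst.comp continuous_snd).prodMk
      ((AddCircle.continuous_mk' (1 : ℝ)).comp (continuous_snd.comp continuous_snd)))

theorem cov_open {M : Type*} [TopologicalSpace M] {J : Type*} (T : Ended M J) (j : J) :
    IsOpenMap (T.cov j) := by
  have h0 : IsOpenMap (fun u : ℝ => (u : AddCircle (1 : ℝ))) :=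
    QuotientAddGroup.isOpenMap_coe (N := AddSubgroup.zmultiples (1 : ℝ))
  exact (T.emb j).isOpenMap.comp (h0.prodMap (IsOpenMap.id.prodMap h0))

theorem RR_cont (e : Σ v, J v) : Continuous (RR U e) := (pv_cont U e.1).comp (cov_cont _ _)

theorem RR_open (e : Σ v, J v) : IsOpenMap (RR U e) := (pv_open U e.1).comp (cov_open _ _)

/-- the points over the collars determine the end and the coordinates -/
theorem tor_inj {e e' : Σ v, J v} {w w' : AddCircle (1 : ℝ) × Ioo (1 : ℝ) 2 × AddCircle (1 : ℝ)}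
    (h : (⟨e.1, (T e.1).tor e.2 w⟩ : Σ v, M v) = ⟨e'.1, (T e'.1).tor e'.2 w'⟩) :
    e = e' ∧ w = w' := by
  obtain ⟨v, j⟩ := e
  obtain ⟨v', j'⟩ := e'
  have h1 : v = v' := congrArg Sigma.fst h
  subst h1
  have h2 : (T v).tor j w = (T v).tor j' w' := eq_of_heq (Sigma.mk.inj h).2
  have h3 : j = j' := (T v).disj _ _ _ _ h2
  subst h3
  exact ⟨rfl, ((T v).emb j).injective h2⟩

variable (F : ∀ v, Foliation (M v)) (κ : (Σ v, J v) → ℝ)

/-- charts from the pieces -/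
def IsA (C : OpenPartialHomeomorph Y ((ℝ × ℝ) × ℝ)) : Prop :=
  ∃ (v : V) (c : OpenPartialHomeomorph (M v) ((ℝ × ℝ) × ℝ)) (W : Set (M v)),
    c ∈ (F v).charts ∧ IsOpen W ∧ W ⊆ c.source ∧ C.source = pv U v '' W ∧
      ∀ m ∈ W, C (pv U v m) = c m

/-- charts in the solid tori -/
def IsB (C : OpenPartialHomeomorph Y ((ℝ × ℝ) × ℝ)) : Prop :=
  ∃ (e : {e : Σ v, J v // G.τ e = e}) (s₀ : ℝ),
    C.source = U.q e '' {z | ‖(z.1 : ℂ)‖ < 4 / 3 ∧ ∃ s ∈ Ioo s₀ (s₀ + 1),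
      z.2 = ((s : ℝ) : AddCircle (1 : ℝ))} ∧
    ∀ (w : Metric.ball (0 : ℂ) 2) (s : ℝ), ‖(w : ℂ)‖ < 4 / 3 → s ∈ Ioo s₀ (s₀ + 1) →
      (C (U.q e (w, ((s : ℝ) : AddCircle (1 : ℝ))))).2 = κ e.1 * s

/-- all charts -/
def AllCh : Set (OpenPartialHomeomorph Y ((ℝ × ℝ) × ℝ)) := {C | IsA U F C ∨ IsB U κ C}

theorem exists_A (v : V) (m : M v) (c : OpenPartialHomeomorph (M v) ((ℝ × ℝ) × ℝ))
    (hc : c ∈ (F v).charts) (hm : m ∈ c.source) :
    ∃ (C : OpenPartialHomeomorph Y ((ℝ × ℝ) × ℝ)) (W : Set (M v)), IsA U F C ∧ IsOpen W ∧ m ∈ W ∧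
      C.source = pv U v '' W ∧ ∀ m' ∈ W, C (pv U v m') = c m' := by
  obtain ⟨e, he, hpe⟩ := pv_loc U v m
  have : Nonempty (M v) := ⟨m⟩
  have hinj : InjOn (pv U v) (e.source ∩ c.source) := by
    intro a ha b hb h
    rw [hpe] at h
    exact e.injOn ha.1 hb.1 h
  obtain ⟨C, h1, h2⟩ := exists_push (pv_loc U v) c (e.open_source.inter c.open_source)
    inter_subset_right hinj
  exact ⟨C, _, ⟨v, c, _, hc, e.open_source.inter c.open_source, inter_subset_right, h1, h2⟩,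
    e.open_source.inter c.open_source, ⟨he, hm⟩, h1, h2⟩

theorem GlA_loc {X Z : Type*} [TopologicalSpace X] [TopologicalSpace Z] {f : X → Z}
    (hc : Continuous f) (ho : IsOpenMap f)
    (hi : ∀ x, ∃ U ∈ 𝓝 x, IsOpen U ∧ InjOn f U) : IsLocalHomeomorph f := by
  rw [isLocalHomeomorph_iff_isOpenEmbedding_restrict]
  intro x
  obtain ⟨U, hxU, hU, hinj⟩ := hi x
  refine ⟨U, hxU, IsOpenEmbedding.of_continuous_injective_isOpenMap
    (hc.comp continuous_subtype_val) (injOn_iff_injective.mp hinj) (ho.comp hU.isOpenMap_subtype_val)⟩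

theorem GlA_coe_inj {s s' s₀ : ℝ} (hs : s ∈ Ioo s₀ (s₀ + 1)) (hs' : s' ∈ Ioo s₀ (s₀ + 1))
    (h : ((s : ℝ) : AddCircle (1 : ℝ)) = ((s' : ℝ) : AddCircle (1 : ℝ))) : s = s' := by
  rw [AddCircle.coe_eq_coe_iff_of_mem_Ico (a := s₀) ⟨hs.1.le, hs.2⟩ ⟨hs'.1.le, hs'.2⟩] at h
  exact h

/-- the parametrization of the solid torus -/
theorem GlA_P {q : Metric.ball (0 : ℂ) 2 × AddCircle (1 : ℝ) → Y} (hq : IsOpenEmbedding q) :
    IsLocalHomeomorph
    (fun z : Metric.ball (0 : ℂ) 2 × ℝ => q (z.1, ((z.2 : ℝ) : AddCircle (1 : ℝ)))) := by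
  have h1 : IsLocalHomeomorph
      (fun z : Metric.ball (0 : ℂ) 2 × ℝ => (z.1, ((z.2 : ℝ) : AddCircle (1 : ℝ)))) := by
    refine GlA_loc ?_ ?_ ?_
    · exact continuous_fst.prodMk ((AddCircle.continuous_mk' (1 : ℝ)).comp continuous_snd)
    · exact (IsOpenMap.id (X := Metric.ball (0 : ℂ) 2)).prodMap
        (QuotientAddGroup.isOpenMap_coe (N := AddSubgroup.zmultiples (1 : ℝ)))
    · rintro ⟨w, s⟩
      refine ⟨univ ×ˢ Ioo (s - 1 / 2) (s - 1 / 2 + 1), ?_, isOpen_univ.prod isOpen_Ioo, ?_⟩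
      · exact (isOpen_univ.prod isOpen_Ioo).mem_nhds ⟨mem_univ _, by
          constructor <;> (simp; try linarith)⟩
      · rintro ⟨w1, s1⟩ ⟨-, h1⟩ ⟨w2, s2⟩ ⟨-, h2⟩ heq
        simp only [Prod.mk.injEq] at heq
        exact Prod.ext heq.1 (GlA_coe_inj h1 h2 heq.2)
  exact hq.isLocalHomeomorph.comp h1

theorem exists_B (e : {e : Σ v, J v // G.τ e = e}) (hκ : κ e.1 ≠ 0) (s₀ : ℝ) :
    ∃ C : OpenPartialHomeomorph Y ((ℝ × ℝ) × ℝ), IsB U κ C ∧
      C.source = U.q e '' {z | ‖(z.1 : ℂ)‖ < 4 / 3 ∧ ∃ s ∈ Ioo s₀ (s₀ + 1),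
        z.2 = ((s : ℝ) : AddCircle (1 : ℝ))} ∧
      ∀ (w : Metric.ball (0 : ℂ) 2) (s : ℝ), ‖(w : ℂ)‖ < 4 / 3 → s ∈ Ioo s₀ (s₀ + 1) →
        (C (U.q e (w, ((s : ℝ) : AddCircle (1 : ℝ))))).2 = κ e.1 * s := by
  have : Nonempty (Metric.ball (0 : ℂ) 2) := ⟨⟨0, by simp⟩⟩
  have hemb : IsOpenEmbedding
      (fun w : Metric.ball (0 : ℂ) 2 => Complex.equivRealProdCLM (w : ℂ)) :=
    Complex.equivRealProdCLM.toHomeomorph.isOpenEmbedding.comp
      Metric.isOpen_ball.isOpenEmbedding_subtypeVal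
  have hU : IsOpen {w : Metric.ball (0 : ℂ) 2 | ‖(w : ℂ)‖ < 4 / 3} :=
    isOpen_lt (continuous_norm.comp continuous_subtype_val) continuous_const
  obtain ⟨C, hCs, hCf⟩ := exists_chart (GlA_P (U.q_emb e)) (hemb.toOpenPartialHomeomorph _) hU
    (by intro w _; simp) (c := s₀) (d := s₀ + 1)
    (by
      rintro ⟨w1, s1⟩ ⟨-, h1⟩ ⟨w2, s2⟩ ⟨-, h2⟩ heq
      have := (U.q_emb e).injective heq
      simp only [Prod.mk.injEq] at this
      exact Prod.ext this.1 (GlA_coe_inj h1 h2 this.2))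
    (fun z => z.2) continuous_snd.continuousOn (fun x _ => fun a _ b _ h => h)
  let m : (ℝ × ℝ) × ℝ ≃ₜ (ℝ × ℝ) × ℝ :=
    (Homeomorph.refl (ℝ × ℝ)).prodCongr (Homeomorph.mulLeft₀ (κ e.1) hκ)
  have hsrc : (C.transHomeomorph m).source = U.q e '' {z | ‖(z.1 : ℂ)‖ < 4 / 3 ∧
      ∃ s ∈ Ioo s₀ (s₀ + 1), z.2 = ((s : ℝ) : AddCircle (1 : ℝ))} := by
    rw [OpenPartialHomeomorph.transHomeomorph_source, hCs]
    ext y
    constructor
    · rintro ⟨⟨w, s⟩, ⟨hw, hs⟩, rfl⟩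
      exact ⟨(w, ((s : ℝ) : AddCircle (1 : ℝ))), ⟨hw, s, hs, rfl⟩, rfl⟩
    · rintro ⟨⟨w, h⟩, ⟨hw, s, hs, hh⟩, rfl⟩
      refine ⟨(w, s), ⟨hw, hs⟩, ?_⟩
      simp only at hh
      rw [hh]
  have hval : ∀ (w : Metric.ball (0 : ℂ) 2) (s : ℝ), ‖(w : ℂ)‖ < 4 / 3 →
      s ∈ Ioo s₀ (s₀ + 1) →
      ((C.transHomeomorph m) (U.q e (w, ((s : ℝ) : AddCircle (1 : ℝ))))).2 = κ e.1 * s := by
    intro w s hw hs
    have h1 := hCf (w, s) ⟨hw, hs⟩
    rw [OpenPartialHomeomorph.transHomeomorph_apply]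
    simp only [Function.comp_apply, h1]
    rfl
  exact ⟨C.transHomeomorph m, ⟨e, s₀, hsrc, hval⟩, hsrc, hval⟩

end

end Pool.Agent.H.MP_1611f1_gt.G
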