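import Pool.Agent.H.MP_1611f1_gt.G.GlA

/-!
The gluing theorem: compatibility over the collars.
-/

namespace Pool.Agent.H.MP_1611f1_gt.G

open Topology Set Filter

section

variable {V : Type*} {M : V → Type*} [∀ v, TopologicalSpace (M v)] {J : V → Type*}
  {T : ∀ v, Ended (M v) (J v)} {G : Pattern (Σ v, J v)} {Y : Type*} [TopologicalSpace Y]
  (U : Union T G Y) (F : ∀ v, Foliation (M v)) (κ : (Σ v, J v) → ℝ)

/-- the points over the deep part of the collar `e`, in real coordinates -/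
abbrev XX : Type := ℝ × Ioo (1 : ℝ) (4 / 3) × ℝ

/-- the inclusion of the deep part -/
def inc (z : XX) : ℝ × Ioo (1 : ℝ) 2 × ℝ :=
  (z.1, ⟨z.2.1, z.2.1.2.1, z.2.1.2.2.trans (by norm_num)⟩, z.2.2)

/-- the gluing map of the end `e` in real coordinates -/
noncomputable def flp (G : Pattern (Σ v, J v)) (e : Σ v, J v) (z : XX) :
    ℝ × Ioo (1 : ℝ) 2 × ℝ :=
  (G.al e * z.1 + G.be e * z.2.2, ⟨7 / 3 - z.2.1, by
    have := z.2.1.2.2
    linarith, by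
    have := z.2.1.2.1
    linarith⟩, G.ga e * z.1 + G.de e * z.2.2)

theorem inc_cont : Continuous inc := by
  unfold inc
  fun_prop

theorem inc_open : IsOpenMap inc := by
  have h : IsOpenMap (fun r : Ioo (1 : ℝ) (4 / 3) =>
      (⟨r, r.2.1, r.2.2.trans (by norm_num)⟩ : Ioo (1 : ℝ) 2)) := by
    have h1 : IsOpenEmbedding (fun r : Ioo (1 : ℝ) (4 / 3) =>
        (⟨r, r.2.1, r.2.2.trans (by norm_num)⟩ : Ioo (1 : ℝ) 2)) := by
      refine IsOpenEmbedding.of_comp _ isOpen_Ioo.isOpenEmbedding_subtypeVal ?_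
      exact isOpen_Ioo.isOpenEmbedding_subtypeVal
    exact h1.isOpenMap
  exact IsOpenMap.id.prodMap (h.prodMap IsOpenMap.id)

theorem flp_cont (e : Σ v, J v) : Continuous (flp G e) := by
  unfold flp
  fun_prop

/-- glued points -/
theorem RR_flp (e : Σ v, J v) (he : G.τ e ≠ e) (z : XX) :
    RR U e (inc z) = RR U (G.τ e) (flp G e z) := by
  refine (U.p_eq _ _).2 (Or.inr ⟨e, (z.1 : AddCircle (1 : ℝ)), (z.2.2 : AddCircle (1 : ℝ)),
    (inc z).2.1, (flp G e z).2.1, he, ?_, rfl, ?_⟩)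
  · show (z.2.1 : ℝ) + (7 / 3 - z.2.1) = 7 / 3
    ring
  · show (⟨(G.τ e).1, (T (G.τ e).1).tor (G.τ e).2
      (((G.al e * z.1 + G.be e * z.2.2 : ℝ) : AddCircle (1 : ℝ)), (flp G e z).2.1,
        ((G.ga e * z.1 + G.de e * z.2.2 : ℝ) : AddCircle (1 : ℝ)))⟩ : Σ v, M v) = _
    have h : ∀ (a b : ℤ) (u w : ℝ), ((a * u + b * w : ℝ) : AddCircle (1 : ℝ)) =
        a • (u : AddCircle (1 : ℝ)) + b • (w : AddCircle (1 : ℝ)) := by
      intro a b u w
      rw [AddCircle.coe_add, ← AddCircle.coe_zsmul, ← AddCircle.coe_zsmul, zsmul_eq_mul,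
        zsmul_eq_mul]
    rw [h, h]

theorem OrdEq_pull {X Z : Type*} [TopologicalSpace X] [TopologicalSpace Z] {z₀ : X} {R : X → Z}
    (hR : Continuous R) {f g : Z → ℝ} (h : OrdEq (R z₀) f g) :
    OrdEq z₀ (fun z => f (R z)) (fun z => g (R z)) :=
  OrdEq.comp_cont hR.continuousAt h

/-- a chart of type A at a point of a piece -/
theorem A_at {C : OpenPartialHomeomorph Y ((ℝ × ℝ) × ℝ)} {v : V}
    {c : OpenPartialHomeomorph (M v) ((ℝ × ℝ) × ℝ)} {W : Set (M v)} (hW : IsOpen W)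
    (hC : ∀ m ∈ W, C (pv U v m) = c m) {m : M v} (hm : m ∈ W) :
    ∀ᶠ m' in 𝓝 m, (C (pv U v m')).2 = (c m').2 := by
  filter_upwards [hW.mem_nhds hm] with m' h
  rw [hC m' h]

/-- **charts of type A over the deep part of a collar** -/
theorem key_A {x y : (Σ v, J v) → ℝ}
    (hlin : ∀ v, Linear (T v) (F v) (fun j => x ⟨v, j⟩) (fun j => y ⟨v, j⟩))
    (hglue : ∀ e, G.τ e ≠ e → x e = G.al e * x (G.τ e) + G.ga e * y (G.τ e) ∧
      y e = G.be e * x (G.τ e) + G.de e * y (G.τ e))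
    {C : OpenPartialHomeomorph Y ((ℝ × ℝ) × ℝ)} (hC : IsA U F C) (e : Σ v, J v) (z : XX)
    (hz : RR U e (inc z) ∈ C.source) :
    OrdEq z (fun w => (C (RR U e (inc w))).2) (fun w => x e * w.1 + y e * w.2.2) := by
  obtain ⟨v, c, W, hc, hW, hWc, hs, hv⟩ := hC
  rw [hs] at hz
  obtain ⟨m, hm, hmz⟩ := hz
  rcases (U.p_eq _ _).1 hmz.symm with h | ⟨e0, θ, t, r, r', he0, hr, h1, h2⟩
  · -- the same piece
    obtain ⟨v0, j⟩ := e
    have hv0 : v0 = v := congrArg Sigma.fst h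
    subst hv0
    have hm' : (T v0).cov j (inc z) = m := eq_of_heq (Sigma.mk.inj h).2
    subst hm'
    have hl := hlin v0 j (inc z) z.2.1.2.2 c hc (hWc hm)
    have h3 := OrdEq_pull inc_cont hl
    refine h3.congr ?_ (Eventually.of_forall fun w => rfl)
    exact (((cov_cont (T v0) j).comp inc_cont).continuousAt (x := z)).eventually
      (A_at U hW hv hm)
  · obtain ⟨h3, h4⟩ := tor_inj h1
    subst h3
    have h5 : (⟨v, m⟩ : Σ v, M v) = ⟨(G.τ e).1, (T (G.τ e).1).cov (G.τ e).2 (flp G e z)⟩ := by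
      rw [h2]
      have e1 : θ = ((z.1 : ℝ) : AddCircle (1 : ℝ)) := (congrArg Prod.fst h4).symm
      have e2 : t = ((z.2.2 : ℝ) : AddCircle (1 : ℝ)) :=
        (congrArg (fun a => a.2.2) h4).symm
      have e3 : (r : ℝ) = z.2.1 := (congrArg (fun a => ((a.2.1 : Ioo (1 : ℝ) 2) : ℝ)) h4).symm
      have e4 : r' = (flp G e z).2.1 := by
        apply Subtype.ext
        show (r' : ℝ) = 7 / 3 - z.2.1
        linarith
      have h : ∀ (a b : ℤ) (u w : ℝ), ((a * u + b * w : ℝ) : AddCircle (1 : ℝ)) =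
          a • (u : AddCircle (1 : ℝ)) + b • (w : AddCircle (1 : ℝ)) := by
        intro a b u w
        rw [AddCircle.coe_add, ← AddCircle.coe_zsmul, ← AddCircle.coe_zsmul, zsmul_eq_mul,
          zsmul_eq_mul]
      show _ = (⟨(G.τ e).1, (T (G.τ e).1).tor (G.τ e).2
        (((G.al e * z.1 + G.be e * z.2.2 : ℝ) : AddCircle (1 : ℝ)), (flp G e z).2.1,
          ((G.ga e * z.1 + G.de e * z.2.2 : ℝ) : AddCircle (1 : ℝ)))⟩ : Σ v, M v)
      rw [h, h, e1, e2, e4]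
    have hv0 : v = (G.τ e).1 := congrArg Sigma.fst h5
    subst hv0
    have hm' : m = (T (G.τ e).1).cov (G.τ e).2 (flp G e z) := eq_of_heq (Sigma.mk.inj h5).2
    subst hm'
    have hr2 : ((flp G e z).2.1 : ℝ) < 4 / 3 := by
      show 7 / 3 - (z.2.1 : ℝ) < 4 / 3
      have := z.2.1.2.1
      linarith
    have hl := hlin (G.τ e).1 (G.τ e).2 (flp G e z) hr2 c hc (hWc hm)
    have h3 := OrdEq_pull (flp_cont e) hl
    obtain ⟨g1, g2⟩ := hglue e he0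
    refine h3.congr ?_ (Eventually.of_forall fun w => ?_)
    · have h6 := (((cov_cont (T (G.τ e).1) (G.τ e).2).comp (flp_cont (G := G) e)).continuousAt
        (x := z)).eventually (A_at U hW hv hm)
      filter_upwards [h6] with w hw
      rw [RR_flp U e he0 w]
      exact hw
    · show x e * w.1 + y e * w.2.2 =
        x (G.τ e) * (G.al e * w.1 + G.be e * w.2.2) + y (G.τ e) * (G.ga e * w.1 + G.de e * w.2.2)
      rw [g1, g2]
      ring

theorem GlB_norm_polar (r : Ioo (1 : ℝ) 2) (ψ : AddCircle (1 : ℝ)) :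
    ‖((polar r ψ : Metric.ball (0 : ℂ) 2) : ℂ)‖ = r := by
  have h1 := r.2.1
  rw [polar, norm_mul, Circle.norm_coe, mul_one, Complex.norm_real,
      Real.norm_of_nonneg (by linarith)]

/-- a filled collar in the coordinates of the solid torus -/
theorem RR_q (e : {e : Σ v, J v // G.τ e = e}) (z : ℝ × Ioo (1 : ℝ) 2 × ℝ) :
    RR U e.1 z = U.q e (polar z.2.1 (((G.al e.1 * z.1 + G.be e.1 * z.2.2 : ℝ)) :
      AddCircle (1 : ℝ)), ((G.ga e.1 * z.1 + G.de e.1 * z.2.2 : ℝ) : AddCircle (1 : ℝ))) := by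
  have h : ∀ (a b : ℤ) (u w : ℝ), ((a * u + b * w : ℝ) : AddCircle (1 : ℝ)) =
      a • (u : AddCircle (1 : ℝ)) + b • (w : AddCircle (1 : ℝ)) := by
    intro a b u w
    rw [AddCircle.coe_add, ← AddCircle.coe_zsmul, ← AddCircle.coe_zsmul, zsmul_eq_mul,
      zsmul_eq_mul]
  rw [h, h]
  exact U.glue e _ _ _

/-- **charts of type B over a collar** -/
theorem key_B {x y : (Σ v, J v) → ℝ}
    (hfill : ∀ e, G.τ e = e → κ e ≠ 0 ∧ x e = κ e * G.ga e ∧ y e = κ e * G.de e)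
    {C : OpenPartialHomeomorph Y ((ℝ × ℝ) × ℝ)} (hC : IsB U κ C) (e : Σ v, J v)
    (z : ℝ × Ioo (1 : ℝ) 2 × ℝ) (hz : RR U e z ∈ C.source) :
    (z.2.1 : ℝ) < 4 / 3 ∧
    OrdEq z (fun w => (C (RR U e w)).2) (fun w => x e * w.1 + y e * w.2.2) := by
  obtain ⟨e', s₀, hs, hval⟩ := hC
  rw [hs] at hz
  obtain ⟨⟨w, h⟩, ⟨hw, s, hsm, hh⟩, hq⟩ := hz
  obtain ⟨w', hw'⟩ := U.overlap _ _ _ hq.symm
  have hee : e = e'.1 := (tor_inj hw').1
  subst hee
  rw [RR_q] at hq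
  have hinj := (U.q_emb e').injective hq
  have hw1 : w = _ := congrArg Prod.fst hinj
  have hh1 : h = _ := congrArg Prod.snd hinj
  have hr : (z.2.1 : ℝ) < 4 / 3 := by
    have h1 : ‖(w : ℂ)‖ < 4 / 3 := hw
    rw [hw1, GlB_norm_polar] at h1
    exact h1
  refine ⟨hr, ?_⟩
  obtain ⟨m, hm⟩ : ∃ m : ℤ, s = G.ga e'.1 * z.1 + G.de e'.1 * z.2.2 + m := by
    have h1 : ((s : ℝ) : AddCircle (1 : ℝ)) =
        ((G.ga e'.1 * z.1 + G.de e'.1 * z.2.2 : ℝ) : AddCircle (1 : ℝ)) :=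
      (show h = ((s : ℝ) : AddCircle (1 : ℝ)) from hh).symm.trans hh1
    have h2 : ((s - (G.ga e'.1 * z.1 + G.de e'.1 * z.2.2) : ℝ) : AddCircle (1 : ℝ)) = 0 := by
      rw [AddCircle.coe_sub, h1, sub_self]
    obtain ⟨m, hm⟩ := (AddCircle.coe_eq_zero_iff (1 : ℝ)).1 h2
    refine ⟨m, ?_⟩
    rw [zsmul_eq_mul, mul_one] at hm
    linarith
  have hnear : ∀ᶠ z1 : ℝ × Ioo (1 : ℝ) 2 × ℝ in 𝓝 z,
      G.ga e'.1 * z1.1 + G.de e'.1 * z1.2.2 + m ∈ Ioo s₀ (s₀ + 1) ∧ (z1.2.1 : ℝ) < 4 / 3 := by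
    have h1 : ∀ᶠ z1 : ℝ × Ioo (1 : ℝ) 2 × ℝ in 𝓝 z,
        G.ga e'.1 * z1.1 + G.de e'.1 * z1.2.2 + m ∈ Ioo s₀ (s₀ + 1) := by
      have hcont : Continuous fun z1 : ℝ × Ioo (1 : ℝ) 2 × ℝ =>
        (G.ga e'.1 * z1.1 + G.de e'.1 * z1.2.2 + m : ℝ) := by fun_prop
      refine hcont.continuousAt.eventually_mem (isOpen_Ioo.mem_nhds ?_)
      rw [← hm]
      exact hsm
    have h2 : ∀ᶠ z1 : ℝ × Ioo (1 : ℝ) 2 × ℝ in 𝓝 z, (z1.2.1 : ℝ) < 4 / 3 := by
      have h3 : Continuous fun z1 : ℝ × Ioo (1 : ℝ) 2 × ℝ => (z1.2.1 : ℝ) := by fun_prop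
      exact h3.continuousAt.eventually (gt_mem_nhds hr)
    exact h1.and h2
  obtain ⟨-, g1, g2⟩ := hfill e'.1 e'.2
  refine OrdEq.of_comp (fun v => v - κ e'.1 * m) (fun a b hab => by
    change a - κ e'.1 * m < b - κ e'.1 * m
    linarith) (hnear.mono fun z1 hz1 => ?_)
  have hv : (C (RR U e'.1 z1)).2 =
      κ e'.1 * (G.ga e'.1 * z1.1 + G.de e'.1 * z1.2.2 + m) := by
    rw [RR_q]
    have h1 : ((G.ga e'.1 * z1.1 + G.de e'.1 * z1.2.2 : ℝ) : AddCircle (1 : ℝ)) =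
        ((G.ga e'.1 * z1.1 + G.de e'.1 * z1.2.2 + m : ℝ) : AddCircle (1 : ℝ)) := by
      have h2 : ((m : ℝ) : AddCircle (1 : ℝ)) = 0 :=
        (AddCircle.coe_eq_zero_iff (1 : ℝ)).2 ⟨m, by rw [zsmul_eq_mul, mul_one]⟩
      rw [AddCircle.coe_add (1 : ℝ) (G.ga e'.1 * z1.1 + G.de e'.1 * z1.2.2) m, h2, add_zero]
    rw [h1]
    refine hval _ _ ?_ hz1.1
    rw [GlB_norm_polar]
    exact hz1.2
  show x e'.1 * z1.1 + y e'.1 * z1.2.2 = (C (RR U e'.1 z1)).2 - κ e'.1 * m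
  rw [hv, g1, g2]
  ring

end

end Pool.Agent.H.MP_1611f1_gt.G
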