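import Pool.Agent.H.MP_1611f1_gt.G.GlB

/-!
The gluing theorem: the foliation.
-/

namespace Pool.Agent.H.MP_1611f1_gt.G

open Topology Set Filter

section

variable {V : Type*} {M : V → Type*} [∀ v, TopologicalSpace (M v)] {J : V → Type*}
  {T : ∀ v, Ended (M v) (J v)} {G : Pattern (Σ v, J v)} {Y : Type*} [TopologicalSpace Y]
  (U : Union T G Y) (F : ∀ v, Foliation (M v)) (κ : (Σ v, J v) → ℝ)

/-- two charts of type B -/
theorem compat_BB {C C' : OpenPartialHomeomorph Y ((ℝ × ℝ) × ℝ)}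
    (hC : IsB U κ C) (hC' : IsB U κ C') {e : {e : Σ v, J v // G.τ e = e}}
    {w : Metric.ball (0 : ℂ) 2 × AddCircle (1 : ℝ)}
    (hy : U.q e w ∈ C.source) (hy' : U.q e w ∈ C'.source) :
    OrdEq (U.q e w) (fun z => (C z).2) (fun z => (C' z).2) := by
  obtain ⟨j1, s1, hs1, hv1⟩ := hC
  obtain ⟨j2, s2, hs2, hv2⟩ := hC'
  rw [hs1] at hy
  rw [hs2] at hy'
  obtain ⟨z1, ⟨hz1, s, hs, hzs⟩, hq1⟩ := hy
  obtain ⟨z2, ⟨hz2, s', hs', hzs'⟩, hq2⟩ := hy'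
  have hj1 : j1 = e := U.q_disj _ _ _ _ hq1
  have hj2 : j2 = e := U.q_disj _ _ _ _ hq2
  subst hj1
  subst hj2
  have hw1 : z1 = w := (U.q_emb _).injective hq1
  have hw2 : z2 = w := (U.q_emb _).injective hq2
  subst hw1
  subst hw2
  obtain ⟨m, hm⟩ : ∃ m : ℤ, s' = s + m := by
    have h1 : ((s' - s : ℝ) : AddCircle (1 : ℝ)) = 0 := by
      rw [AddCircle.coe_sub, ← hzs', ← hzs, sub_self]
    rw [AddCircle.coe_eq_zero_iff] at h1
    obtain ⟨m, hm⟩ := h1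
    refine ⟨m, ?_⟩
    rw [zsmul_eq_mul, mul_one] at hm
    linarith
  let R : Metric.ball (0 : ℂ) 2 × ℝ → Y := fun v => U.q j2 (v.1, ((v.2 : ℝ) : AddCircle (1 : ℝ)))
  have hR : IsOpenMap R := by
    apply (U.q_emb j2).isOpenMap.comp
    exact IsOpenMap.id.prodMap QuotientAddGroup.isOpenMap_coe
  have hzR : R (z2.1, s) = U.q j2 z2 := by
    change U.q j2 (z2.1, ((s : ℝ) : AddCircle (1 : ℝ))) = U.q j2 z2
    rw [← hzs]
  rw [← hzR]
  apply OrdEq.of_openMap hR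
  refine OrdEq.of_comp (fun v => v + κ j2.1 * m) (fun a b h => by simpa using h) ?_
  have e1 : ∀ᶠ v : Metric.ball (0 : ℂ) 2 × ℝ in 𝓝 (z2.1, s), ‖(v.1 : ℂ)‖ < 4 / 3 := by
    have hc : Continuous (fun v : Metric.ball (0 : ℂ) 2 × ℝ => ‖(v.1 : ℂ)‖) :=
      (continuous_subtype_val.comp continuous_fst).norm
    exact hc.continuousAt.eventually (eventually_lt_nhds hz2)
  have e2 : ∀ᶠ v : Metric.ball (0 : ℂ) 2 × ℝ in 𝓝 (z2.1, s), v.2 ∈ Ioo s1 (s1 + 1) :=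
    continuous_snd.continuousAt.eventually (Ioo_mem_nhds hs.1 hs.2)
  have e3 : ∀ᶠ v : Metric.ball (0 : ℂ) 2 × ℝ in 𝓝 (z2.1, s), v.2 + m ∈ Ioo s2 (s2 + 1) := by
    have hc : Continuous (fun v : Metric.ball (0 : ℂ) 2 × ℝ => v.2 + (m : ℝ)) :=
      continuous_snd.add continuous_const
    rw [hm] at hs'
    exact hc.continuousAt.eventually (Ioo_mem_nhds hs'.1 hs'.2)
  filter_upwards [e1, e2, e3] with v h1 h2 h3
  change (C' (U.q j2 (v.1, ((v.2 : ℝ) : AddCircle (1 : ℝ))))).2 =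
    (C (U.q j2 (v.1, ((v.2 : ℝ) : AddCircle (1 : ℝ))))).2 + κ j2.1 * m
  rw [hv1 v.1 v.2 h1 h2]
  have h4 : ((v.2 : ℝ) : AddCircle (1 : ℝ)) = ((v.2 + m : ℝ) : AddCircle (1 : ℝ)) := by
    rw [AddCircle.coe_add]
    have : ((m : ℝ) : AddCircle (1 : ℝ)) = 0 := by
      rw [AddCircle.coe_eq_zero_iff]
      exact ⟨m, by rw [zsmul_eq_mul, mul_one]⟩
    rw [this, add_zero]
  rw [h4, hv2 v.1 _ h1 h3]
  ring

/-- the outer part of a solid torus is in the collar -/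
theorem exists_RR (e : {e : Σ v, J v // G.τ e = e}) (w : Metric.ball (0 : ℂ) 2)
    (h : AddCircle (1 : ℝ)) (hw : 1 < ‖(w : ℂ)‖) :
    ∃ z : ℝ × Ioo (1 : ℝ) 2 × ℝ, U.q e (w, h) = RR U e.1 z ∧ (z.2.1 : ℝ) = ‖(w : ℂ)‖ := by
  have hr : ‖(w : ℂ)‖ ∈ Ioo (1 : ℝ) 2 := ⟨hw, mem_ball_zero_iff.1 w.2⟩
  obtain ⟨b, hb⟩ := QuotientAddGroup.mk_surjective h
  set a : ℝ := Complex.arg (w : ℂ) / (2 * Real.pi) with ha
  have hpol : polar ⟨‖(w : ℂ)‖, hr⟩ ((a : ℝ) : AddCircle (1 : ℝ)) = w := by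
    apply Subtype.ext
    show ((‖(w : ℂ)‖ : ℝ) : ℂ) * (AddCircle.toCircle ((a : ℝ) : AddCircle (1 : ℝ)) : ℂ) = w
    rw [AddCircle.toCircle_apply_mk, Circle.coe_exp]
    have h3 : 2 * Real.pi / 1 * a = Complex.arg (w : ℂ) := by
      rw [ha]
      field_simp
    rw [h3]
    exact Complex.norm_mul_exp_arg_mul_I _
  have hd : (G.al e.1 : ℝ) * G.de e.1 - G.be e.1 * G.ga e.1 = 1 := by
    exact_mod_cast G.det_fill e.1 e.2
  refine ⟨(G.de e.1 * a - G.be e.1 * b, ⟨‖(w : ℂ)‖, hr⟩, -(G.ga e.1) * a + G.al e.1 * b), ?_, rfl⟩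
  rw [RR_q]
  have e1 : (G.al e.1 : ℝ) * (G.de e.1 * a - G.be e.1 * b) +
      G.be e.1 * (-(G.ga e.1) * a + G.al e.1 * b) = a := by
    linear_combination a * hd
  have e2 : (G.ga e.1 : ℝ) * (G.de e.1 * a - G.be e.1 * b) +
      G.de e.1 * (-(G.ga e.1) * a + G.al e.1 * b) = b := by
    linear_combination b * hd
  show U.q e (w, h) = U.q e (polar ⟨‖(w : ℂ)‖, hr⟩
    (((G.al e.1 * (G.de e.1 * a - G.be e.1 * b) +
      G.be e.1 * (-(G.ga e.1) * a + G.al e.1 * b) : ℝ)) : AddCircle (1 : ℝ)),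
    ((G.ga e.1 * (G.de e.1 * a - G.be e.1 * b) +
      G.de e.1 * (-(G.ga e.1) * a + G.al e.1 * b) : ℝ) : AddCircle (1 : ℝ)))
  rw [e1, e2, hpol]
  exact congrArg (fun x => U.q e (w, x)) hb.symm

/-- every point is over the deep part of a collar, or in a piece away from the deep parts, or in
the core of a solid torus -/
theorem tri (y : Y) :
    (∃ (e : Σ v, J v) (z : XX), y = RR U e (inc z)) ∨
    (∃ (v : V) (m : M v), y = pv U v m ∧
      ∀ (e : Σ v, J v) (z : XX), (⟨v, m⟩ : Σ v, M v) ≠ ⟨e.1, (T e.1).cov e.2 (inc z)⟩) ∨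
    (∃ e w h, y = U.q e (w, h) ∧ ‖(w : ℂ)‖ ≤ 1) := by
  have hA : ∀ (v : V) (m : M v), (∃ (e : Σ v, J v) (z : XX), pv U v m = RR U e (inc z)) ∨
      (∃ (v' : V) (m' : M v'), pv U v m = pv U v' m' ∧
      ∀ (e : Σ v, J v) (z : XX), (⟨v', m'⟩ : Σ v, M v) ≠ ⟨e.1, (T e.1).cov e.2 (inc z)⟩) := by
    intro v m
    by_cases h : ∃ (e : Σ v, J v) (z : XX),
      (⟨v, m⟩ : Σ v, M v) = ⟨e.1, (T e.1).cov e.2 (inc z)⟩
    · obtain ⟨e, z, h⟩ := h
      refine Or.inl ⟨e, z, ?_⟩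
      show U.p ⟨v, m⟩ = _
      rw [h]
      rfl
    · push Not at h
      exact Or.inr ⟨v, m, rfl, h⟩
  rcases U.cover y with ⟨⟨v, m⟩, rfl⟩ | ⟨e, ⟨w, h⟩, rfl⟩
  · rcases hA v m with h | ⟨v', m', h1, h2⟩
    · exact Or.inl h
    · exact Or.inr (Or.inl ⟨v', m', h1, h2⟩)
  · by_cases hw : ‖(w : ℂ)‖ ≤ 1
    · exact Or.inr (Or.inr ⟨e, w, h, rfl, hw⟩)
    · obtain ⟨z, hz, -⟩ := exists_RR U e w h (not_le.1 hw)
      rw [hz]
      rcases hA e.1.1 ((T e.1.1).cov e.1.2 z) with h | ⟨v', m', h1, h2⟩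
      · exact Or.inl h
      · exact Or.inr (Or.inl ⟨v', m', h1, h2⟩)

/-- two charts of type A away from the deep parts -/
theorem compat_AA {C C' : OpenPartialHomeomorph Y ((ℝ × ℝ) × ℝ)} (hC : IsA U F C)
    (hC' : IsA U F C') {v : V} {m : M v}
    (hm : ∀ (e : Σ v, J v) (z : XX), (⟨v, m⟩ : Σ v, M v) ≠ ⟨e.1, (T e.1).cov e.2 (inc z)⟩)
    (hy : pv U v m ∈ C.source) (hy' : pv U v m ∈ C'.source) :
    OrdEq (pv U v m) (fun z => (C z).2) (fun z => (C' z).2) := by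
  have key : ∀ (v1 : V) (m1 : M v1), pv U v1 m1 = pv U v m →
      (⟨v1, m1⟩ : Σ v, M v) = ⟨v, m⟩ := by
    intro v1 m1 h
    rcases (U.p_eq _ _).1 h.symm with h1 | ⟨e, θ, t, r, r', he, hr, h1, h2⟩
    · exact h1.symm
    · exfalso
      obtain ⟨u, rfl⟩ := QuotientAddGroup.mk_surjective θ
      obtain ⟨s, rfl⟩ := QuotientAddGroup.mk_surjective t
      have h3 : (r : ℝ) < 4 / 3 := by
        have := r'.2.1
        linarith
      exact hm e (u, ⟨r, r.2.1, h3⟩, s) h1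
  obtain ⟨v1, c1, W1, hc1, hW1, hWc1, hs1, hv1⟩ := hC
  obtain ⟨v2, c2, W2, hc2, hW2, hWc2, hs2, hv2⟩ := hC'
  rw [hs1] at hy
  rw [hs2] at hy'
  obtain ⟨m1, hm1, he1⟩ := hy
  obtain ⟨m2, hm2, he2⟩ := hy'
  have k1 := key v1 m1 he1
  have k2 := key v2 m2 he2
  have l1 : v1 = v := congrArg Sigma.fst k1
  have l2 : v2 = v := congrArg Sigma.fst k2
  subst l1
  subst l2
  have n1 : m1 = m := eq_of_heq (Sigma.mk.inj k1).2
  have n2 : m2 = m := eq_of_heq (Sigma.mk.inj k2).2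
  subst n1
  subst n2
  refine OrdEq.of_openMap (pv_open U v2) ?_
  have h : OrdEq m2 (fun z => (c1 z).2) (fun z => (c2 z).2) :=
    (F v2).compat c1 hc1 c2 hc2 m2 (hWc1 hm1) (hWc2 hm2)
  exact h.congr (A_at U hW1 hv1 hm1) (A_at U hW2 hv2 hm2)

variable {x y : (Σ v, J v) → ℝ}
    (hlin : ∀ v, Linear (T v) (F v) (fun j => x ⟨v, j⟩) (fun j => y ⟨v, j⟩))
    (hglue : ∀ e, G.τ e ≠ e → x e = G.al e * x (G.τ e) + G.ga e * y (G.τ e) ∧
      y e = G.be e * x (G.τ e) + G.de e * y (G.τ e))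
    (hfill : ∀ e, G.τ e = e → κ e ≠ 0 ∧ x e = κ e * G.ga e ∧ y e = κ e * G.de e)

include hlin hglue hfill in
theorem compat_all (C) (hC : C ∈ AllCh U F κ) (C') (hC' : C' ∈ AllCh U F κ) (p : Y)
    (hy : p ∈ C.source) (hy' : p ∈ C'.source) : OrdEq p (fun z => (C z).2) (fun z => (C' z).2) := by
  rcases tri U p with ⟨e, z, rfl⟩ | ⟨v, m, rfl, hm⟩ | ⟨e, w, h, rfl, hw⟩
  · have key : ∀ C ∈ AllCh U F κ, RR U e (inc z) ∈ C.source →
        OrdEq z (fun w => (C (RR U e (inc w))).2) (fun w => x e * w.1 + y e * w.2.2) := by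
      intro C hC hy
      rcases hC with hC | hC
      · exact key_A U F hlin hglue hC e z hy
      · exact OrdEq_pull inc_cont (key_B U κ hfill hC e (inc z) hy).2
    exact OrdEq.of_openMap (R := fun w => RR U e (inc w)) ((RR_open U e).comp inc_open)
      ((key C hC hy).trans (key C' hC' hy').symm)
  · have key : ∀ C ∈ AllCh U F κ, pv U v m ∈ C.source → IsA U F C := by
      intro C hC hy
      rcases hC with hC | hC
      · exact hC
      · exfalso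
        obtain ⟨e, s₀, hs, -⟩ := id hC
        have hy2 := hy
        rw [hs] at hy
        obtain ⟨w, -, hw⟩ := hy
        obtain ⟨⟨θ, r, t⟩, hw'⟩ := U.overlap _ _ _ hw.symm
        obtain ⟨u, rfl⟩ := QuotientAddGroup.mk_surjective θ
        obtain ⟨s, rfl⟩ := QuotientAddGroup.mk_surjective t
        have h1 : pv U v m = RR U e.1 (u, r, s) := by
          show U.p ⟨v, m⟩ = _
          rw [hw']
          rfl
        rw [h1] at hy2
        have h2 := (key_B U κ hfill hC e.1 (u, r, s) hy2).1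
        exact hm e.1 (u, ⟨r, r.2.1, h2⟩, s) hw'
    exact compat_AA U F (key C hC hy) (key C' hC' hy') hm hy hy'
  · have key : ∀ C ∈ AllCh U F κ, U.q e (w, h) ∈ C.source → IsB U κ C := by
      intro C hC hy
      rcases hC with hC | hC
      · exfalso
        obtain ⟨v, c, W, -, -, -, hs, -⟩ := hC
        rw [hs] at hy
        obtain ⟨m, -, hm⟩ := hy
        obtain ⟨⟨θ, r, t⟩, hw'⟩ := U.overlap ⟨v, m⟩ e (w, h) hm
        have h1 : U.p ⟨e.1.1, (T e.1.1).tor e.1.2 (θ, r, t)⟩ = U.q e (w, h) := by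
          rw [← hw']
          exact hm
        rw [U.glue] at h1
        have h2 := congrArg Prod.fst ((U.q_emb e).injective h1)
        have h3 : ‖((polar r (G.al e.1 • θ + G.be e.1 • t) : Metric.ball (0 : ℂ) 2) : ℂ)‖ =
            ‖(w : ℂ)‖ := congrArg (fun a : Metric.ball (0 : ℂ) 2 => ‖(a : ℂ)‖) h2
        rw [GlB_norm_polar] at h3
        have := r.2.1
        linarith
      · exact hC
    exact compat_BB U κ (key C hC hy) (key C' hC' hy') hy hy'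

include hfill in
theorem cover_all (p : Y) : ∃ C ∈ AllCh U F κ, p ∈ C.source := by
  have hA : ∀ (v : V) (m : M v), ∃ C ∈ AllCh U F κ, pv U v m ∈ C.source := by
    intro v m
    obtain ⟨c, hc, hm⟩ := (F v).cover m
    obtain ⟨C, W, h1, -, h3, h4, -⟩ := exists_A U F v m c hc hm
    refine ⟨C, Or.inl h1, ?_⟩
    rw [h4]
    exact ⟨m, h3, rfl⟩
  rcases U.cover p with ⟨⟨v, m⟩, rfl⟩ | ⟨e, ⟨w, h⟩, rfl⟩
  · exact hA v m
  · by_cases hw : ‖(w : ℂ)‖ < 4 / 3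
    · obtain ⟨u, hu⟩ := QuotientAddGroup.mk_surjective h
      have hu' : h = ((u : ℝ) : AddCircle (1 : ℝ)) := hu.symm
      obtain ⟨c, h1, h2, -⟩ := exists_B U κ e (hfill e.1 e.2).1 (u - 1 / 2)
      refine ⟨c, Or.inr h1, ?_⟩
      rw [h2]
      exact ⟨(w, h), ⟨hw, u, ⟨by linarith, by linarith⟩, hu'⟩, rfl⟩
    · obtain ⟨z, hz, -⟩ := exists_RR U e w h (by linarith [not_lt.1 hw])
      rw [hz]
      exact hA _ _

/-- the foliation of the glued manifold -/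
theorem exists_fol (hlin : ∀ v, Linear (T v) (F v) (fun j => x ⟨v, j⟩) (fun j => y ⟨v, j⟩))
    (hglue : ∀ e, G.τ e ≠ e → x e = G.al e * x (G.τ e) + G.ga e * y (G.τ e) ∧
      y e = G.be e * x (G.τ e) + G.de e * y (G.τ e))
    (hfill : ∀ e, G.τ e = e → κ e ≠ 0 ∧ x e = κ e * G.ga e ∧ y e = κ e * G.de e) :
    ∃ Fo : Foliation Y, Fo.charts = AllCh U F κ :=
  ⟨{ charts := AllCh U F κ
     cover := cover_all U F κ hfill
     compat := fun C hC C' hC' p hy hy' =>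
      compat_all U F κ hlin hglue hfill C hC C' hC' p hy hy' }, rfl⟩

end

end Pool.Agent.H.MP_1611f1_gt.G
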