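import Pool.Agent.H.MP_1611f1_gt.G.MT
import Pool.Agent.H.MP_1611f1_gt.G.Neg
import Pool.Agent.H.MP_1611f1_gt.TauA
import Pool.Agent.H.MP_1611f1_gt.TauC
import Pool.Agent.H.MP_1611f1_gt.TypA

/-!
Taut foliations with linear ends given by closed one-forms.
-/

namespace Pool.Agent.H.MP_1611f1_gt.G

open Topology Set Filter

namespace PF

/-- a continuous function whose class modulo `1` is constant is locally constant -/
theorem loc_const {X : Type*} [TopologicalSpace X] {g : X → ℝ} {y : X} (hg : ContinuousAt g y)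
    (h : ∀ w, ((g w : ℝ) : AddCircle (1 : ℝ)) = ((g y : ℝ) : AddCircle (1 : ℝ))) :
    ∀ᶠ w in 𝓝 y, g w = g y := by
  filter_upwards [hg.eventually (Metric.ball_mem_nhds (g y) one_pos)] with w hw
  have h1 := h w
  rw [QuotientAddGroup.eq, AddSubgroup.mem_zmultiples_iff] at h1
  obtain ⟨k, hk⟩ := h1
  rw [zsmul_eq_mul, mul_one] at hk
  rw [Real.dist_eq] at hw
  have h2 : |(k : ℝ)| < 1 := by
    rw [hk, show -g w + g y = -(g w - g y) by ring, abs_neg]
    exact hw
  have h3 : k = 0 := by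
    rw [← Int.abs_lt_one_iff]
    exact_mod_cast h2
  rw [h3, Int.cast_zero] at hk
  linarith

variable {S : Type*} [TopologicalSpace S] {I : Type*}
  (f : I → C(S, AddCircle (1 : ℝ))) (c : I → ℝ)

/-- half of the circle -/
noncomputable def hf : AddCircle (1 : ℝ) := ((1 / 2 : ℝ) : AddCircle (1 : ℝ))

theorem hf_ne : hf ≠ 0 := by
  intro h
  have h1 := lft_coe (u := 1 / 2) ⟨by norm_num, by norm_num⟩
  have h2 := lft_coe (u := 0) ⟨le_refl _, by norm_num⟩
  have h3 : ((1 / 2 : ℝ) : AddCircle (1 : ℝ)) = ((0 : ℝ) : AddCircle (1 : ℝ)) := h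
  rw [h3, h2] at h1
  norm_num at h1

/-- the potential of the one-form, near the point `x` -/
noncomputable def pot [Fintype I] (x w : S) : ℝ := ∑ i, c i * lft (f i w - f i x + hf)

/-- the domain of the potential -/
def dom (x : S) : Set S := {w | ∀ i, f i w - f i x + hf ≠ 0}

theorem dom_open [Finite I] (x : S) : IsOpen (dom f x) := by
  have h : dom f x = ⋂ i, {w | f i w - f i x + hf ≠ 0} := by
    ext w
    simp [dom]
  rw [h]
  refine isOpen_iInter_of_finite fun i => ?_
  have h1 : Continuous fun w => f i w - f i x + hf := by fun_prop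
  exact h1.isOpen_preimage _ isOpen_ne

theorem mem_dom (x : S) : x ∈ dom f x := by
  intro i
  rw [sub_self, zero_add]
  exact hf_ne

theorem pot_contOn [Fintype I] (x : S) : ContinuousOn (pot f c x) (dom f x) := by
  intro w hw
  refine ContinuousAt.continuousWithinAt ?_
  unfold pot
  refine tendsto_finsetSum _ fun i _ => ?_
  refine Tendsto.const_mul _ ?_
  have h1 : ContinuousAt (fun w => f i w - f i x + hf) w :=
    Continuous.continuousAt (by fun_prop)
  exact ContinuousAt.comp (g := lft) (f := fun w => f i w - f i x + hf) (lft_contAt (hw i)) h1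

/-- change of the base point -/
theorem pot_diff [Fintype I] {x y : S} (hy : y ∈ dom f x) :
    ∀ᶠ w in 𝓝 y, pot f c x w - pot f c y w = pot f c x y - pot f c y y := by
  have key : ∀ i, ∀ᶠ w in 𝓝 y, lft (f i w - f i x + hf) - lft (f i w - f i y + hf) =
      lft (f i y - f i x + hf) - lft (f i y - f i y + hf) := by
    intro i
    refine loc_const (g := fun w => lft (f i w - f i x + hf) - lft (f i w - f i y + hf)) ?_ ?_
    · have h1 : ContinuousAt (fun w => f i w - f i x + hf) y :=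
        Continuous.continuousAt (by fun_prop)
      have h2 : ContinuousAt (fun w => f i w - f i y + hf) y :=
        Continuous.continuousAt (by fun_prop)
      exact (ContinuousAt.comp (g := lft) (f := fun w => f i w - f i x + hf)
        (lft_contAt (hy i)) h1).sub (ContinuousAt.comp (g := lft)
        (f := fun w => f i w - f i y + hf) (lft_contAt (mem_dom f y i)) h2)
    · intro w
      rw [AddCircle.coe_sub, AddCircle.coe_sub, coe_lft, coe_lft, coe_lft, coe_lft]
      abel
  have hall : ∀ᶠ w in 𝓝 y, ∀ i, lft (f i w - f i x + hf) - lft (f i w - f i y + hf) =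
      lft (f i y - f i x + hf) - lft (f i y - f i y + hf) := eventually_all.2 key
  filter_upwards [hall] with w hw
  unfold pot
  rw [← Finset.sum_sub_distrib, ← Finset.sum_sub_distrib]
  refine Finset.sum_congr rfl fun i _ => ?_
  rw [← mul_sub, ← mul_sub, hw i]

variable {f} {phi : S ≃ₜ S} (hf' : ∀ i x, f i (phi x) = f i x)

include hf' in
theorem f_zpow (k : ℤ) (i : I) (x : S) : f i ((phi ^ k) x) = f i x := by
  have hinv : ∀ x, f i ((phi⁻¹ : S ≃ₜ S) x) = f i x := by
    intro x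
    have h := hf' i ((phi⁻¹ : S ≃ₜ S) x)
    have h2 : phi ((phi⁻¹ : S ≃ₜ S) x) = x := phi.apply_symm_apply x
    rw [h2] at h
    exact h.symm
  induction k using Int.induction_on generalizing x with
  | zero => simp
  | succ k ih =>
    rw [zpow_add_one]
    change f i ((phi ^ (k : ℤ)) (phi x)) = _
    rw [ih, hf']
  | pred k ih =>
    rw [zpow_sub_one]
    change f i ((phi ^ (-(k : ℤ))) ((phi⁻¹ : S ≃ₜ S) x)) = _
    rw [ih, hinv]

include hf' in
theorem pot_zpow [Fintype I] (k : ℤ) (x w : S) : pot f c ((phi ^ k) x) ((phi ^ k) w) = pot f c x w := by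
  unfold pot
  refine Finset.sum_congr rfl fun i _ => ?_
  rw [f_zpow hf', f_zpow hf']

variable [Fintype I] {J : Type*} {E : Surf S J} {M : Type*} [TopologicalSpace M] {T : Ended M J}
  (Mt : MTorus E phi T)

include hf' in
theorem chart_at (x : S) (t : ℝ) : ∃ C : OpenPartialHomeomorph M ((ℝ × ℝ) × ℝ),
    (∀ z, Mt.p z ∈ C.source →
      OrdEq z (fun w => (C (Mt.p w)).2) (fun w => w.2 + pot f c z.1 w.1)) ∧
    Mt.p (x, t) ∈ C.source := by
  obtain ⟨ξ, hξ⟩ := E.flat x
  have hU : IsOpen (ξ.source ∩ dom f x) := ξ.open_source.inter (dom_open f x)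
  have hinj : InjOn Mt.p ((ξ.source ∩ dom f x) ×ˢ Ioo (t - 1 / 2) (t + 1 / 2)) := by
    rintro ⟨x1, t1⟩ ⟨-, h1⟩ ⟨x2, t2⟩ ⟨-, h2⟩ h
    obtain ⟨k, hk, hx⟩ := (Mt.p_eq x1 t1 x2 t2).1 h
    simp only [mem_Ioo] at h1 h2
    have hk0 : k = 0 := by
      rw [← Int.abs_lt_one_iff]
      have h3 : |(k : ℝ)| < 1 := by
        rw [abs_lt]
        constructor <;> linarith [h1.1, h1.2, h2.1, h2.2]
      exact_mod_cast h3
    subst hk0
    simp only [Int.cast_zero, add_zero] at hk
    simp only [zpow_zero, Homeomorph.one_apply] at hx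
    rw [hk, hx]
  obtain ⟨C, hC, hC'⟩ := exists_chart Mt.p_loc ξ hU inter_subset_left hinj
    (fun z => z.2 + pot f c x z.1)
    (continuous_snd.continuousOn.add ((pot_contOn f c x).comp continuous_fst.continuousOn
      fun z hz => hz.1.2))
    (fun w _ a _ b _ hab => by simpa using hab)
  refine ⟨C, ?_, ?_⟩
  · rintro ⟨x', t'⟩ hz'
    rw [hC] at hz'
    obtain ⟨⟨x1, t1⟩, ⟨hx1, ht1⟩, hz⟩ := hz'
    obtain ⟨k, hk, hx⟩ := (Mt.p_eq x1 t1 x' t').1 hz
    simp only at hx1 ht1
    -- the order near `(x1, t1)`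
    have hO : OrdEq (x1, t1) (fun w => (C (Mt.p w)).2) (fun w => w.2 + pot f c x1 w.1) := by
      refine OrdEq.of_comp (fun s => s + (pot f c x1 x1 - pot f c x x1))
        (fun a b hab => by simpa using hab) ?_
      have h1 : (ξ.source ∩ dom f x) ×ˢ Ioo (t - 1 / 2) (t + 1 / 2) ∈ 𝓝 (x1, t1) :=
        (hU.prod isOpen_Ioo).mem_nhds ⟨hx1, ht1⟩
      have h2 : ∀ᶠ w : S × ℝ in 𝓝 (x1, t1),
          pot f c x w.1 - pot f c x1 w.1 = pot f c x x1 - pot f c x1 x1 :=
        (continuous_fst.continuousAt (x := (x1, t1))).eventually (pot_diff f c hx1.2)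
      filter_upwards [h1, h2] with w hw1 hw2
      rw [hC' w hw1]
      simp only
      linarith
    have hD : ContinuousAt (fun w : S × ℝ => ((phi ^ k) w.1, w.2 - k)) (x', t') := by
      refine Continuous.continuousAt ?_
      exact ((phi ^ k).continuous.comp continuous_fst).prodMk (continuous_snd.sub continuous_const)
    have hDz : ((phi ^ k) x', t' - k) = (x1, t1) := by
      rw [← hx, hk]
      simp
    have hO' : OrdEq ((phi ^ k) x', t' - (k : ℝ)) (fun w => (C (Mt.p w)).2)
        (fun w => w.2 + pot f c x1 w.1) := by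
      rw [hDz]
      exact hO
    have h3 : OrdEq (x', t') (fun w : S × ℝ => (C (Mt.p ((phi ^ k) w.1, w.2 - k))).2)
        (fun w : S × ℝ => w.2 - k + pot f c x1 ((phi ^ k) w.1)) :=
      OrdEq.comp_cont (R := fun w : S × ℝ => ((phi ^ k) w.1, w.2 - (k : ℝ))) hD hO'
    have h4 : ∀ w : S × ℝ, Mt.p ((phi ^ k) w.1, w.2 - k) = Mt.p w := by
      rintro ⟨w, s⟩
      exact (Mt.p_eq _ _ _ _).2 ⟨k, by simp, rfl⟩
    have h5 : ∀ w : S, pot f c x1 ((phi ^ k) w) = pot f c x' w := by
      intro w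
      rw [hx, pot_zpow c hf']
    simp only [h4, h5] at h3
    refine h3.trans (OrdEq.of_comp (fun s => s + k) (fun a b hab => by simpa using hab)
      (Eventually.of_forall fun w => ?_))
    simp only
    ring
  · rw [hC]
    exact ⟨(x, t), ⟨⟨hξ, mem_dom f x⟩, ⟨by simp only; linarith, by simp only; linarith⟩⟩, rfl⟩

/-- the foliation given by the one-form -/
noncomputable def fol : Foliation M where
  charts := {C | ∀ z, Mt.p z ∈ C.source →
    OrdEq z (fun w => (C (Mt.p w)).2) (fun w => w.2 + pot f c z.1 w.1)}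
  cover y := by
    obtain ⟨⟨x, t⟩, rfl⟩ := Mt.p_surj y
    obtain ⟨C, h1, h2⟩ := chart_at c hf' Mt x t
    exact ⟨C, h1, h2⟩
  compat C hC C' hC' y hy hy' := by
    obtain ⟨z, rfl⟩ := Mt.p_surj y
    exact OrdEq.of_openMap Mt.p_loc.isOpenMap (f := fun w => (C w).2) (g := fun w => (C' w).2)
      ((hC z hy).trans (hC' z hy').symm)

theorem fol_ord {C : OpenPartialHomeomorph M ((ℝ × ℝ) × ℝ)} (hC : C ∈ (fol c hf' Mt).charts)
    {z : S × ℝ} (hz : Mt.p z ∈ C.source) :
    OrdEq z (fun w => (C (Mt.p w)).2) (fun w => w.2 + pot f c z.1 w.1) := hC z hz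

/-- leaf paths -/
theorem fol_leaf (γ : unitInterval → S) (τ : unitInterval → ℝ) (hγ : Continuous γ)
    (hτ : Continuous τ) (h : ∀ s, ∀ᶠ s' in 𝓝 s,
      τ s' + pot f c (γ s) (γ s') = τ s + pot f c (γ s) (γ s)) :
    (fol c hf' Mt).SameLeaf (Mt.p (γ 0, τ 0)) (Mt.p (γ 1, τ 1)) := by
  refine (fol c hf' Mt).sameLeaf_of (fun s => Mt.p (γ s, τ s))
    (Mt.p_loc.continuous.comp (hγ.prodMk hτ)) fun s => ?_
  obtain ⟨C, hC, hy⟩ := (fol c hf' Mt).cover (Mt.p (γ s, τ s))
  refine ⟨C, hC, hy, ?_⟩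
  obtain ⟨N, hN, hO⟩ := fol_ord c hf' Mt hC hy
  have h1 : ∀ᶠ s' in 𝓝 s, (γ s', τ s') ∈ N := (hγ.prodMk hτ).continuousAt hN
  filter_upwards [h s, h1] with s' hs' hN'
  have h2 := hO _ hN' _ (mem_of_mem_nhds hN)
  have h3 := hO _ (mem_of_mem_nhds hN) _ hN'
  simp only at h2 h3
  rw [hs'] at h2 h3
  exact le_antisymm (not_lt.1 fun k => absurd (h3.1 k) (lt_irrefl _))
    (not_lt.1 fun k => absurd (h2.1 k) (lt_irrefl _))

theorem fol_local (x : S) : ∀ᶠ y in 𝓝 x, ∃ d : ℝ, ∀ t,
    (fol c hf' Mt).SameLeaf (Mt.p (x, t)) (Mt.p (y, t + d)) := by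
  have _ := E.locPath
  obtain ⟨V, ⟨hV, hVp⟩, hVd⟩ := (path_connected_basis x).mem_iff.1
    ((dom_open f x).mem_nhds (mem_dom f x))
  filter_upwards [hV] with y hy
  obtain ⟨γ, hγ⟩ := hVp.joinedIn x (mem_of_mem_nhds hV) y hy
  refine ⟨-(pot f c x y - pot f c x x), fun t => ?_⟩
  have h := fol_leaf c hf' Mt γ (fun s => t - (pot f c x (γ s) - pot f c x x)) γ.continuous ?_ ?_
  · simp only [Path.source, Path.target, sub_self, sub_zero] at h
    rw [← sub_eq_add_neg]
    exact h
  · have h1 : Continuous fun s => pot f c x (γ s) :=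
      (pot_contOn f c x).comp_continuous γ.continuous fun s => hVd (hγ s)
    exact continuous_const.sub (h1.sub continuous_const)
  · intro s
    have h1 := (γ.continuous.continuousAt (x := s)).eventually (pot_diff f c (hVd (hγ s)))
    filter_upwards [h1] with s' hs'
    linarith

theorem fol_conn [ConnectedSpace S] (x y : S) : ∃ d : ℝ, ∀ t,
    (fol c hf' Mt).SameLeaf (Mt.p (x, t)) (Mt.p (y, t + d)) := by
  refine PreconnectedSpace.induction₂' (fun x y => ∃ d : ℝ, ∀ t,
    (fol c hf' Mt).SameLeaf (Mt.p (x, t)) (Mt.p (y, t + d))) (fun x => ?_) ?_ x y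
  · filter_upwards [fol_local c hf' Mt x] with y ⟨d, hd⟩
    refine ⟨⟨d, hd⟩, -d, fun t => ?_⟩
    have h := (hd (t + -d)).symm
    rw [neg_add_cancel_right] at h
    exact h
  · refine ⟨fun x y z => ?_⟩
    rintro ⟨d, hd⟩ ⟨d', hd'⟩
    refine ⟨d + d', fun t => ?_⟩
    have h := (hd t).trans _ (hd' (t + d))
    rw [← add_assoc]
    exact h

theorem fol_taut [ConnectedSpace S] {x₀ : S} (h0 : phi x₀ = x₀) : (fol c hf' Mt).Taut := by
  intro y
  obtain ⟨⟨x, t⟩, rfl⟩ := Mt.p_surj y
  obtain ⟨d, hd⟩ := fol_conn c hf' Mt x x₀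
  refine ⟨fun s => Mt.p (x₀, s), t + d, ?_, hd t⟩
  refine (fol c hf' Mt).transversal_of _ (Mt.p_loc.continuous.comp (by fun_prop)) ?_ ?_
  · intro s
    refine (Mt.p_eq _ _ _ _).2 ⟨-1, by simp, ?_⟩
    have h1 : (phi⁻¹ : S ≃ₜ S) x₀ = x₀ := by
      have h2 : phi.symm x₀ = x₀ := by
        rw [Homeomorph.symm_apply_eq]
        exact h0.symm
      exact h2
    rw [zpow_neg_one, h1]
  · intro s
    obtain ⟨C, hC, hy⟩ := (fol c hf' Mt).cover (Mt.p (x₀, s))
    obtain ⟨N, hN, hO⟩ := fol_ord c hf' Mt hC hy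
    have hc : Continuous fun s' : ℝ => ((x₀, s') : S × ℝ) := by fun_prop
    obtain ⟨ε, hε, hb⟩ := Metric.mem_nhds_iff.1 (hc.continuousAt (x := s) hN)
    refine ⟨C, hC, hy, ε, hε, fun a ha b hb' hab => ?_⟩
    rw [← Real.ball_eq_Ioo] at ha hb'
    exact (hO _ (hb ha) _ (hb hb')).2 (by simpa using hab)

end PF

/-- Pieces with closed one-forms: `f i : S → ℝ/ℤ` are invariant under the monodromy `phi` and
have degree `m i j` on the collar `j`; the foliation is `t + ∑ c i * f i = const`. Without `f`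
(`I` empty) this is the foliation by the fibres of the mapping torus. -/
theorem detected_form {S : Type*} [TopologicalSpace S] [ConnectedSpace S] {J : Type*}
    [Finite J] [Nonempty J] (E : Surf S J) (phi : S ≃ₜ S)
    (hphi : ∀ j z, phi (E.collar j z) = E.collar j z) {M : Type*} [TopologicalSpace M]
    {T : Ended M J} (Mt : MTorus E phi T) {I : Type*} [Fintype I]
    (f : I → C(S, AddCircle (1 : ℝ))) (hf : ∀ i x, f i (phi x) = f i x) (m : I → J → ℤ)
    (b : I → J → AddCircle (1 : ℝ)) (hm : ∀ i j θ r, f i (E.collar j (θ, r)) = m i j • θ + b i j)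
    (c : I → ℝ) (ε : ℝ) (hε : ε = 1 ∨ ε = -1) (x y : J → ℝ) (hy : ∀ j, 0 < ε * y j)
    (hx : ∀ j, x j = y j * ∑ i, c i * m i j) : Detected T x y := by
  have key : Detected T (fun j => ∑ i, c i * m i j) (fun _ => 1) := by
    refine ⟨PF.fol c hf Mt, ?_, ?_⟩
    · obtain ⟨j⟩ := ‹Nonempty J›
      exact PF.fol_taut c hf Mt (hphi j (0, ⟨3 / 2, by norm_num, by norm_num⟩))
    · rintro j ⟨u, r, t⟩ - C hC hz
      have hcov : ∀ w : ℝ × Ioo (1 : ℝ) 2 × ℝ, T.cov j w =
          Mt.p (E.collar j ((w.1 : AddCircle (1 : ℝ)), w.2.1), w.2.2) := fun w => Mt.tor _ _ _ _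
      simp only [hcov] at hz ⊢
      have hκ : Continuous fun w : ℝ × Ioo (1 : ℝ) 2 × ℝ =>
          ((E.collar j ((w.1 : AddCircle (1 : ℝ)), w.2.1), w.2.2) : S × ℝ) := by
        refine ((E.emb j).continuous.comp ?_).prodMk (by fun_prop)
        exact ((AddCircle.continuous_mk' (1 : ℝ)).comp continuous_fst).prodMk (by fun_prop)
      have h1 := OrdEq.comp_cont (hκ.continuousAt (x := (u, r, t))) (PF.fol_ord c hf Mt hC hz)
      refine h1.trans ?_
      refine OrdEq.of_comp (fun s => s + ((∑ i, c i * m i j) * u - ∑ i, c i * (1 / 2)))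
        (fun a b hab => by simpa using hab) ?_
      have h2 : ∀ i, ∀ᶠ w : ℝ × Ioo (1 : ℝ) 2 × ℝ in 𝓝 (u, r, t),
          |(m i j : ℝ) * (w.1 - u)| < 1 / 2 := by
        intro i
        have h3 : ContinuousAt (fun w : ℝ × Ioo (1 : ℝ) 2 × ℝ => |(m i j : ℝ) * (w.1 - u)|)
            (u, r, t) := Continuous.continuousAt (by fun_prop)
        have h4 : |(m i j : ℝ) * (((u, r, t) : ℝ × Ioo (1 : ℝ) 2 × ℝ).1 - u)| < 1 / 2 := by
          simp
        exact h3.eventually_lt_const h4
      filter_upwards [eventually_all.2 h2] with w hw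
      have h3 : ∀ i, lft (f i (E.collar j ((w.1 : AddCircle (1 : ℝ)), w.2.1)) -
          f i (E.collar j ((u : AddCircle (1 : ℝ)), r)) + PF.hf) = m i j * (w.1 - u) + 1 / 2 := by
        intro i
        have h4 := abs_lt.1 (hw i)
        rw [← lft_coe (u := (m i j : ℝ) * (w.1 - u) + 1 / 2)
          ⟨by linarith [h4.1], by linarith [h4.2]⟩, hm, hm, AddCircle.coe_add, PF.hf]
        congr 2
        rw [← zsmul_eq_mul, AddCircle.coe_zsmul, AddCircle.coe_sub, zsmul_sub]
        abel
      simp only [Function.comp_apply, PF.pot, h3]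
      have h5 : ∑ i, c i * ((m i j : ℝ) * (w.1 - u) + 1 / 2) =
          (∑ i, c i * m i j) * (w.1 - u) + ∑ i, c i * (1 / 2) := by
        rw [Finset.sum_mul, ← Finset.sum_add_distrib]
        exact Finset.sum_congr rfl fun i _ => by ring
      rw [h5]
      ring
  rcases hε with rfl | rfl
  · have h1 := key.scale (k := y) fun j => by simpa using hy j
    have hx' : x = fun j => y j * ∑ i, c i * m i j := funext hx
    have hy' : y = fun j => y j * 1 := by
      funext j
      rw [mul_one]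
    rw [hx']
    rw [← hy'] at h1
    exact h1
  · have h1 := (key.scale (k := fun j => -y j) fun j => by simpa using hy j).neg
    have hx' : x = fun j => -(-y j * ∑ i, c i * m i j) := by
      funext j
      rw [hx j]
      ring
    have hy' : y = fun j => -(-y j * 1) := by
      funext j
      ring
    rw [hx']
    rw [← hy'] at h1
    exact h1

end Pool.Agent.H.MP_1611f1_gt.G
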