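import Pool.Agent.H.MP_1611f1_gt.G.Glue
import Pool.Agent.H.MP_1611f1_gt.G.Bun
import Pool.Agent.H.MP_1611f1_gt.G.Prod

/-!
The main theorem on glued manifolds.
-/

namespace Pool.Agent.H.MP_1611f1_gt.G

open Topology Set Filter

/-- The pieces of the main theorem, with the admissible covectors `(x j, y j)` at their ends `j`.
* `bundle`: the mapping torus of the monodromy of a `Piece` with connected surface `S`; for a
  sign `ε` and numbers `|σ k| < 1` (one for every colour) the covectors satisfy `0 < ε y j`,
  `n x j = σ (col j) (L j) (y j)` if `L j > 0`, and `x j = 0` if `L j = 0`.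
* `form`: the mapping torus of a homeomorphism `phi` of a connected surface `S` with invariant
  circle valued functions `f i` of degree `m i j` at the end `j`; for a sign `ε` and real numbers
  `c i` the covectors satisfy `0 < ε y j` and `x j = y j * ∑ c i * m i j`. -/
inductive Good {M : Type} [TopologicalSpace M] {J : Type} (T : Ended M J) (x y : J → ℝ) : Prop
  | bundle {S : Type} [TopologicalSpace S] [ConnectedSpace S] {K : Type} [Finite J] [Nonempty J]
      [Finite K]
      (P : Piece S J K) (Mt : MTorus P.E P.Φ.phi T) (σ : K → ℝ) (hσ : ∀ k, |σ k| < 1) (ε : ℝ)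
      (hε : ε = 1 ∨ ε = -1) (hy : ∀ j, 0 < ε * y j)
      (hx : ∀ j (h : 0 < P.L j), P.n * x j = σ (P.col ⟨j, h⟩) * P.L j * y j)
      (hx0 : ∀ j, P.L j = 0 → x j = 0) : Good T x y
  | form {S : Type} [TopologicalSpace S] [ConnectedSpace S] [Finite J] [Nonempty J]
      (E : Surf S J) (phi : S ≃ₜ S) (hphi : ∀ j z, phi (E.collar j z) = E.collar j z)
      (Mt : MTorus E phi T) {I : Type} [Fintype I] (f : I → C(S, AddCircle (1 : ℝ)))
      (hf : ∀ i x, f i (phi x) = f i x) (m : I → J → ℤ) (b : I → J → AddCircle (1 : ℝ))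
      (hm : ∀ i j θ r, f i (E.collar j (θ, r)) = m i j • θ + b i j) (c : I → ℝ) (ε : ℝ)
      (hε : ε = 1 ∨ ε = -1) (hy : ∀ j, 0 < ε * y j) (hx : ∀ j, x j = y j * ∑ i, c i * m i j) :
      Good T x y

theorem Good.detected {M : Type} [TopologicalSpace M] {J : Type} {T : Ended M J} {x y : J → ℝ}
    (h : Good T x y) : Detected T x y := by
  cases h with
  | bundle P Mt σ hσ ε hε hy hx hx0 => exact detected_bundle P Mt σ hσ ε hε x y hy hx hx0
  | form E phi hphi Mt f hf m b hm c ε hε hy hx =>
    exact detected_form E phi hphi Mt f hf m b hm c ε hε x y hy hx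

/-- Let `Y` be obtained from good pieces `M v` by gluing and filling their toral ends. Suppose
that the covectors `(x e, y e)` at the ends are admissible for the pieces, that the gluing
matrices carry them into one another, and that at the filled ends they are multiples of the
covector of the meridian discs. Then `Y` has a co-oriented taut foliation. -/
theorem main {V : Type} {M : V → Type} [∀ v, TopologicalSpace (M v)] {J : V → Type}
    (T : ∀ v, Ended (M v) (J v)) (G : Pattern (Σ v, J v)) {Y : Type} [TopologicalSpace Y]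
    (U : Union T G Y) (x y : (Σ v, J v) → ℝ)
    (hgood : ∀ v, Good (T v) (fun j => x ⟨v, j⟩) (fun j => y ⟨v, j⟩))
    (hglue : ∀ e, G.τ e ≠ e → x e = G.al e * x (G.τ e) + G.ga e * y (G.τ e) ∧
      y e = G.be e * x (G.τ e) + G.de e * y (G.τ e))
    (hfill : ∀ e, G.τ e = e → ∃ c : ℝ, c ≠ 0 ∧ x e = c * G.ga e ∧ y e = c * G.de e) :
    ∃ F : Foliation Y, F.Taut :=
  glue_taut T G U x y (fun v => (hgood v).detected) hglue hfill

end Pool.Agent.H.MP_1611f1_gt.G
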