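import Pool.Agent.H.MP_1611f1_gt.G.MT
import Pool.Agent.H.MP_1611f1_gt.RF.Re

/-!
Change of the coordinates of the ends: mapping tori of monodromies which differ by boundary
twists.
-/

namespace Pool.Agent.H.MP_1611f1_gt.G

open Topology Set Filter

/-- the shear of the circle × circle by an integer -/
def shHomeo (k : ℤ) : AddCircle (1 : ℝ) × Ioo (1 : ℝ) 2 × AddCircle (1 : ℝ) ≃ₜ
    AddCircle (1 : ℝ) × Ioo (1 : ℝ) 2 × AddCircle (1 : ℝ) where
  toFun z := (z.1 + k • z.2.2, z.2.1, z.2.2)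
  invFun z := (z.1 - k • z.2.2, z.2.1, z.2.2)
  left_inv z := by
    refine Prod.ext ?_ rfl
    show z.1 + k • z.2.2 - k • z.2.2 = z.1
    abel
  right_inv z := by
    refine Prod.ext ?_ rfl
    show z.1 - k • z.2.2 + k • z.2.2 = z.1
    abel
  continuous_toFun := by fun_prop
  continuous_invFun := by fun_prop

/-- the same space with the toral ends in the coordinates `(θ - κ j * t, r, t)` -/
def Ended.shear {M : Type*} [TopologicalSpace M] {J : Type*} (T : Ended M J) (κ : J → ℤ) :
    Ended M J where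
  tor j z := T.tor j (shHomeo (κ j) z)
  emb j := (T.emb j).comp (shHomeo (κ j)).isOpenEmbedding
  disj i j _ _ h := T.disj i j _ _ h

theorem Ended.shear_cov {M : Type*} [TopologicalSpace M] {J : Type*} (T : Ended M J) (κ : J → ℤ)
    (j : J) (z : ℝ × Ioo (1 : ℝ) 2 × ℝ) :
    (T.shear κ).cov j z = T.cov j (z.1 + κ j * z.2.2, z.2.1, z.2.2) := by
  show T.tor j ((z.1 : AddCircle (1 : ℝ)) + κ j • (z.2.2 : AddCircle (1 : ℝ)), _, _) = T.tor j _
  have h : κ j • (z.2.2 : AddCircle (1 : ℝ)) = ((κ j * z.2.2 : ℝ) : AddCircle (1 : ℝ)) := by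
    rw [← zsmul_eq_mul]
    rfl
  rw [h, ← AddCircle.coe_add]

/-- the covectors in the new coordinates -/
theorem linear_shear {M : Type*} [TopologicalSpace M] {J : Type*} {T : Ended M J}
    {F : Foliation M} {x y : J → ℝ} (κ : J → ℤ)
    (h : Linear (T.shear κ) F x fun j => y j + κ j * x j) : Linear T F x y := by
  intro j z hz c hc hmem
  let g : ℝ × Ioo (1 : ℝ) 2 × ℝ → ℝ × Ioo (1 : ℝ) 2 × ℝ :=
    fun w => (w.1 - κ j * w.2.2, w.2.1, w.2.2)
  have hg : Continuous g := by fun_prop
  have hcov : ∀ w, (T.shear κ).cov j (g w) = T.cov j w := by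
    intro w
    rw [Ended.shear_cov]
    show T.cov j (w.1 - κ j * w.2.2 + κ j * w.2.2, w.2.1, w.2.2) = _
    rw [sub_add_cancel]
  have h1 := h j (g z) hz c hc (by rw [hcov]; exact hmem)
  have h2 := OrdEq.comp_cont (R := g) hg.continuousAt h1
  refine h2.congr (Eventually.of_forall fun w => ?_) (Eventually.of_forall fun w => ?_)
  · show (c (T.cov j w)).2 = (c ((T.shear κ).cov j (g w))).2
    rw [hcov]
  · show x j * w.1 + y j * w.2.2 = x j * (w.1 - κ j * w.2.2) + (y j + κ j * x j) * w.2.2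
    ring

theorem detected_shear {M : Type*} [TopologicalSpace M] {J : Type*} {T : Ended M J}
    {x y : J → ℝ} (κ : J → ℤ) (h : Detected (T.shear κ) x fun j => y j + κ j * x j) :
    Detected T x y := by
  obtain ⟨F, h1, h2⟩ := h
  exact ⟨F, h1, linear_shear κ h2⟩

/-- The mapping torus of `rot κ * phi` is the mapping torus of `phi` in other coordinates of the
ends. -/
noncomputable def MTorus.reframe {S : Type*} [TopologicalSpace S] {J : Type*} [Finite J]
    (E : Surf S J) (phi : S ≃ₜ S) (hphi : ∀ j z, phi (E.collar j z) = E.collar j z) (κ : J → ℤ)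
    {M : Type*} [TopologicalSpace M] {T : Ended M J}
    (Mt : MTorus E.shrink (E.rot (fun j => (κ j : ℝ)) * phi) T) :
    MTorus E.shrink phi (T.shear fun j => -κ j) where
  p z := Mt.p (Tw_Psi E (fun j => -(κ j : ℝ)) z)
  p_loc := Mt.p_loc.comp (Tw_Psi E (fun j => -(κ j : ℝ))).isLocalHomeomorph
  p_eq x t x' t' := Tw_eq E phi hphi κ Mt.p Mt.p_eq x t x' t'
  p_surj := Mt.p_surj.comp (Tw_Psi E (fun j => -(κ j : ℝ))).surjective
  tor j θ r t := by
    show T.tor j (θ + (-κ j) • (t : AddCircle (1 : ℝ)), r, (t : AddCircle (1 : ℝ))) =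
      Mt.p (E.rot (fun j => -(κ j : ℝ) * t) (E.shrink.collar j (θ, r)), t)
    have h : (-κ j) • (t : AddCircle (1 : ℝ)) = ((-(κ j : ℝ) * t : ℝ) : AddCircle (1 : ℝ)) := by
      rw [← Int.cast_neg, ← zsmul_eq_mul]
      rfl
    rw [E.rot_shrink, Mt.tor, h]

/-- the piece with smaller collars -/
noncomputable def Piece.shrink {S : Type*} [TopologicalSpace S] {J K : Type*} (P : Piece S J K) :
    Piece S J K where
  E := P.E.shrink
  L := P.L
  col := P.col
  A := P.A.shrink
  free j hj k _ := P.free j hj k _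
  n := P.n
  n_pos := P.n_pos
  Φ := P.Φ.shrink
  fix i j _ := P.fix i j _

theorem Piece.phi_collar {S : Type*} [TopologicalSpace S] {J K : Type*} (P : Piece S J K) (j : J)
    (z : AddCircle (1 : ℝ) × Ioo (1 : ℝ) 2) : P.Φ.phi (P.E.collar j z) = P.E.collar j z := by
  have h : ∀ l : List (S ≃ₜ S), (∀ f ∈ l, f (P.E.collar j z) = P.E.collar j z) →
      l.prod (P.E.collar j z) = P.E.collar j z := by
    intro l
    induction l with
    | nil => intro _; rfl
    | cons f l ih =>
      intro hl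
      rw [List.prod_cons, Homeomorph.mul_apply, ih fun g hg => hl g (List.mem_cons_of_mem _ hg),
        hl f List.mem_cons_self]
  apply h
  intro f hf
  rw [List.mem_ofFn] at hf
  obtain ⟨i, rfl⟩ := hf
  rw [Homeomorph.mul_apply, (P.fix i j z).1, (P.fix i j z).2]

end Pool.Agent.H.MP_1611f1_gt.G
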